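/-
MP_33c730_lc (helper20): order-invariant first-order logic and MSO on coloured graphs.
Syntax and semantics, and the graph classes. Definitions only.
-/
import Mathlib

set_option autoImplicit false

namespace Pool.MP_33c730_lc

/-- A vertex-coloured graph: a simple graph with a unary predicate for every colour. -/
structure CG (C V : Type) where
  gr : SimpleGraph V
  col : C → V → Prop

/-- Extension of an assignment by a value `x` for the new (bound) variable `none`. -/
def ext {α X : Type} (x : X) (v : α → X) : Option α → X
  | none => x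
  | some a => v a

/-- First-order formulas over `{E, (P_c)_c, <}` with free variables in `α`. -/
inductive FO (C : Type) : Type → Type 1
  | eq {α : Type} (i j : α) : FO C α
  | adj {α : Type} (i j : α) : FO C α
  | lt {α : Type} (i j : α) : FO C α
  | col {α : Type} (c : C) (i : α) : FO C α
  | neg {α : Type} (f : FO C α) : FO C α
  | and {α : Type} (f g : FO C α) : FO C α
  | ex {α : Type} (f : FO C (Option α)) : FO C α

/-- Semantics of first-order formulas in the ordered graph `(G, lt)`. -/
def FO.Sat {C V : Type} (G : CG C V) (lt : V → V → Prop) :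
    {α : Type} → FO C α → (α → V) → Prop
  | _, .eq i j, v => v i = v j
  | _, .adj i j, v => G.gr.Adj (v i) (v j)
  | _, .lt i j, v => lt (v i) (v j)
  | _, .col c i, v => G.col c (v i)
  | _, .neg f, v => ¬ FO.Sat G lt f v
  | _, .and f g, v => FO.Sat G lt f v ∧ FO.Sat G lt g v
  | _, .ex f, v => ∃ x, FO.Sat G lt f (ext x v)

/-- A sentence is order-invariant if its truth value in a finite graph does not depend on the
linear order. -/
def OrderInvariant {C : Type} (φ : FO C Empty) : Prop :=
  ∀ (V : Type) [Finite V] (G : CG C V) (r₁ r₂ : V → V → Prop), IsStrictTotalOrder V r₁ →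
    IsStrictTotalOrder V r₂ → (φ.Sat G r₁ Empty.elim ↔ φ.Sat G r₂ Empty.elim)

/-- Monadic second-order formulas over `{E, (P_c)_c}` (no order) with free element variables in
`α` and free set variables in `β`. -/
inductive MSO (C : Type) : Type → Type → Type 1
  | eq {α β : Type} (i j : α) : MSO C α β
  | adj {α β : Type} (i j : α) : MSO C α β
  | col {α β : Type} (c : C) (i : α) : MSO C α β
  | mem {α β : Type} (i : α) (X : β) : MSO C α β
  | neg {α β : Type} (f : MSO C α β) : MSO C α β
  | and {α β : Type} (f g : MSO C α β) : MSO C α β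
  | ex {α β : Type} (f : MSO C (Option α) β) : MSO C α β
  | exS {α β : Type} (f : MSO C α (Option β)) : MSO C α β

/-- Semantics of MSO formulas in the coloured graph `G`. -/
def MSO.Sat {C V : Type} (G : CG C V) :
    {α β : Type} → MSO C α β → (α → V) → (β → Set V) → Prop
  | _, _, .eq i j, v, _ => v i = v j
  | _, _, .adj i j, v, _ => G.gr.Adj (v i) (v j)
  | _, _, .col c i, v, _ => G.col c (v i)
  | _, _, .mem i X, v, S => v i ∈ S X
  | _, _, .neg f, v, S => ¬ MSO.Sat G f v S
  | _, _, .and f g, v, S => MSO.Sat G f v S ∧ MSO.Sat G g v S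
  | _, _, .ex f, v, S => ∃ x, MSO.Sat G f (ext x v) S
  | _, _, .exS f, v, S => ∃ X, MSO.Sat G f v (ext X S)

/-- `G` contains a subdivision of the complete graph `K_s`: branch vertices `b i` and paths between
any two of them which meet each other at most in branch vertices and contain no further branch
vertices. -/
def ContainsTopK {V : Type} (s : ℕ) (G : SimpleGraph V) : Prop :=
  ∃ (b : Fin s → V) (p : ∀ i j : Fin s, i < j → G.Path (b i) (b j)), Function.Injective b ∧
    (∀ (i j : Fin s) (h : i < j) (k : Fin s), b k ∈ (p i j h).1.support → k = i ∨ k = j) ∧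
    (∀ (i j : Fin s) (h : i < j) (k l : Fin s) (h' : k < l), (i, j) ≠ (k, l) →
      ∀ x ∈ (p i j h).1.support, x ∈ (p k l h').1.support → ∃ m, x = b m)

/-- No `h` vertices together with `h` disjoint connected sets, each of them adjacent to all of these
vertices. -/
def HubFree {V : Type} (h : ℕ) (G : SimpleGraph V) : Prop :=
  ¬ ∃ (a : Fin h → V) (D : Fin h → Set V), Function.Injective a ∧
    (∀ j, (G.induce (D j)).Connected) ∧ (∀ i j, i ≠ j → Disjoint (D i) (D j)) ∧
    (∀ i j, a i ∉ D j) ∧ ∀ i j, ∃ x ∈ D j, G.Adj (a i) x

end Pool.MP_33c730_lc
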