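/-
MP_33c730_lc (helper20): tree orders, reduced trees, the derived order, EF equivalence.
Definitions only.
-/
import Pool.Agent.Lib.MP_33c730_lc.Defs

set_option autoImplicit false

namespace Pool.MP_33c730_lc

variable {C V : Type}

/-! ### Ehrenfeucht-Fraisse equivalence of ordered induced subgraphs over an interface -/

/-- quantifier rank -/
def FO.rank : {α : Type} → FO C α → ℕ
  | _, .eq _ _ => 0
  | _, .adj _ _ => 0
  | _, .lt _ _ => 0
  | _, .col _ _ => 0
  | _, .neg f => FO.rank f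
  | _, .and f g => max (FO.rank f) (FO.rank g)
  | _, .ex f => FO.rank f + 1

/-- Semantics relativised to the subset `W`. -/
def FO.SatOn (G : CG C V) (W : Set V) (lt : V → V → Prop) :
    {α : Type} → FO C α → (α → V) → Prop
  | _, .eq i j, v => v i = v j
  | _, .adj i j, v => G.gr.Adj (v i) (v j)
  | _, .lt i j, v => lt (v i) (v j)
  | _, .col c i, v => G.col c (v i)
  | _, .neg f, v => ¬ FO.SatOn G W lt f v
  | _, .and f g, v => FO.SatOn G W lt f v ∧ FO.SatOn G W lt g v
  | _, .ex f, v => ∃ x ∈ W, FO.SatOn G W lt f (ext x v)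

/-- Atomic agreement of the pairs in `L` (left components with order `r`, right components with
order `r'`), over the interface `B`. -/
def Atom (G : CG C V) (B : Set V) (r r' : V → V → Prop) (L : List (V × V)) : Prop :=
  ∀ p ∈ L, ∀ q ∈ L, ((p.1 = q.1) ↔ (p.2 = q.2)) ∧ (G.gr.Adj p.1 q.1 ↔ G.gr.Adj p.2 q.2) ∧
    (r p.1 q.1 ↔ r' p.2 q.2) ∧ (∀ c, G.col c p.1 ↔ G.col c p.2) ∧
    ∀ a ∈ B, (G.gr.Adj p.1 a ↔ G.gr.Adj p.2 a)

/-- EF equivalence with `n` rounds of `(G[W], r)` and `(G[W'], r')` over the interface `B`. -/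
def EF (G : CG C V) (B : Set V) (r r' : V → V → Prop) (W W' : Set V) :
    ℕ → List (V × V) → Prop
  | 0, L => Atom G B r r' L
  | n + 1, L => Atom G B r r' L ∧ (∀ x ∈ W, ∃ x' ∈ W', EF G B r r' W W' n ((x, x') :: L)) ∧
      (∀ x' ∈ W', ∃ x ∈ W, EF G B r r' W W' n ((x, x') :: L))

/-! ### Tree orders -/

/-- A forest order on the vertices such that adjacent vertices are comparable.
`le a x` : `a` is an ancestor of `x` (or equal). -/
structure Forest (G : SimpleGraph V) (le : V → V → Prop) : Prop where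
  refl : ∀ x, le x x
  antisymm : ∀ x y, le x y → le y x → x = y
  trans : ∀ x y z, le x y → le y z → le x z
  chain : ∀ a b x, le a x → le b x → le a b ∨ le b a
  comp : ∀ x y, G.Adj x y → le x y ∨ le y x

/-- A normal spanning forest: moreover every vertex which is not a root is adjacent to its parent. -/
structure Normal (G : SimpleGraph V) (le : V → V → Prop) : Prop extends Forest G le where
  parent : ∀ v a, le a v → a ≠ v → ∃ p, le p v ∧ p ≠ v ∧ G.Adj v p ∧ ∀ b, le b v → b ≠ v → le b p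

/-- strict ancestors -/
def anc (le : V → V → Prop) (c : V) : Set V := {a | le a c ∧ a ≠ c}

/-- descendants (with `c`) -/
def sub (le : V → V → Prop) (c : V) : Set V := {x | le c x}

/-- the strict ancestors adjacent to the subtree of `c` -/
def nb (G : SimpleGraph V) (le : V → V → Prop) (c : V) : Set V :=
  {a | (le a c ∧ a ≠ c) ∧ ∃ x, le c x ∧ G.Adj a x}

/-- siblings: the same strict ancestors -/
def sib (le : V → V → Prop) (c c' : V) : Prop := ∀ a, (le a c ∧ a ≠ c) ↔ (le a c' ∧ a ≠ c')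

/-- reduced subtree: descendants of `c` reachable from `c` through kept vertices -/
def kp (le : V → V → Prop) (K : Set V) (c : V) : Set V :=
  {x | le c x ∧ ∀ w, le c w → w ≠ c → le w x → w ∈ K}

/-- reduced forest -/
def kpAll (le : V → V → Prop) (K : Set V) : Set V := {x | ∀ w, le w x → w ∈ K}

/-- equality of the attachment sets -/
def nbEq (G : SimpleGraph V) (le : V → V → Prop) (c c' : V) : Prop :=
  ∀ a, a ∈ nb G le c ↔ a ∈ nb G le c'

/-- lexicographic comparison of the attachment sets -/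
def nbLt (G : SimpleGraph V) (le : V → V → Prop) (c c' : V) : Prop :=
  ∃ a, a ∈ nb G le c ∧ a ∉ nb G le c' ∧
    ∀ b, le b a → b ≠ a → (b ∈ nb G le c ↔ b ∈ nb G le c')

/-- comparison of siblings: attachments, then class number, then index in the class -/
def slt (G : SimpleGraph V) (le : V → V → Prop) (k1 k2 : V → ℕ) (c c' : V) : Prop :=
  nbLt G le c c' ∨ (nbEq G le c c' ∧ (k1 c < k1 c' ∨ (k1 c = k1 c' ∧ k2 c < k2 c')))

/-- the derived order -/
def dlt (G : SimpleGraph V) (le : V → V → Prop) (k1 k2 : V → ℕ) (x y : V) : Prop :=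
  (le x y ∧ x ≠ y) ∨ ∃ c c', sib le c c' ∧ le c x ∧ le c' y ∧ slt G le k1 k2 c c'

/-- The labelled, reduced tree is legitimate (for rank `q`). -/
structure Legit (G : CG C V) (le : V → V → Prop) (K : Set V) (k1 k2 : V → ℕ) (q : ℕ) : Prop where
  inj : ∀ c ∈ K, ∀ c' ∈ K, c ≠ c' → sib le c c' → nbEq G.gr le c c' → k1 c = k1 c' → k2 c ≠ k2 c'
  same : ∀ c c', sib le c c' → nbEq G.gr le c c' → k1 c = k1 c' →
    EF G (anc le c) (dlt G.gr le k1 k2) (dlt G.gr le k1 k2) (kp le K c) (kp le K c') q []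
  drop : ∀ c, c ∉ K → ∃ f : Fin (2 ^ q) → V, Function.Injective f ∧
    ∀ i, f i ∈ K ∧ sib le c (f i) ∧ nbEq G.gr le c (f i) ∧ k1 c = k1 (f i)

end Pool.MP_33c730_lc
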