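/-
MP_33c730_lc (helper20): coding a tree order by vertex sets; numbers coded by sets. Definitions only.
-/
import Pool.Agent.Lib.MP_33c730_lc.Notions

set_option autoImplicit false

namespace Pool.MP_33c730_lc

variable {C V : Type}

/-- `x` has at most one neighbour in `S`. -/
def uq (G : SimpleGraph V) (S : Set V) (x : V) : Prop :=
  ∀ z z', G.Adj x z → G.Adj x z' → z ∈ S → z' ∈ S → z = z'

/-- `y` is an upper neighbour of `x` according to the sets. -/
def upR (G : SimpleGraph V) {m : ℕ} (Cs Os : Fin m → Set V) (x y : V) : Prop :=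
  G.Adj x y ∧ ∃ j, y ∈ Cs j ∧
    ((uq G (Cs j) x ∧ x ∈ Os j) ∨ (¬ uq G (Cs j) x ∧ ∃ i, x ∈ Cs i ∧ y ∉ Os i))

/-- reachability of `a` from `x` by upper neighbours. -/
def leR (G : SimpleGraph V) {m : ℕ} (Cs Os : Fin m → Set V) (a x : V) : Prop :=
  ∀ X : Set V, x ∈ X → (∀ u w, u ∈ X → upR G Cs Os u w → w ∈ X) → a ∈ X

/-- the number coded by the sets: the least `i < b` with `v ∈ T i`, or `b`. -/
noncomputable def idx {b : ℕ} (T : Fin b → Set V) (v : V) : ℕ :=
  sInf {i | i = b ∨ ∃ h : i < b, v ∈ T ⟨i, h⟩}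

/-- names of the set parameters. -/
abbrev Par (m b : ℕ) : Type := (Fin m ⊕ Fin m) ⊕ (Unit ⊕ (Fin b ⊕ Fin b))

variable {m b : ℕ}

/-- the tree order coded by the parameters. -/
def leS (G : SimpleGraph V) (S : Par m b → Set V) : V → V → Prop :=
  leR G (fun j => S (.inl (.inl j))) (fun j => S (.inl (.inr j)))

/-- the set of kept vertices. -/
def KS (S : Par m b → Set V) : Set V := S (.inr (.inl ()))

/-- class numbers. -/
noncomputable def k1S (S : Par m b → Set V) : V → ℕ := idx fun i => S (.inr (.inr (.inl i)))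

/-- numbers inside the classes. -/
noncomputable def k2S (S : Par m b → Set V) : V → ℕ := idx fun i => S (.inr (.inr (.inr i)))

/-- star colouring property: for every edge one of the endpoints has no other neighbour in the
colour class of the other endpoint. -/
def StarCol (G : SimpleGraph V) {m : ℕ} (χ : V → Fin m) : Prop :=
  ∀ x y, G.Adj x y → (∀ z, G.Adj x z → χ z = χ y → z = y) ∨ (∀ z, G.Adj y z → χ z = χ x → z = x)

end Pool.MP_33c730_lc
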