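import Pool.Agent.Lib.MP_33c730_lc.CodeDefs

set_option autoImplicit false

namespace Pool.MP_33c730_lc

/-! ### Coding: the tree order is coded by sets; numbers are coded by sets -/

private theorem upR_iff {V : Type} {G : SimpleGraph V} {le : V → V → Prop} (hN : Normal G le)
    {m : ℕ} (χ : V → Fin m) (hχ : StarCol G χ) {x y : V} (hxy : G.Adj x y) :
    upR G (fun j => {v | χ v = j}) (fun j => {u | ∀ y, G.Adj u y → χ y = j → le y u}) x y ↔
      le y x := by
  have hne : x ≠ y := hxy.ne
  constructor
  · rintro ⟨-, j, hj, h⟩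
    simp only [Set.mem_setOf_eq] at hj
    rcases h with ⟨h1, h2⟩ | ⟨h1, i, h2, h3⟩
    · exact h2 y hxy hj
    · simp only [Set.mem_setOf_eq] at h2 h3
      by_contra hle
      apply h3
      intro z hz hzi
      -- the first alternative of the star colouring fails
      rcases hχ x y hxy with h4 | h4
      · exact absurd (fun z z' hz hz' hc hc' => by
          simp only [Set.mem_setOf_eq] at hc hc'
          rw [h4 z hz (hc.trans hj.symm), h4 z' hz' (hc'.trans hj.symm)]) h1
      · have : z = x := h4 z hz (hzi.trans h2.symm)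
        rw [this]
        exact (hN.comp x y hxy).resolve_right hle
  · intro hle
    refine ⟨hxy, χ y, rfl, ?_⟩
    by_cases h1 : uq G {v | χ v = χ y} x
    · refine Or.inl ⟨h1, ?_⟩
      intro z hz hzc
      have : z = y := h1 z y hz hxy hzc rfl
      rw [this]
      exact hle
    · refine Or.inr ⟨h1, χ x, rfl, ?_⟩
      intro h2
      have h3 : le x y := h2 x hxy.symm rfl
      exact hne (hN.antisymm x y h3 hle)

theorem coding {V : Type} [Finite V] {G : SimpleGraph V} {le : V → V → Prop} (hN : Normal G le)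
    {m : ℕ} (χ : V → Fin m) (hχ : StarCol G χ) (a x : V) :
    leR G (fun j => {v | χ v = j}) (fun j => {u | ∀ y, G.Adj u y → χ y = j → le y u}) a x ↔
      le a x := by
  constructor
  · intro h
    refine h {z | le z x} (hN.refl x) ?_
    intro u w hu hw
    have h1 := (upR_iff hN χ hχ hw.1).mp hw
    exact hN.trans w u x h1 hu
  · intro h X hx hX
    -- induction on the number of ancestors
    have main : ∀ k : ℕ, ∀ x, Set.ncard {b | le b x} ≤ k → x ∈ X → le a x → a ∈ X := by
      intro k
      induction k with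
      | zero =>
        intro x hk _ _
        exfalso
        have h0 : Set.ncard {b | le b x} = 0 := by omega
        rw [Set.ncard_eq_zero (Set.toFinite _)] at h0
        have : x ∈ ({b | le b x} : Set V) := hN.refl x
        rw [h0] at this
        exact this
      | succ k ih =>
        intro x hk hx hax
        by_cases hax' : a = x
        · rw [hax']; exact hx
        · obtain ⟨p, hp1, hp2, hp3, hp4⟩ := hN.parent x a hax hax'
          have hpX : p ∈ X := hX x p hx ((upR_iff hN χ hχ hp3).mpr hp1)
          refine ih p ?_ hpX (hp4 a hax hax')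
          have hss : {b | le b p} ⊂ {b | le b x} := by
            refine ⟨fun b hb => hN.trans b p x hb hp1, fun hcon => ?_⟩
            have : le x p := hcon (hN.refl x)
            exact hp2 (hN.antisymm p x hp1 this)
          have := Set.ncard_lt_ncard hss (Set.toFinite _)
          omega
    exact main _ x le_rfl hx h

private theorem idx_mem {V : Type} {b : ℕ} (T : Fin b → Set V) (v : V) :
    idx T v = b ∨ ∃ h : idx T v < b, v ∈ T ⟨idx T v, h⟩ :=
  Nat.sInf_mem (s := {i | i = b ∨ ∃ h : i < b, v ∈ T ⟨i, h⟩}) ⟨b, Or.inl rfl⟩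

private theorem idx_le {V : Type} {b : ℕ} (T : Fin b → Set V) (v : V) {i : ℕ}
    (h : i = b ∨ ∃ h : i < b, v ∈ T ⟨i, h⟩) : idx T v ≤ i :=
  Nat.sInf_le (s := {i | i = b ∨ ∃ h : i < b, v ∈ T ⟨i, h⟩}) h

theorem idx_coding {V : Type} {b : ℕ} (k : V → ℕ) (hk : ∀ v, k v < b) (v : V) :
    idx (fun i : Fin b => {v | k v = i}) v = k v := by
  have h1 : idx (fun i : Fin b => {v | k v = i}) v ≤ k v := idx_le _ _ (Or.inr ⟨hk v, rfl⟩)
  have h2 := idx_mem (fun i : Fin b => {v | k v = i}) v
  rcases h2 with h2 | ⟨_, h2⟩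
  · have := hk v
    omega
  · exact h2.symm

theorem idx_lt {V : Type} {b : ℕ} (T : Fin b → Set V) (v w : V) :
    idx T v < idx T w ↔ ∃ i : Fin b, v ∈ T i ∧ ∀ j : Fin b, j ≤ i → w ∉ T j := by
  have hw := idx_mem T w
  have hv := idx_mem T v
  have hwb : idx T w ≤ b := idx_le T w (Or.inl rfl)
  constructor
  · intro h
    rcases hv with hv | ⟨hv1, hv2⟩
    · omega
    · refine ⟨⟨idx T v, hv1⟩, hv2, ?_⟩
      intro j hj hwj
      have h1 : idx T w ≤ j := idx_le T w (Or.inr ⟨j.2, hwj⟩)
      have h2 : (j : ℕ) ≤ idx T v := hj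
      omega
  · rintro ⟨i, hi, hj⟩
    have h1 : idx T v ≤ i := idx_le T v (Or.inr ⟨i.2, hi⟩)
    have h2 : (i : ℕ) < idx T w := by
      rcases hw with hw | ⟨hw1, hw2⟩
      · have := i.2
        omega
      · by_contra hcon
        exact hj ⟨idx T w, hw1⟩ (by
          rw [Fin.le_def]
          simp only
          omega) hw2
    omega

end Pool.MP_33c730_lc
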