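import Pool.Agent.Lib.MP_33c730_lc.Notions

set_option autoImplicit false

namespace Pool.MP_33c730_lc

variable {C V : Type}

/-! ### EFAlg: algebra of EF equivalence -/

theorem EF.efalg_atom {G : CG C V} {B : Set V} {r r' : V → V → Prop} {W W' : Set V} {n : ℕ}
    {L : List (V × V)} (h : EF G B r r' W W' n L) : Atom G B r r' L := by
  cases n with
  | zero => exact h
  | succ n => exact h.1

theorem Atom.efalg_mono {G : CG C V} {B : Set V} {r r' : V → V → Prop}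
    {L L' : List (V × V)} (h : Atom G B r r' L) (hL : L' ⊆ L) : Atom G B r r' L' :=
  fun p hp q hq => h p (hL hp) q (hL hq)

theorem EF.mono {G : CG C V} {B : Set V} {r r' : V → V → Prop} {W W' : Set V} {n m : ℕ}
    {L L' : List (V × V)} (h : EF G B r r' W W' n L) (hm : m ≤ n) (hL : L' ⊆ L) :
    EF G B r r' W W' m L' := by
  induction m generalizing n L L' with
  | zero => exact h.efalg_atom.efalg_mono hL
  | succ m ih =>
    obtain ⟨k, rfl⟩ : ∃ k, n = k + 1 := ⟨n - 1, by omega⟩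
    refine ⟨h.1.efalg_mono hL, fun x hx => ?_, fun x' hx' => ?_⟩
    · obtain ⟨x', hx', h'⟩ := h.2.1 x hx
      exact ⟨x', hx', ih h' (by omega) (List.cons_subset_cons _ hL)⟩
    · obtain ⟨x, hx, h'⟩ := h.2.2 x' hx'
      exact ⟨x, hx, ih h' (by omega) (List.cons_subset_cons _ hL)⟩

theorem EF.anti {G : CG C V} {B B' : Set V} {r r' : V → V → Prop} {W W' : Set V} {n : ℕ}
    {L : List (V × V)} (h : EF G B r r' W W' n L) (hB : B' ⊆ B) :
    EF G B' r r' W W' n L := by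
  have hA : ∀ L : List (V × V), Atom G B r r' L → Atom G B' r r' L := fun L h p hp q hq => by
    obtain ⟨h1, h2, h3, h4, h5⟩ := h p hp q hq
    exact ⟨h1, h2, h3, h4, fun a ha => h5 a (hB ha)⟩
  induction n generalizing L with
  | zero => exact hA L h
  | succ n ih =>
    refine ⟨hA L h.1, fun x hx => ?_, fun x' hx' => ?_⟩
    · obtain ⟨x', hx', h'⟩ := h.2.1 x hx
      exact ⟨x', hx', ih h'⟩
    · obtain ⟨x, hx, h'⟩ := h.2.2 x' hx'
      exact ⟨x, hx, ih h'⟩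

theorem EF.refl (G : CG C V) (B : Set V) (r : V → V → Prop) (W : Set V) (n : ℕ)
    (L : List (V × V)) (hL : ∀ p ∈ L, p.1 = p.2) : EF G B r r W W n L := by
  have hA : ∀ L : List (V × V), (∀ p ∈ L, p.1 = p.2) → Atom G B r r L := fun L hL p hp q hq => by
    rw [hL p hp, hL q hq]
    exact ⟨Iff.rfl, Iff.rfl, Iff.rfl, fun _ => Iff.rfl, fun _ _ => Iff.rfl⟩
  induction n generalizing L with
  | zero => exact hA L hL
  | succ n ih =>
    have h2 : ∀ x : V, ∀ p ∈ (x, x) :: L, p.1 = p.2 := fun x p hp => by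
      rcases List.mem_cons.1 hp with rfl | hp
      · rfl
      · exact hL p hp
    exact ⟨hA L hL, fun x hx => ⟨x, hx, ih _ (h2 x)⟩, fun x hx => ⟨x, hx, ih _ (h2 x)⟩⟩

theorem EF.symm {G : CG C V} {B : Set V} {r r' : V → V → Prop} {W W' : Set V} {n : ℕ}
    {L : List (V × V)} (h : EF G B r r' W W' n L) :
    EF G B r' r W' W n (L.map Prod.swap) := by
  have hA : ∀ L : List (V × V), Atom G B r r' L → Atom G B r' r (L.map Prod.swap) := by
    intro L h p hp q hq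
    obtain ⟨p', hp', rfl⟩ := List.mem_map.1 hp
    obtain ⟨q', hq', rfl⟩ := List.mem_map.1 hq
    obtain ⟨h1, h2, h3, h4, h5⟩ := h p' hp' q' hq'
    exact ⟨h1.symm, h2.symm, h3.symm, fun c => (h4 c).symm, fun a ha => (h5 a ha).symm⟩
  induction n generalizing L with
  | zero => exact hA L h
  | succ n ih =>
    refine ⟨hA L h.1, fun x hx => ?_, fun x' hx' => ?_⟩
    · obtain ⟨x', hx', h'⟩ := h.2.2 x hx
      exact ⟨x', hx', ih h'⟩
    · obtain ⟨x, hx, h'⟩ := h.2.1 x' hx'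
      exact ⟨x, hx, ih h'⟩

theorem EF.trans {G : CG C V} {B : Set V} {r r' r'' : V → V → Prop} {W W' W'' : Set V} {n : ℕ}
    (T : List (V × V × V)) (h : EF G B r r' W W' n (T.map fun t => (t.1, t.2.1)))
    (h' : EF G B r' r'' W' W'' n (T.map fun t => (t.2.1, t.2.2))) :
    EF G B r r'' W W'' n (T.map fun t => (t.1, t.2.2)) := by
  have hA : ∀ T : List (V × V × V), Atom G B r r' (T.map fun t => (t.1, t.2.1)) →
      Atom G B r' r'' (T.map fun t => (t.2.1, t.2.2)) →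
      Atom G B r r'' (T.map fun t => (t.1, t.2.2)) := by
    intro T h h' p hp q hq
    obtain ⟨p', hp', rfl⟩ := List.mem_map.1 hp
    obtain ⟨q', hq', rfl⟩ := List.mem_map.1 hq
    obtain ⟨h1, h2, h3, h4, h5⟩ := h _ (List.mem_map.2 ⟨p', hp', rfl⟩) _
      (List.mem_map.2 ⟨q', hq', rfl⟩)
    obtain ⟨g1, g2, g3, g4, g5⟩ := h' _ (List.mem_map.2 ⟨p', hp', rfl⟩) _
      (List.mem_map.2 ⟨q', hq', rfl⟩)
    exact ⟨h1.trans g1, h2.trans g2, h3.trans g3, fun c => (h4 c).trans (g4 c),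
      fun a ha => (h5 a ha).trans (g5 a ha)⟩
  induction n generalizing T with
  | zero => exact hA T h h'
  | succ n ih =>
    refine ⟨hA T h.1 h'.1, fun x hx => ?_, fun x'' hx'' => ?_⟩
    · obtain ⟨x', hx', e⟩ := h.2.1 x hx
      obtain ⟨x'', hx'', e'⟩ := h'.2.1 x' hx'
      exact ⟨x'', hx'', ih ((x, x', x'') :: T) e e'⟩
    · obtain ⟨x', hx', e'⟩ := h'.2.2 x'' hx''
      obtain ⟨x, hx, e⟩ := h.2.2 x' hx'
      exact ⟨x, hx, ih ((x, x', x'') :: T) e e'⟩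

/-- only the values of the orders on the two sets matter. -/
theorem EF.congr {G : CG C V} {B : Set V} {r r' s s' : V → V → Prop} {W W' : Set V} {n : ℕ}
    {L : List (V × V)} (h : EF G B r r' W W' n L) (hL : ∀ p ∈ L, p.1 ∈ W ∧ p.2 ∈ W')
    (hr : ∀ x ∈ W, ∀ y ∈ W, (r x y ↔ s x y)) (hr' : ∀ x ∈ W', ∀ y ∈ W', (r' x y ↔ s' x y)) :
    EF G B s s' W W' n L := by
  have hA : ∀ L : List (V × V), Atom G B r r' L → (∀ p ∈ L, p.1 ∈ W ∧ p.2 ∈ W') →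
      Atom G B s s' L := fun L h hL p hp q hq => by
    obtain ⟨h1, h2, h3, h4, h5⟩ := h p hp q hq
    exact ⟨h1, h2, ((hr _ (hL p hp).1 _ (hL q hq).1).symm.trans h3).trans
      (hr' _ (hL p hp).2 _ (hL q hq).2), h4, h5⟩
  have hc : ∀ (L : List (V × V)) (x x' : V), x ∈ W → x' ∈ W' → (∀ p ∈ L, p.1 ∈ W ∧ p.2 ∈ W') →
      ∀ p ∈ (x, x') :: L, p.1 ∈ W ∧ p.2 ∈ W' := fun L x x' hx hx' hL p hp => by
    rcases List.mem_cons.1 hp with rfl | hp
    · exact ⟨hx, hx'⟩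
    · exact hL p hp
  induction n generalizing L with
  | zero => exact hA L h hL
  | succ n ih =>
    refine ⟨hA L h.1 hL, fun x hx => ?_, fun x' hx' => ?_⟩
    · obtain ⟨x', hx', h'⟩ := h.2.1 x hx
      exact ⟨x', hx', ih h' (hc L x x' hx hx' hL)⟩
    · obtain ⟨x, hx, h'⟩ := h.2.2 x' hx'
      exact ⟨x, hx, ih h' (hc L x x' hx hx' hL)⟩

/-- ordered sum of two blocks. -/
theorem EF.sum {G : CG C V} {B : Set V} {r r' : V → V → Prop} {W₁ W₁' W₂ W₂' : Set V} {n : ℕ}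
    {L₁ L₂ L : List (V × V)}
    (hs : ∀ x ∈ W₁, ∀ y ∈ W₂, x ≠ y ∧ ¬ G.gr.Adj x y ∧ r x y ∧ ¬ r y x)
    (hs' : ∀ x ∈ W₁', ∀ y ∈ W₂', x ≠ y ∧ ¬ G.gr.Adj x y ∧ r' x y ∧ ¬ r' y x)
    (h₁ : EF G B r r' W₁ W₁' n L₁) (h₂ : EF G B r r' W₂ W₂' n L₂)
    (hL₁ : ∀ p ∈ L₁, p.1 ∈ W₁ ∧ p.2 ∈ W₁') (hL₂ : ∀ p ∈ L₂, p.1 ∈ W₂ ∧ p.2 ∈ W₂')
    (hL : ∀ p ∈ L, p ∈ L₁ ∨ p ∈ L₂) :
    EF G B r r' (W₁ ∪ W₂) (W₁' ∪ W₂') n L := by
  have hA : ∀ L₁ L₂ L : List (V × V), Atom G B r r' L₁ → Atom G B r r' L₂ →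
      (∀ p ∈ L₁, p.1 ∈ W₁ ∧ p.2 ∈ W₁') → (∀ p ∈ L₂, p.1 ∈ W₂ ∧ p.2 ∈ W₂') →
      (∀ p ∈ L, p ∈ L₁ ∨ p ∈ L₂) → Atom G B r r' L := by
    intro L₁ L₂ L h₁ h₂ hL₁ hL₂ hL p hp q hq
    rcases hL p hp with p1 | p2
    · rcases hL q hq with q1 | q2
      · exact h₁ p p1 q q1
      · obtain ⟨-, -, -, h4, h5⟩ := h₁ p p1 p p1
        obtain ⟨a1, a2, a3, a4⟩ := hs _ (hL₁ p p1).1 _ (hL₂ q q2).1
        obtain ⟨b1, b2, b3, b4⟩ := hs' _ (hL₁ p p1).2 _ (hL₂ q q2).2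
        exact ⟨iff_of_false a1 b1, iff_of_false a2 b2, iff_of_true a3 b3, h4, h5⟩
    · rcases hL q hq with q1 | q2
      · obtain ⟨-, -, -, h4, h5⟩ := h₂ p p2 p p2
        obtain ⟨a1, a2, a3, a4⟩ := hs _ (hL₁ q q1).1 _ (hL₂ p p2).1
        obtain ⟨b1, b2, b3, b4⟩ := hs' _ (hL₁ q q1).2 _ (hL₂ p p2).2
        exact ⟨iff_of_false (Ne.symm a1) (Ne.symm b1),
          iff_of_false (fun h => a2 h.symm) (fun h => b2 h.symm), iff_of_false a4 b4, h4, h5⟩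
      · exact h₂ p p2 q q2
  have hc : ∀ (W W' : Set V) (L : List (V × V)) (x x' : V), x ∈ W → x' ∈ W' →
      (∀ p ∈ L, p.1 ∈ W ∧ p.2 ∈ W') →
      ∀ p ∈ (x, x') :: L, p.1 ∈ W ∧ p.2 ∈ W' := fun W W' L x x' hx hx' hL p hp => by
    rcases List.mem_cons.1 hp with rfl | hp
    · exact ⟨hx, hx'⟩
    · exact hL p hp
  have hd1 : ∀ (L₁ L₂ L : List (V × V)) (z : V × V), (∀ p ∈ L, p ∈ L₁ ∨ p ∈ L₂) →
      ∀ p ∈ z :: L, p ∈ z :: L₁ ∨ p ∈ L₂ := fun L₁ L₂ L z hL p hp => by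
    rcases List.mem_cons.1 hp with rfl | hp
    · exact Or.inl List.mem_cons_self
    · exact (hL p hp).imp_left (List.mem_cons_of_mem _)
  have hd2 : ∀ (L₁ L₂ L : List (V × V)) (z : V × V), (∀ p ∈ L, p ∈ L₁ ∨ p ∈ L₂) →
      ∀ p ∈ z :: L, p ∈ L₁ ∨ p ∈ z :: L₂ := fun L₁ L₂ L z hL p hp => by
    rcases List.mem_cons.1 hp with rfl | hp
    · exact Or.inr List.mem_cons_self
    · exact (hL p hp).imp_right (List.mem_cons_of_mem _)
  induction n generalizing L₁ L₂ L with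
  | zero => exact hA L₁ L₂ L h₁ h₂ hL₁ hL₂ hL
  | succ n ih =>
    have g₁ : EF G B r r' W₁ W₁' n L₁ := h₁.mono (Nat.le_succ n) (fun _ h => h)
    have g₂ : EF G B r r' W₂ W₂' n L₂ := h₂.mono (Nat.le_succ n) (fun _ h => h)
    refine ⟨hA L₁ L₂ L h₁.1 h₂.1 hL₁ hL₂ hL, ?_, ?_⟩
    · rintro x (hx | hx)
      · obtain ⟨x', hx', h'⟩ := h₁.2.1 x hx
        exact ⟨x', Or.inl hx', ih h' g₂ (hc _ _ _ _ _ hx hx' hL₁) hL₂ (hd1 _ _ _ _ hL)⟩
      · obtain ⟨x', hx', h'⟩ := h₂.2.1 x hx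
        exact ⟨x', Or.inr hx', ih g₁ h' hL₁ (hc _ _ _ _ _ hx hx' hL₂) (hd2 _ _ _ _ hL)⟩
    · rintro x' (hx' | hx')
      · obtain ⟨x, hx, h'⟩ := h₁.2.2 x' hx'
        exact ⟨x, Or.inl hx, ih h' g₂ (hc _ _ _ _ _ hx hx' hL₁) hL₂ (hd1 _ _ _ _ hL)⟩
      · obtain ⟨x, hx, h'⟩ := h₂.2.2 x' hx'
        exact ⟨x, Or.inr hx, ih g₁ h' hL₁ (hc _ _ _ _ _ hx hx' hL₂) (hd2 _ _ _ _ hL)⟩

/-- adding the smallest element `v`, which was part of the interface. -/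
theorem EF.absorb {G : CG C V} {B : Set V} {r r' : V → V → Prop} {W W' : Set V} {n : ℕ}
    {L : List (V × V)} (v : V) (h : EF G (insert v B) r r' W W' n L)
    (hW : ∀ x ∈ W, x ≠ v ∧ r v x ∧ ¬ r x v) (hW' : ∀ x ∈ W', x ≠ v ∧ r' v x ∧ ¬ r' x v)
    (hv : ¬ r v v) (hv' : ¬ r' v v) (hL : ∀ p ∈ L, p.1 ∈ W ∧ p.2 ∈ W') :
    EF G B r r' (insert v W) (insert v W') n ((v, v) :: L) := by
  have hA : ∀ L : List (V × V), Atom G (insert v B) r r' L → (∀ p ∈ L, p.1 ∈ W ∧ p.2 ∈ W') →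
      Atom G B r r' ((v, v) :: L) := by
    intro L h hL p hp q hq
    rcases List.mem_cons.1 hp with rfl | hp
    · rcases List.mem_cons.1 hq with rfl | hq
      · exact ⟨Iff.rfl, Iff.rfl, iff_of_false hv hv', fun _ => Iff.rfl, fun _ _ => Iff.rfl⟩
      · obtain ⟨-, -, -, -, h5⟩ := h q hq q hq
        obtain ⟨a1, a2, a3⟩ := hW _ (hL q hq).1
        obtain ⟨b1, b2, b3⟩ := hW' _ (hL q hq).2
        have h6 := h5 v (Set.mem_insert v B)
        exact ⟨iff_of_false (Ne.symm a1) (Ne.symm b1),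
          ⟨fun hh => (h6.1 hh.symm).symm, fun hh => (h6.2 hh.symm).symm⟩, iff_of_true a2 b2,
          fun _ => Iff.rfl, fun _ _ => Iff.rfl⟩
    · obtain ⟨-, -, -, h4, h5⟩ := h p hp p hp
      rcases List.mem_cons.1 hq with rfl | hq
      · obtain ⟨a1, a2, a3⟩ := hW _ (hL p hp).1
        obtain ⟨b1, b2, b3⟩ := hW' _ (hL p hp).2
        exact ⟨iff_of_false a1 b1, h5 v (Set.mem_insert v B), iff_of_false a3 b3, h4,
          fun a ha => h5 a (Set.mem_insert_of_mem v ha)⟩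
      · obtain ⟨h1, h2, h3, h4, h5⟩ := h p hp q hq
        exact ⟨h1, h2, h3, h4, fun a ha => h5 a (Set.mem_insert_of_mem v ha)⟩
  have hc : ∀ (L : List (V × V)) (x x' : V), x ∈ W → x' ∈ W' → (∀ p ∈ L, p.1 ∈ W ∧ p.2 ∈ W') →
      ∀ p ∈ (x, x') :: L, p.1 ∈ W ∧ p.2 ∈ W' := fun L x x' hx hx' hL p hp => by
    rcases List.mem_cons.1 hp with rfl | hp
    · exact ⟨hx, hx'⟩
    · exact hL p hp
  induction n generalizing L with
  | zero => exact hA L h hL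
  | succ n ih =>
    have g : EF G (insert v B) r r' W W' n L := h.mono (Nat.le_succ n) (fun _ h => h)
    have g0 : EF G B r r' (insert v W) (insert v W') n ((v, v) :: (v, v) :: L) :=
      (ih g hL).mono le_rfl (by
        intro z hz
        rcases List.mem_cons.1 hz with rfl | hz
        · exact List.mem_cons_self
        · exact hz)
    have hperm : ∀ z w : V × V, (z :: w :: L) ⊆ (w :: z :: L) := fun z w p hp => by
      simp only [List.mem_cons] at hp ⊢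
      tauto
    refine ⟨hA L h.1 hL, ?_, ?_⟩
    · rintro x (rfl | hx)
      · exact ⟨x, Set.mem_insert x W', g0⟩
      · obtain ⟨x', hx', h'⟩ := h.2.1 x hx
        exact ⟨x', Set.mem_insert_of_mem v hx', (ih h' (hc L x x' hx hx' hL)).mono le_rfl
          (hperm _ _)⟩
    · rintro x' (rfl | hx')
      · exact ⟨x', Set.mem_insert x' W, g0⟩
      · obtain ⟨x, hx, h'⟩ := h.2.2 x' hx'
        exact ⟨x, Set.mem_insert_of_mem v hx, (ih h' (hc L x x' hx hx' hL)).mono le_rfl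
          (hperm _ _)⟩

end Pool.MP_33c730_lc
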