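import Pool.Agent.Lib.MP_33c730_lc.Notions

set_option autoImplicit false

namespace Pool.MP_33c730_lc

variable {C V : Type}

/-! ### Tree: facts on forest orders and the derived order -/
section
variable {G : SimpleGraph V} {le : V → V → Prop}

theorem sib_refl (c : V) : sib le c c := fun _ => Iff.rfl
theorem sib_symm {c c' : V} (h : sib le c c') : sib le c' c := fun a => (h a).symm
theorem sib_trans {a b c : V} (h : sib le a b) (h' : sib le b c) : sib le a c :=
  fun x => (h x).trans (h' x)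
/-- distinct siblings are incomparable. -/
theorem sib_incomp (hF : Forest G le) {c c' : V} (h : sib le c c') (hne : c ≠ c') :
    ¬ le c c' ∧ ¬ le c' c :=
  ⟨fun hl => ((h c).2 ⟨hl, hne⟩).2 rfl, fun hl => ((h c').1 ⟨hl, hne.symm⟩).2 rfl⟩

private theorem tree_sep (hF : Forest G le) {c c' z : V} (h : sib le c c') (hne : c ≠ c')
    (h1 : le c z) (h2 : le c' z) : False := by
  rcases hF.chain c c' z h1 h2 with h3 | h3
  · exact (sib_incomp hF h hne).1 h3
  · exact (sib_incomp hF h hne).2 h3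

/-- subtrees of distinct siblings are disjoint and not adjacent; their elements are incomparable. -/
theorem sib_sub (hF : Forest G le) {c c' x y : V} (h : sib le c c') (hne : c ≠ c') (hx : le c x)
    (hy : le c' y) : x ≠ y ∧ ¬ G.Adj x y ∧ ¬ le x y ∧ ¬ le y x := by
  have h1 : ¬ le x y := fun hl => tree_sep hF h hne (hF.trans _ _ _ hx hl) hy
  have h2 : ¬ le y x := fun hl => tree_sep hF h hne hx (hF.trans _ _ _ hy hl)
  refine ⟨?_, ?_, h1, h2⟩
  · rintro rfl
    exact h1 (hF.refl _)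
  · intro ha
    rcases hF.comp x y ha with h3 | h3
    · exact h1 h3
    · exact h2 h3

/-- the siblings separating two elements are unique. -/
theorem sib_unique (hF : Forest G le) {c c' d d' x y : V} (h : sib le c c') (hne : c ≠ c')
    (hx : le c x) (hy : le c' y) (h' : sib le d d') (hne' : d ≠ d') (hx' : le d x) (hy' : le d' y) :
    c = d ∧ c' = d' := by
  constructor
  · by_contra hcd
    rcases hF.chain c d x hx hx' with h1 | h1
    · exact tree_sep hF h hne (hF.trans _ _ _ ((h' c).1 ⟨h1, hcd⟩).1 hy') hy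
    · exact tree_sep hF h' hne' (hF.trans _ _ _ ((h d).1 ⟨h1, Ne.symm hcd⟩).1 hy) hy'
  · by_contra hcd
    rcases hF.chain c' d' y hy hy' with h1 | h1
    · exact tree_sep hF h hne hx (hF.trans _ _ _ ((h' c').2 ⟨h1, hcd⟩).1 hx')
    · exact tree_sep hF h' hne' hx' (hF.trans _ _ _ ((h d').2 ⟨h1, Ne.symm hcd⟩).1 hx)

private theorem tree_anc_lt [Finite V] (hF : Forest G le) {a b : V} (h : le a b) (hne : a ≠ b) :
    (anc le a).ncard < (anc le b).ncard := by
  refine Set.ncard_lt_ncard ?_ (Set.toFinite _)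
  refine ⟨fun w hw => ⟨hF.trans _ _ _ hw.1 h, ?_⟩, fun hs => (hs (a := a) ⟨h, hne⟩).2 rfl⟩
  rintro rfl
  exact hw.2 (hF.antisymm _ _ hw.1 h)

private theorem tree_least [Finite V] (hF : Forest G le) (S : Set V) (hS : S.Nonempty) :
    ∃ a ∈ S, ∀ w, le w a → w ≠ a → w ∉ S := by
  obtain ⟨a, ha, hmin⟩ := Set.exists_min_image S (fun a => (anc le a).ncard) (Set.toFinite _) hS
  exact ⟨a, ha, fun w hw hne hwS =>
    absurd (hmin w hwS) (not_le.2 (tree_anc_lt hF hw hne))⟩

private theorem tree_least_iff [Finite V] (hF : Forest G le) {x y : V} (h : ¬ le x y) :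
    ∃ c, le c x ∧ ¬ le c y ∧ ∀ a, (le a c ∧ a ≠ c) ↔ (le a x ∧ le a y) := by
  obtain ⟨c, hc, hmin⟩ := tree_least hF {w | le w x ∧ ¬ le w y} ⟨x, hF.refl x, h⟩
  refine ⟨c, hc.1, hc.2, fun a => ⟨fun ha => ?_, fun ha => ?_⟩⟩
  · have h1 : le a x := hF.trans _ _ _ ha.1 hc.1
    refine ⟨h1, ?_⟩
    by_contra h2
    exact hmin a ha.1 ha.2 ⟨h1, h2⟩
  · refine ⟨?_, ?_⟩
    · rcases hF.chain a c x ha.1 hc.1 with h1 | h1
      · exact h1
      · exact absurd (hF.trans _ _ _ h1 ha.2) hc.2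
    · rintro rfl
      exact hc.2 ha.2

/-- incomparable elements are separated by siblings. -/
theorem sib_exists [Finite V] (hF : Forest G le) {x y : V} (h : ¬ le x y) (h' : ¬ le y x) :
    ∃ c c', sib le c c' ∧ c ≠ c' ∧ le c x ∧ le c' y := by
  obtain ⟨c, h1, h2, h3⟩ := tree_least_iff hF h
  obtain ⟨c', h1', h2', h3'⟩ := tree_least_iff hF h'
  refine ⟨c, c', fun a => ?_, ?_, h1, h1'⟩
  · rw [h3 a, h3' a, and_comm]
  · rintro rfl
    exact h2 h1'

/-- neighbours of a subtree lie in the subtree or in `nb`. -/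
theorem adj_sub (hF : Forest G le) {c x y : V} (hx : le c x) (hxy : G.Adj x y) :
    le c y ∨ y ∈ nb G le c := by
  rcases hF.comp x y hxy with h | h
  · exact Or.inl (hF.trans _ _ _ hx h)
  · rcases hF.chain c y x hx h with h1 | h1
    · exact Or.inl h1
    · by_cases hyc : y = c
      · subst hyc
        exact Or.inl (hF.refl _)
      · exact Or.inr ⟨⟨h1, hyc⟩, x, hx, hxy.symm⟩

/-- siblings: `nbLt` is a strict linear order up to `nbEq`. -/
theorem nbLt_irrefl (c c' : V) (h : nbEq G le c c') : ¬ nbLt G le c c' := by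
  rintro ⟨a, ha, ha', -⟩
  exact ha' ((h a).1 ha)

theorem nbLt_asymm (hF : Forest G le) {c c' : V} (h : sib le c c') (h1 : nbLt G le c c') :
    ¬ nbLt G le c' c := by
  rintro ⟨b, hb, hb', hbb⟩
  obtain ⟨a, ha, ha', haa⟩ := h1
  have hab : a ≠ b := by
    rintro rfl
    exact hb' ha
  have h2 : le b c := ((h b).2 hb.1).1
  rcases hF.chain a b c ha.1.1 h2 with h3 | h3
  · exact ha' ((hbb a h3 hab).2 ha)
  · exact hb' ((haa b h3 hab.symm).2 hb)

theorem nbLt_trans (hF : Forest G le) {a b c : V} (h : sib le a b) (h' : sib le b c)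
    (h1 : nbLt G le a b) (h2 : nbLt G le b c) : nbLt G le a c := by
  obtain ⟨u, hu, hu', huu⟩ := h1
  obtain ⟨v, hv, hv', hvv⟩ := h2
  have huv : u ≠ v := by
    rintro rfl
    exact hu' hv
  have h3 : le v a := ((h v).2 hv.1).1
  rcases hF.chain u v a hu.1.1 h3 with h4 | h4
  · refine ⟨u, hu, fun h5 => hu' ((hvv u h4 huv).2 h5), fun w hw hwu => ?_⟩
    rw [huu w hw hwu]
    refine hvv w (hF.trans _ _ _ hw h4) ?_
    rintro rfl
    exact hwu (hF.antisymm _ _ hw h4)
  · refine ⟨v, (huu v h4 huv.symm).2 hv, hv', fun w hw hwv => ?_⟩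
    rw [← hvv w hw hwv]
    refine huu w (hF.trans _ _ _ hw h4) ?_
    rintro rfl
    exact hwv (hF.antisymm _ _ hw h4)

theorem nbLt_total [Finite V] (hF : Forest G le) {c c' : V} (h : sib le c c') :
    nbLt G le c c' ∨ nbEq G le c c' ∨ nbLt G le c' c := by
  by_cases he : nbEq G le c c'
  · exact Or.inr (Or.inl he)
  have hne : ({a | ¬ (a ∈ nb G le c ↔ a ∈ nb G le c')} : Set V).Nonempty := by
    by_contra hc
    rw [Set.not_nonempty_iff_eq_empty, Set.eq_empty_iff_forall_notMem] at hc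
    exact he fun a => not_not.1 (hc a)
  obtain ⟨a, ha, hmin⟩ := tree_least hF _ hne
  have hm : ∀ w, le w a → w ≠ a → (w ∈ nb G le c ↔ w ∈ nb G le c') := fun w h1 h2 =>
    not_not.1 (hmin w h1 h2)
  by_cases h1 : a ∈ nb G le c
  · refine Or.inl ⟨a, h1, fun h2 => ha ⟨fun _ => h2, fun _ => h1⟩, hm⟩
  · by_cases h2 : a ∈ nb G le c'
    · exact Or.inr (Or.inr ⟨a, h2, h1, fun w h3 h4 => (hm w h3 h4).symm⟩)
    · exact absurd ⟨fun h3 => absurd h3 h1, fun h3 => absurd h3 h2⟩ ha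

theorem nbLt_congr_left {a b c : V} (h : nbEq G le a b) (h1 : nbLt G le a c) :
    nbLt G le b c := by
  obtain ⟨u, hu, hu', huu⟩ := h1
  exact ⟨u, (h u).1 hu, hu', fun w h1 h2 => (h w).symm.trans (huu w h1 h2)⟩

theorem nbLt_congr_right {a b c : V} (h : nbEq G le b c) (h1 : nbLt G le a b) :
    nbLt G le a c := by
  obtain ⟨u, hu, hu', huu⟩ := h1
  exact ⟨u, hu, fun h2 => hu' ((h u).2 h2), fun w h1 h2 => (huu w h1 h2).trans (h w)⟩

variable {k1 k2 : V → ℕ}

private theorem tree_slt_irrefl (c : V) : ¬ slt G le k1 k2 c c := by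
  rintro (h | ⟨-, h | ⟨-, h⟩⟩)
  · exact nbLt_irrefl c c (fun _ => Iff.rfl) h
  · exact lt_irrefl _ h
  · exact lt_irrefl _ h

/-- the derived order between subtrees of siblings. -/
theorem dlt_sib (hF : Forest G le) {c c' x y : V} (h : sib le c c') (hs : slt G le k1 k2 c c')
    (hns : ¬ slt G le k1 k2 c' c) (hx : le c x) (hy : le c' y) :
    dlt G le k1 k2 x y ∧ ¬ dlt G le k1 k2 y x := by
  have hne : c ≠ c' := by
    rintro rfl
    exact hns hs
  refine ⟨Or.inr ⟨c, c', h, hx, hy, hs⟩, ?_⟩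
  rintro (h1 | ⟨d, d', hd, hdy, hdx, hds⟩)
  · exact (sib_sub hF h hne hx hy).2.2.2 h1.1
  · have hdd : d ≠ d' := by
      rintro rfl
      exact tree_slt_irrefl _ hds
    obtain ⟨h1, h2⟩ := sib_unique hF (sib_symm h) hne.symm hy hx hd hdd hdy hdx
    subst h1 h2
    exact hns hds

theorem dlt_anc (hF : Forest G le) {c x : V} (hx : le c x) (hne : x ≠ c) :
    dlt G le k1 k2 c x ∧ ¬ dlt G le k1 k2 x c := by
  refine ⟨Or.inl ⟨hx, hne.symm⟩, ?_⟩
  rintro (h1 | ⟨d, d', hd, hdy, hdx, hds⟩)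
  · exact hne (hF.antisymm _ _ h1.1 hx)
  · have hdd : d ≠ d' := by
      rintro rfl
      exact tree_slt_irrefl _ hds
    exact (sib_sub hF hd hdd hdy hdx).2.2.2 hx

theorem dlt_irrefl (hF : Forest G le) (x : V) : ¬ dlt G le k1 k2 x x := by
  rintro (h1 | ⟨d, d', hd, hdy, hdx, hds⟩)
  · exact h1.2 rfl
  · have hdd : d ≠ d' := by
      rintro rfl
      exact tree_slt_irrefl _ hds
    exact (sib_sub hF hd hdd hdy hdx).1 rfl
end

end Pool.MP_33c730_lc
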