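import Pool.Agent.Lib.MP_33c730_lc.FinIndex
import Pool.Agent.Lib.MP_33c730_lc.EFAlg
import Pool.Agent.Lib.MP_33c730_lc.Tree

set_option autoImplicit false

namespace Pool.MP_33c730_lc

/-! ### Complete: legitimate labels exist in hub-free graphs -/

section CompleteAux

variable {C V : Type} {G : SimpleGraph V} {le : V → V → Prop}

/-- the depth -/
noncomputable def completeDep (le : V → V → Prop) (c : V) : ℕ := (anc le c).ncard

theorem complete_sib_anc {c c' : V} (h : sib le c c') : anc le c = anc le c' := by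
  ext a
  exact h a

theorem completeDep_sib {c c' : V} (h : sib le c c') : completeDep le c = completeDep le c' := by
  unfold completeDep
  rw [complete_sib_anc h]

theorem completeDep_lt [Finite V] (hF : Forest G le) {c x : V} (h : le c x) (hne : x ≠ c) :
    completeDep le c < completeDep le x := by
  unfold completeDep
  apply Set.ncard_lt_ncard
  · rw [Set.ssubset_iff_of_subset]
    · exact ⟨c, ⟨h, fun e => hne e.symm⟩, fun hc => hc.2 rfl⟩
    · rintro a ⟨ha, hac⟩
      refine ⟨hF.trans _ _ _ ha h, ?_⟩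
      rintro rfl
      exact hac (hF.antisymm _ _ ha h)
  · exact Set.toFinite _

theorem complete_nbEq_refl (c : V) : nbEq G le c c := fun _ => Iff.rfl

theorem complete_nbEq_symm {c c' : V} (h : nbEq G le c c') : nbEq G le c' c := fun a => (h a).symm

theorem complete_nbEq_trans {a b c : V} (h : nbEq G le a b) (h' : nbEq G le b c) :
    nbEq G le a c := fun x => (h x).trans (h' x)

theorem complete_dlt_local_imp [Finite V] (hF : Forest G le) {k1 k2 k1' k2' : V → ℕ} (c : V)
    (h1 : ∀ v, completeDep le c < completeDep le v → k1 v = k1' v)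
    (h2 : ∀ v, completeDep le c < completeDep le v → k2 v = k2' v) {x y : V}
    (hx : le c x) (hy : le c y) (h : dlt G le k1 k2 x y) : dlt G le k1' k2' x y := by
  rcases h with h | ⟨d, d', hs, hdx, hdy, hslt⟩
  · exact Or.inl h
  · have hne : d ≠ d' := by
      rintro rfl
      rcases hslt with h | ⟨-, h | ⟨-, h⟩⟩
      · exact nbLt_irrefl d d (complete_nbEq_refl d) h
      · exact lt_irrefl _ h
      · exact lt_irrefl _ h
    have hinc := sib_incomp hF hs hne
    have hdc : ¬ le d c := by
      intro hdc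
      have hdy' : le d y := hF.trans _ _ _ hdc hy
      rcases hF.chain d d' y hdy' hdy with h | h
      · exact hinc.1 h
      · exact hinc.2 h
    have hcd : le c d := by
      rcases hF.chain d c x hdx hx with h | h
      · exact absurd h hdc
      · exact h
    have hdne : d ≠ c := by
      rintro rfl
      exact hdc (hF.refl _)
    have hlt := completeDep_lt hF hcd hdne
    have hlt' : completeDep le c < completeDep le d' := by rwa [← completeDep_sib hs]
    refine Or.inr ⟨d, d', hs, hdx, hdy, ?_⟩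
    unfold slt at hslt ⊢
    rw [← h1 d hlt, ← h1 d' hlt', ← h2 d hlt, ← h2 d' hlt']
    exact hslt

theorem complete_dlt_local [Finite V] (hF : Forest G le) {k1 k2 k1' k2' : V → ℕ} (c : V)
    (h1 : ∀ v, completeDep le c < completeDep le v → k1 v = k1' v)
    (h2 : ∀ v, completeDep le c < completeDep le v → k2 v = k2' v) {x y : V}
    (hx : le c x) (hy : le c y) : dlt G le k1 k2 x y ↔ dlt G le k1' k2' x y :=
  ⟨complete_dlt_local_imp hF c h1 h2 hx hy,
    complete_dlt_local_imp hF c (fun v hv => (h1 v hv).symm) (fun v hv => (h2 v hv).symm) hx hy⟩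

theorem complete_kp_local [Finite V] (hF : Forest G le) {K K' : Set V} (c : V)
    (h : ∀ v, completeDep le c < completeDep le v → (v ∈ K ↔ v ∈ K')) :
    kp le K c = kp le K' c := by
  ext x
  unfold kp
  constructor
  · rintro ⟨h1, h2⟩
    exact ⟨h1, fun w hw hne hwx => (h w (completeDep_lt hF hw hne)).1 (h2 w hw hne hwx)⟩
  · rintro ⟨h1, h2⟩
    exact ⟨h1, fun w hw hne hwx => (h w (completeDep_lt hF hw hne)).2 (h2 w hw hne hwx)⟩

/-- selection of at most `M` elements of a finite set -/
theorem complete_select [DecidableEq V] (M : ℕ) (Q : Finset V) : ∃ (S : Finset V) (k : V → ℕ), S ⊆ Q ∧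
    (∀ v, k v < M + 1) ∧ (∀ x ∈ S, ∀ y ∈ S, x ≠ y → k x ≠ k y) ∧
    (∀ c ∈ Q, c ∉ S → ∃ f : Fin M → V, Function.Injective f ∧ ∀ i, f i ∈ S) := by
  obtain ⟨S, hS, hcard⟩ := Finset.exists_subset_card_eq (min_le_left Q.card M)
  let e := S.equivFin
  refine ⟨S, fun v => if h : v ∈ S then (e ⟨v, h⟩).val else 0, hS, ?_, ?_, ?_⟩
  · intro v
    dsimp only
    split_ifs with h
    · have h1 := (e ⟨v, h⟩).2
      have h2 : S.card ≤ M := hcard ▸ min_le_right _ _
      omega
    · omega
  · intro x hx y hy hne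
    dsimp only
    rw [dif_pos hx, dif_pos hy]
    intro h
    have h1 := e.injective (Fin.ext h)
    exact hne (congrArg Subtype.val h1)
  · intro c hc hcS
    have h1 : S.card < Q.card := Finset.card_lt_card
      ((Finset.ssubset_iff_of_subset hS).2 ⟨c, hc, hcS⟩)
    have h2 : S.card = M := by
      rw [hcard] at h1 ⊢
      rw [min_lt_iff] at h1
      omega
    refine ⟨fun i => (e.symm (Fin.cast h2.symm i)).1, ?_, fun i => (e.symm _).2⟩
    intro i j hij
    have h3 := e.symm.injective (Subtype.ext hij)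
    exact Fin.ext (by simpa using congrArg Fin.val h3)

end CompleteAux

/-- subtrees of a normal tree are connected. -/
theorem sub_connected {V : Type} [Finite V] {G : SimpleGraph V} {le : V → V → Prop}
    (hN : Normal G le) (c : V) : (G.induce (sub le c)).Connected := by
  have hF := hN.toForest
  rw [SimpleGraph.connected_iff_exists_forall_reachable]
  refine ⟨⟨c, hF.refl c⟩, ?_⟩
  have key : ∀ n : ℕ, ∀ x (hx : le c x), completeDep le x = n →
      (G.induce (sub le c)).Reachable ⟨c, hF.refl c⟩ ⟨x, hx⟩ := by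
    intro n
    induction n using Nat.strong_induction_on with
    | _ n ih =>
      intro x hx hn
      by_cases hxc : x = c
      · subst hxc
        exact SimpleGraph.Reachable.refl _
      · obtain ⟨p, hpx, hne, hadj, hmax⟩ := hN.parent x c hx (fun h => hxc h.symm)
        have hcp : le c p := hmax c hx (fun h => hxc h.symm)
        have h1 := ih (completeDep le p) (by
          rw [← hn]
          exact completeDep_lt hF hpx (fun h => hne h.symm)) p hcp rfl
        refine h1.trans (SimpleGraph.Adj.reachable ?_)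
        rw [SimpleGraph.comap_adj]
        exact hadj.symm
  rintro ⟨x, hx⟩
  exact key _ x hx rfl

/-- few siblings with the same large set of attachments. -/
theorem few_heavy {V : Type} [Finite V] {G : SimpleGraph V} {le : V → V → Prop} {h : ℕ}
    (hN : Normal G le) (hH : HubFree h G) (c : V) (hc : h ≤ (nb G le c).ncard) (F : Finset V)
    (hF : ∀ x ∈ F, sib le c x ∧ nbEq G le c x) : F.card < h := by
  by_contra hcon
  push Not at hcon
  apply hH
  have hFo := hN.toForest
  have hfin : (nb G le c).Finite := Set.toFinite _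
  rw [Set.ncard_eq_toFinset_card _ hfin] at hc
  obtain ⟨S, hS, hScard⟩ := Finset.exists_subset_card_eq hc
  obtain ⟨S', hS', hScard'⟩ := Finset.exists_subset_card_eq hcon
  let a : Fin h → V := fun i => (S.equivFin.symm (Fin.cast hScard.symm i)).1
  let g : Fin h → V := fun i => (S'.equivFin.symm (Fin.cast hScard'.symm i)).1
  have ha : ∀ i, a i ∈ nb G le c := fun i => by
    have := hS (S.equivFin.symm (Fin.cast hScard.symm i)).2
    rwa [Set.Finite.mem_toFinset] at this
  have hg : ∀ i, sib le c (g i) ∧ nbEq G le c (g i) := fun i =>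
    hF _ (hS' (S'.equivFin.symm (Fin.cast hScard'.symm i)).2)
  have hainj : Function.Injective a := by
    intro i j hij
    have h3 := S.equivFin.symm.injective (Subtype.ext hij)
    exact Fin.ext (by simpa using congrArg Fin.val h3)
  have hginj : Function.Injective g := by
    intro i j hij
    have h3 := S'.equivFin.symm.injective (Subtype.ext hij)
    exact Fin.ext (by simpa using congrArg Fin.val h3)
  refine ⟨a, fun j => sub le (g j), hainj, fun j => sub_connected hN _, ?_, ?_, ?_⟩
  · intro i j hij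
    rw [Set.disjoint_left]
    intro x hx hx'
    exact (sib_sub hFo (sib_trans (sib_symm (hg i).1) (hg j).1) (fun h => hij (hginj h)) hx
      hx').1 rfl
  · intro i j hmem
    have h1 : le (a i) c ∧ a i ≠ c := (ha i).1
    have h2 := ((hg j).1 (a i)).1 h1
    exact h2.2 (hFo.antisymm _ _ h2.1 hmem)
  · intro i j
    have h1 := ((hg j).2 (a i)).1 (ha i)
    obtain ⟨x, hx, hadj⟩ := h1.2
    exact ⟨x, hx, hadj⟩

section CompleteMain

variable {C V : Type} [Finite V]

/-- class numbers for one class -/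
theorem complete_cls {q h N : ℕ} {G : CG C V} {le : V → V → Prop}
    (hN : Normal G.gr le) (hH : HubFree h G.gr)
    (hfi : ∀ (A : Finset V) (B : Set V), A.card < h → ∀ (ι : Type) (W : ι → Set V)
      (r : ι → V → V → Prop), (∀ i, ∀ x ∈ W i, ∀ b ∈ B, G.gr.Adj x b → b ∈ A) →
      ∃ f : ι → Fin N, ∀ i j, f i = f j → EF G B (r i) (r j) (W i) (W j) q [])
    (K : Set V) (k1 k2 : V → ℕ) (c : V) : ∃ F : V → ℕ, (∀ a, F a < N + h + 1) ∧
      ∀ a b, (sib le c a ∧ nbEq G.gr le c a) → (sib le c b ∧ nbEq G.gr le c b) → F a = F b →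
        EF G (anc le c) (dlt G.gr le k1 k2) (dlt G.gr le k1 k2) (kp le K a) (kp le K b) q [] := by
  classical
  have := Fintype.ofFinite V
  by_cases hc : (nb G.gr le c).ncard < h
  · have hfin : (nb G.gr le c).Finite := Set.toFinite _
    rw [Set.ncard_eq_toFinset_card _ hfin] at hc
    obtain ⟨f, hf⟩ := hfi hfin.toFinset (anc le c) hc
      {x // sib le c x ∧ nbEq G.gr le c x} (fun i => kp le K i.1)
      (fun _ => dlt G.gr le k1 k2) (by
        rintro ⟨i, hi1, hi2⟩ x hx b hb hadj
        rw [Set.Finite.mem_toFinset]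
        apply (hi2 b).2
        refine ⟨(hi1 b).1 hb, x, hx.1, hadj.symm⟩)
    refine ⟨fun a => if ha : sib le c a ∧ nbEq G.gr le c a then (f ⟨a, ha⟩).val else 0, ?_, ?_⟩
    · intro a
      dsimp only
      split_ifs with ha
      · have := (f ⟨a, ha⟩).2
        omega
      · omega
    · intro a b ha hb hab
      dsimp only at hab
      rw [dif_pos ha, dif_pos hb] at hab
      exact hf ⟨a, ha⟩ ⟨b, hb⟩ (Fin.ext hab)
  · push Not at hc
    let Q : Finset V := Finset.univ.filter fun x => sib le c x ∧ nbEq G.gr le c x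
    have hQ : Q.card < h := few_heavy hN hH c hc Q (fun x hx => (Finset.mem_filter.mp hx).2)
    refine ⟨fun a => if ha : a ∈ Q then (Q.equivFin ⟨a, ha⟩).val else 0, ?_, ?_⟩
    · intro a
      dsimp only
      split_ifs with ha
      · have := (Q.equivFin ⟨a, ha⟩).2
        omega
      · omega
    · intro a b ha hb hab
      dsimp only at hab
      have ha' : a ∈ Q := Finset.mem_filter.mpr ⟨Finset.mem_univ _, ha⟩
      have hb' : b ∈ Q := Finset.mem_filter.mpr ⟨Finset.mem_univ _, hb⟩
      rw [dif_pos ha', dif_pos hb'] at hab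
      have h1 := Q.equivFin.injective (Fin.ext hab)
      have h2 : a = b := congrArg Subtype.val h1
      subst h2
      exact EF.refl G _ _ _ q [] (by simp)

/-- legitimacy from depth `d` on -/
structure CompleteLegit (G : CG C V) (le : V → V → Prop) (K : Set V) (k1 k2 : V → ℕ) (q d : ℕ) :
    Prop where
  inj : ∀ c ∈ K, ∀ c' ∈ K, d ≤ completeDep le c → c ≠ c' → sib le c c' → nbEq G.gr le c c' →
    k1 c = k1 c' → k2 c ≠ k2 c'
  same : ∀ c c', d ≤ completeDep le c → sib le c c' → nbEq G.gr le c c' → k1 c = k1 c' →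
    EF G (anc le c) (dlt G.gr le k1 k2) (dlt G.gr le k1 k2) (kp le K c) (kp le K c') q []
  drop : ∀ c, c ∉ K → d ≤ completeDep le c → ∃ f : Fin (2 ^ q) → V, Function.Injective f ∧
    ∀ i, f i ∈ K ∧ sib le c (f i) ∧ nbEq G.gr le c (f i) ∧ k1 c = k1 (f i)

theorem complete_step {q h N : ℕ} {G : CG C V} {le : V → V → Prop}
    (hN : Normal G.gr le) (hH : HubFree h G.gr)
    (hfi : ∀ (A : Finset V) (B : Set V), A.card < h → ∀ (ι : Type) (W : ι → Set V)
      (r : ι → V → V → Prop), (∀ i, ∀ x ∈ W i, ∀ b ∈ B, G.gr.Adj x b → b ∈ A) →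
      ∃ f : ι → Fin N, ∀ i j, f i = f j → EF G B (r i) (r j) (W i) (W j) q [])
    (b : ℕ) (hb1 : N + h + 1 ≤ b) (hb2 : 2 ^ q + 1 ≤ b) (d : ℕ)
    (hP : ∃ (K : Set V) (k1 k2 : V → ℕ), CompleteLegit G le K k1 k2 q (d + 1) ∧
      (∀ v, k1 v < b) ∧ ∀ v, k2 v < b) :
    ∃ (K : Set V) (k1 k2 : V → ℕ), CompleteLegit G le K k1 k2 q d ∧
      (∀ v, k1 v < b) ∧ ∀ v, k2 v < b := by
  classical
  have := Fintype.ofFinite V
  have hF := hN.toForest
  obtain ⟨K, k1, k2, hL, hk1, hk2⟩ := hP
  -- classes
  let s : Setoid V :=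
    ⟨fun a c => sib le a c ∧ nbEq G.gr le a c, fun a => ⟨sib_refl a, complete_nbEq_refl a⟩,
      fun h => ⟨sib_symm h.1, complete_nbEq_symm h.2⟩,
      fun h h' => ⟨sib_trans h.1 h'.1, complete_nbEq_trans h.2 h'.2⟩⟩
  let rep : V → V := fun v => (Quotient.mk s v).out
  have hrep : ∀ v, sib le (rep v) v ∧ nbEq G.gr le (rep v) v := fun v =>
    Quotient.exact (Quotient.out_eq (Quotient.mk s v))
  have hrepeq : ∀ u v, sib le u v → nbEq G.gr le u v → rep u = rep v := fun u v h1 h2 => by
    have : Quotient.mk s u = Quotient.mk s v := Quotient.sound ⟨h1, h2⟩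
    change (Quotient.mk s u).out = (Quotient.mk s v).out
    rw [this]
  choose F hF1 hF2 using fun c => complete_cls hN hH hfi K k1 k2 c
  let n1 : V → ℕ := fun v => F (rep v) v
  -- second classes
  let s2 : Setoid V :=
    ⟨fun a c => sib le a c ∧ nbEq G.gr le a c ∧ n1 a = n1 c,
      fun a => ⟨sib_refl a, complete_nbEq_refl a, rfl⟩,
      fun h => ⟨sib_symm h.1, complete_nbEq_symm h.2.1, h.2.2.symm⟩,
      fun h h' => ⟨sib_trans h.1 h'.1, complete_nbEq_trans h.2.1 h'.2.1, h.2.2.trans h'.2.2⟩⟩
  let rep2 : V → V := fun v => (Quotient.mk s2 v).out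
  have hrep2 : ∀ v, sib le (rep2 v) v ∧ nbEq G.gr le (rep2 v) v ∧ n1 (rep2 v) = n1 v := fun v =>
    Quotient.exact (Quotient.out_eq (Quotient.mk s2 v))
  have hrep2eq : ∀ u v, sib le u v → nbEq G.gr le u v → n1 u = n1 v → rep2 u = rep2 v :=
    fun u v h1 h2 h3 => by
      have : Quotient.mk s2 u = Quotient.mk s2 v := Quotient.sound ⟨h1, h2, h3⟩
      change (Quotient.mk s2 u).out = (Quotient.mk s2 v).out
      rw [this]
  let Q : V → Finset V := fun c =>
    Finset.univ.filter fun x => sib le c x ∧ nbEq G.gr le c x ∧ n1 c = n1 x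
  choose S k hS1 hS2 hS3 hS4 using fun c => complete_select (2 ^ q) (Q c)
  let K' : Set V := {v | (completeDep le v ≠ d ∧ v ∈ K) ∨ (completeDep le v = d ∧ v ∈ S (rep2 v))}
  let k1' : V → ℕ := fun v => if completeDep le v = d then n1 v else k1 v
  let k2' : V → ℕ := fun v => if completeDep le v = d then k (rep2 v) v else k2 v
  have eK : ∀ v, completeDep le v ≠ d → (v ∈ K ↔ v ∈ K') := fun v hv => by
    change v ∈ K ↔ (completeDep le v ≠ d ∧ v ∈ K) ∨ (completeDep le v = d ∧ v ∈ S (rep2 v))
    tauto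
  have eK' : ∀ v, completeDep le v = d → (v ∈ K' ↔ v ∈ S (rep2 v)) := fun v hv => by
    change (completeDep le v ≠ d ∧ v ∈ K) ∨ (completeDep le v = d ∧ v ∈ S (rep2 v)) ↔ _
    tauto
  have e1 : ∀ v, completeDep le v ≠ d → k1 v = k1' v := fun v hv => (if_neg hv).symm
  have e2 : ∀ v, completeDep le v ≠ d → k2 v = k2' v := fun v hv => (if_neg hv).symm
  have f1 : ∀ v, completeDep le v = d → k1' v = n1 v := fun v hv => if_pos hv
  have f2 : ∀ v, completeDep le v = d → k2' v = k (rep2 v) v := fun v hv => if_pos hv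
  -- transfer of EF
  have tr : ∀ (c c' : V), d ≤ completeDep le c → sib le c c' →
      EF G (anc le c) (dlt G.gr le k1 k2) (dlt G.gr le k1 k2) (kp le K c) (kp le K c') q [] →
      EF G (anc le c) (dlt G.gr le k1' k2') (dlt G.gr le k1' k2') (kp le K' c) (kp le K' c')
        q [] := by
    intro c c' hd hs hE
    have hd' : d ≤ completeDep le c' := by rwa [← completeDep_sib hs]
    have g1 : ∀ v, completeDep le c < completeDep le v → completeDep le v ≠ d := fun v hv => by
      omega
    have g1' : ∀ v, completeDep le c' < completeDep le v → completeDep le v ≠ d := fun v hv => by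
      omega
    rw [← complete_kp_local hF c (fun v hv => eK v (g1 v hv)),
      ← complete_kp_local hF c' (fun v hv => eK v (g1' v hv))]
    refine EF.congr hE (by simp) ?_ ?_
    · intro x hx y hy
      exact complete_dlt_local hF c (fun v hv => e1 v (g1 v hv)) (fun v hv => e2 v (g1 v hv))
        hx.1 hy.1
    · intro x hx y hy
      exact complete_dlt_local hF c' (fun v hv => e1 v (g1' v hv)) (fun v hv => e2 v (g1' v hv))
        hx.1 hy.1
  refine ⟨K', k1', k2', ⟨?_, ?_, ?_⟩, ?_, ?_⟩
  · intro c hc c' hc' hd hne hs hnb hk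
    by_cases hdc : completeDep le c = d
    · have hdc' : completeDep le c' = d := by rwa [← completeDep_sib hs]
      rw [f1 c hdc, f1 c' hdc'] at hk
      rw [f2 c hdc, f2 c' hdc', hrep2eq c c' hs hnb hk]
      rw [eK' c hdc, hrep2eq c c' hs hnb hk] at hc
      rw [eK' c' hdc'] at hc'
      exact hS3 _ c hc c' hc' hne
    · have hdc' : completeDep le c' ≠ d := by rwa [← completeDep_sib hs]
      rw [← e1 c hdc, ← e1 c' hdc'] at hk
      rw [← e2 c hdc, ← e2 c' hdc']
      exact hL.inj c ((eK c hdc).2 hc) c' ((eK c' hdc').2 hc') (by omega) hne hs hnb hk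
  · intro c c' hd hs hnb hk
    apply tr c c' hd hs
    by_cases hdc : completeDep le c = d
    · have hdc' : completeDep le c' = d := by rwa [← completeDep_sib hs]
      rw [f1 c hdc, f1 c' hdc'] at hk
      have hr := hrepeq c c' hs hnb
      have h1 : F (rep c) c = F (rep c) c' := by
        change F (rep c) c = F (rep c') c' at hk
        rwa [← hr] at hk
      have h2 := hF2 (rep c) c c' (hrep c) (by rw [hr]; exact hrep c') h1
      rwa [complete_sib_anc (hrep c).1] at h2
    · have hdc' : completeDep le c' ≠ d := by rwa [← completeDep_sib hs]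
      rw [← e1 c hdc, ← e1 c' hdc'] at hk
      exact hL.same c c' (by omega) hs hnb hk
  · intro c hc hd
    by_cases hdc : completeDep le c = d
    · rw [eK' c hdc] at hc
      have hcQ : c ∈ Q (rep2 c) := Finset.mem_filter.mpr ⟨Finset.mem_univ _, hrep2 c⟩
      obtain ⟨f, hfinj, hf⟩ := hS4 (rep2 c) c hcQ hc
      refine ⟨f, hfinj, fun i => ?_⟩
      have h1 := (Finset.mem_filter.mp (hS1 _ (hf i))).2
      have h2 : sib le c (f i) := sib_trans (sib_symm (hrep2 c).1) h1.1
      have h3 : nbEq G.gr le c (f i) := complete_nbEq_trans (complete_nbEq_symm (hrep2 c).2.1) h1.2.1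
      have h4 : n1 c = n1 (f i) := (hrep2 c).2.2.symm.trans h1.2.2
      have h5 : completeDep le (f i) = d := by rwa [← completeDep_sib h2]
      refine ⟨?_, h2, h3, ?_⟩
      · rw [eK' _ h5, ← hrep2eq c (f i) h2 h3 h4]
        exact hf i
      · rw [f1 c hdc, f1 _ h5, h4]
    · have hc' : c ∉ K := fun h => hc ((eK c hdc).1 h)
      obtain ⟨f, hfinj, hf⟩ := hL.drop c hc' (by omega)
      refine ⟨f, hfinj, fun i => ?_⟩
      obtain ⟨a1, a2, a3, a4⟩ := hf i
      have h5 : completeDep le (f i) ≠ d := by rwa [← completeDep_sib a2]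
      exact ⟨(eK _ h5).1 a1, a2, a3, by rw [← e1 c hdc, ← e1 _ h5, a4]⟩
  · intro v
    change (if completeDep le v = d then n1 v else k1 v) < b
    split_ifs
    · exact lt_of_lt_of_le (hF1 _ _) hb1
    · exact hk1 v
  · intro v
    change (if completeDep le v = d then k (rep2 v) v else k2 v) < b
    split_ifs
    · exact lt_of_lt_of_le (hS2 _ _) hb2
    · exact hk2 v

end CompleteMain

theorem complete (C : Type) [Finite C] (q h : ℕ) : ∃ b : ℕ, ∀ (V : Type) [Finite V] (G : CG C V)
    (le : V → V → Prop), Normal G.gr le → HubFree h G.gr →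
    ∃ (K : Set V) (k1 k2 : V → ℕ), Legit G le K k1 k2 q ∧ (∀ v, k1 v < b) ∧ ∀ v, k2 v < b := by
  obtain ⟨N, hN'⟩ := fin_index C q h
  refine ⟨N + h + 1 + (2 ^ q + 1), ?_⟩
  intro V _ G le hN hH
  have hfi := fun (A : Finset V) (B : Set V) => hN' V G A B
  have key : ∀ j : ℕ, ∃ (K : Set V) (k1 k2 : V → ℕ),
      CompleteLegit G le K k1 k2 q (Nat.card V + 1 - j) ∧
      (∀ v, k1 v < N + h + 1 + (2 ^ q + 1)) ∧ ∀ v, k2 v < N + h + 1 + (2 ^ q + 1) := by
    intro j
    induction j with
    | zero =>
      have hbig : ∀ c, ¬ (Nat.card V + 1 - 0 ≤ completeDep le c) := by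
        intro c hc
        have : completeDep le c ≤ Nat.card V := Set.ncard_le_card _
        omega
      exact ⟨∅, fun _ => 0, fun _ => 0, ⟨fun c _ c' _ h => absurd h (hbig c),
        fun c c' h => absurd h (hbig c), fun c _ h => absurd h (hbig c)⟩,
        fun v => by positivity, fun v => by positivity⟩
    | succ j ih =>
      by_cases hj : Nat.card V + 1 - j = 0
      · have : Nat.card V + 1 - (j + 1) = Nat.card V + 1 - j := by omega
        rw [this]
        exact ih
      · obtain ⟨d, hd⟩ := Nat.exists_eq_succ_of_ne_zero hj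
        have h2 : Nat.card V + 1 - (j + 1) = d := by omega
        rw [h2]
        rw [hd] at ih
        exact complete_step hN hH hfi _ (Nat.le_add_right _ _) (Nat.le_add_left _ _) d ih
  obtain ⟨K, k1, k2, hL, h1, h2⟩ := key (Nat.card V + 1)
  rw [Nat.sub_self] at hL
  exact ⟨K, k1, k2, ⟨fun c hc c' hc' => hL.inj c hc c' hc' (Nat.zero_le _),
    fun c c' => hL.same c c' (Nat.zero_le _), fun c hc => hL.drop c hc (Nat.zero_le _)⟩, h1, h2⟩

end Pool.MP_33c730_lc
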