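import Pool.Agent.Lib.MP_33c730_lc.CodeDefs

set_option autoImplicit false

namespace Pool.MP_33c730_lc

/-! ### DefApi: MSO definable relations and their closure properties -/
/-- `R` is definable by an MSO formula, uniformly in all coloured graphs. -/
def Def (C α β : Type) (R : ∀ {V : Type}, CG C V → (α → V) → (β → Set V) → Prop) : Prop :=
  ∃ φ : MSO C α β, ∀ (V : Type) (G : CG C V) (v : α → V) (S : β → Set V),
    φ.Sat G v S ↔ R G v S

/-- renaming of the free variables -/
def MSO.ren {C : Type} : {α β α' β' : Type} → (α → α') → (β → β') → MSO C α β → MSO C α' β'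
  | _, _, _, _, f, _, .eq i j => .eq (f i) (f j)
  | _, _, _, _, f, _, .adj i j => .adj (f i) (f j)
  | _, _, _, _, f, _, .col c i => .col c (f i)
  | _, _, _, _, f, g, .mem i X => .mem (f i) (g X)
  | _, _, _, _, f, g, .neg φ => .neg (MSO.ren f g φ)
  | _, _, _, _, f, g, .and φ ψ => .and (MSO.ren f g φ) (MSO.ren f g ψ)
  | _, _, _, _, f, g, .ex φ => .ex (MSO.ren (Option.map f) g φ)
  | _, _, _, _, f, g, .exS φ => .exS (MSO.ren f (Option.map g) φ)

private theorem DefApi_ext {α α' X : Type} (x : X) (f : α → α') (v : α' → X) :
    (fun i => ext x v (Option.map f i)) = ext x (fun i => v (f i)) := by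
  funext i
  cases i <;> rfl

theorem MSO.sat_ren {C V : Type} (G : CG C V) {α β α' β' : Type} (f : α → α') (g : β → β')
    (φ : MSO C α β) (v : α' → V) (S : β' → Set V) :
    (MSO.ren f g φ).Sat G v S ↔ φ.Sat G (fun i => v (f i)) (fun X => S (g X)) := by
  induction φ generalizing α' β' with
  | eq i j => exact Iff.rfl
  | adj i j => exact Iff.rfl
  | col c i => exact Iff.rfl
  | mem i X => exact Iff.rfl
  | neg φ ih => exact not_congr (ih f g v S)
  | and φ ψ ih1 ih2 => exact and_congr (ih1 f g v S) (ih2 f g v S)
  | ex φ ih =>
    refine exists_congr fun x => ?_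
    rw [ih (Option.map f) g (ext x v) S, DefApi_ext]
  | exS φ ih =>
    refine exists_congr fun X => ?_
    rw [ih f (Option.map g) v (ext X S), DefApi_ext]

section
variable {C α β : Type}

theorem Def.congr {R R' : ∀ {V : Type}, CG C V → (α → V) → (β → Set V) → Prop}
    (h : Def C α β R) (hR : ∀ {V : Type} (G : CG C V) (v : α → V) (S : β → Set V),
      R G v S ↔ R' G v S) : Def C α β R' := by
  obtain ⟨φ, hφ⟩ := h
  exact ⟨φ, fun V G v S => (hφ V G v S).trans (hR G v S)⟩

theorem Def.rename {α' β' : Type} {R : ∀ {V : Type}, CG C V → (α → V) → (β → Set V) → Prop}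
    (h : Def C α β R) (f : α → α') (g : β → β') :
    Def C α' β' fun G v S => R G (fun i => v (f i)) (fun X => S (g X)) := by
  obtain ⟨φ, hφ⟩ := h
  exact ⟨MSO.ren f g φ, fun V G v S => (MSO.sat_ren G f g φ v S).trans (hφ V G _ _)⟩

theorem Def.eq (i j : α) : Def C α β fun _ v _ => v i = v j :=
  ⟨.eq i j, fun _ _ _ _ => Iff.rfl⟩

theorem Def.adj (i j : α) : Def C α β fun G v _ => G.gr.Adj (v i) (v j) :=
  ⟨.adj i j, fun _ _ _ _ => Iff.rfl⟩

theorem Def.col (c : C) (i : α) : Def C α β fun G v _ => G.col c (v i) :=
  ⟨.col c i, fun _ _ _ _ => Iff.rfl⟩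

theorem Def.mem (i : α) (X : β) : Def C α β fun _ v S => v i ∈ S X :=
  ⟨.mem i X, fun _ _ _ _ => Iff.rfl⟩

theorem Def.not {R : ∀ {V : Type}, CG C V → (α → V) → (β → Set V) → Prop} (h : Def C α β R) :
    Def C α β fun G v S => ¬ R G v S := by
  obtain ⟨φ, hφ⟩ := h
  exact ⟨.neg φ, fun V G v S => not_congr (hφ V G v S)⟩

theorem Def.and {R R' : ∀ {V : Type}, CG C V → (α → V) → (β → Set V) → Prop} (h : Def C α β R)
    (h' : Def C α β R') : Def C α β fun G v S => R G v S ∧ R' G v S := by
  obtain ⟨φ, hφ⟩ := h
  obtain ⟨ψ, hψ⟩ := h'
  exact ⟨.and φ ψ, fun V G v S => and_congr (hφ V G v S) (hψ V G v S)⟩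

theorem Def.or {R R' : ∀ {V : Type}, CG C V → (α → V) → (β → Set V) → Prop} (h : Def C α β R)
    (h' : Def C α β R') : Def C α β fun G v S => R G v S ∨ R' G v S := by
  refine Def.congr (Def.not (Def.and (Def.not h) (Def.not h'))) ?_
  intro V G v S
  tauto

theorem Def.imp {R R' : ∀ {V : Type}, CG C V → (α → V) → (β → Set V) → Prop} (h : Def C α β R)
    (h' : Def C α β R') : Def C α β fun G v S => R G v S → R' G v S := by
  refine Def.congr (Def.not (Def.and h (Def.not h'))) ?_
  intro V G v S
  tauto

theorem Def.iff {R R' : ∀ {V : Type}, CG C V → (α → V) → (β → Set V) → Prop} (h : Def C α β R)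
    (h' : Def C α β R') : Def C α β fun G v S => (R G v S ↔ R' G v S) := by
  refine Def.congr (Def.and (Def.imp h h') (Def.imp h' h)) ?_
  intro V G v S
  tauto

theorem Def.ex {R : ∀ {V : Type}, CG C V → (Option α → V) → (β → Set V) → Prop}
    (h : Def C (Option α) β R) : Def C α β fun G v S => ∃ x, R G (ext x v) S := by
  obtain ⟨φ, hφ⟩ := h
  exact ⟨.ex φ, fun V G v S => exists_congr fun x => hφ V G _ S⟩

theorem Def.all {R : ∀ {V : Type}, CG C V → (Option α → V) → (β → Set V) → Prop}
    (h : Def C (Option α) β R) : Def C α β fun G v S => ∀ x, R G (ext x v) S := by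
  refine Def.congr (Def.not (Def.ex (Def.not h))) ?_
  intro V G v S
  exact not_exists_not

theorem Def.exS {R : ∀ {V : Type}, CG C V → (α → V) → (Option β → Set V) → Prop}
    (h : Def C α (Option β) R) : Def C α β fun G v S => ∃ X, R G v (ext X S) := by
  obtain ⟨φ, hφ⟩ := h
  exact ⟨.exS φ, fun V G v S => exists_congr fun X => hφ V G v _⟩

theorem Def.allS {R : ∀ {V : Type}, CG C V → (α → V) → (Option β → Set V) → Prop}
    (h : Def C α (Option β) R) : Def C α β fun G v S => ∀ X, R G v (ext X S) := by
  refine Def.congr (Def.not (Def.exS (Def.not h))) ?_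
  intro V G v S
  exact not_exists_not

theorem Def.const (p : Prop) : Def C α β fun _ _ _ => p := by
  have htrue : Def C α β fun _ _ _ => True := by
    refine ⟨.exS (.neg (.ex (.mem none none))), fun V G v S => ?_⟩
    refine iff_true_intro ⟨(∅ : Set V), ?_⟩
    rintro ⟨x, hx⟩
    exact hx
  by_cases hp : p
  · refine Def.congr htrue ?_
    intro V G v S
    exact (iff_true_intro hp).symm
  · refine Def.congr (Def.not htrue) ?_
    intro V G v S
    exact ⟨fun h => absurd trivial h, fun h => absurd h hp⟩

/-- finite disjunctions over a list -/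
theorem Def.exList {ι : Type} {R : ι → ∀ {V : Type}, CG C V → (α → V) → (β → Set V) → Prop}
    (h : ∀ i, Def C α β (R i)) (l : List ι) : Def C α β fun G v S => ∃ i ∈ l, R i G v S := by
  induction l with
  | nil =>
    refine Def.congr (Def.const False) ?_
    intro V G v S
    simp
  | cons a l ih =>
    refine Def.congr (Def.or (h a) ih) ?_
    intro V G v S
    simp

/-- finite conjunctions over a list -/
theorem Def.allList {ι : Type} {R : ι → ∀ {V : Type}, CG C V → (α → V) → (β → Set V) → Prop}
    (h : ∀ i, Def C α β (R i)) (l : List ι) : Def C α β fun G v S => ∀ i ∈ l, R i G v S := by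
  induction l with
  | nil =>
    refine Def.congr (Def.const True) ?_
    intro V G v S
    simp
  | cons a l ih =>
    refine Def.congr (Def.and (h a) ih) ?_
    intro V G v S
    simp

/-- finite disjunctions and conjunctions -/
theorem Def.exFin {ι : Type} [Finite ι]
    {R : ι → ∀ {V : Type}, CG C V → (α → V) → (β → Set V) → Prop}
    (h : ∀ i, Def C α β (R i)) : Def C α β fun G v S => ∃ i, R i G v S := by
  obtain ⟨_⟩ := nonempty_fintype ι
  refine Def.congr (Def.exList h Finset.univ.toList) ?_
  intro V G v S
  simp

theorem Def.allFin {ι : Type} [Finite ι]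
    {R : ι → ∀ {V : Type}, CG C V → (α → V) → (β → Set V) → Prop}
    (h : ∀ i, Def C α β (R i)) : Def C α β fun G v S => ∀ i, R i G v S := by
  obtain ⟨_⟩ := nonempty_fintype ι
  refine Def.congr (Def.allList h Finset.univ.toList) ?_
  intro V G v S
  simp

end

private def DefApi_shift {α ι : Type} : α ⊕ Option ι → Option α ⊕ ι
  | .inl a => .inl (some a)
  | .inr none => .inl none
  | .inr (some i) => .inr i

section
variable {C α β : Type}

/-- quantification over finitely many elements at once -/
theorem Def.exTup {ι : Type} [Finite ι]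
    {R : ∀ {V : Type}, CG C V → (α ⊕ ι → V) → (β → Set V) → Prop}
    (h : Def C (α ⊕ ι) β R) :
    Def C α β fun {V} G v S => ∃ f : ι → V, R G (Sum.elim v f) S := by
  have key : ∀ (κ : Type) [Finite κ], ∀ (α' : Type)
      (Q : ∀ {V : Type}, CG C V → (α' ⊕ κ → V) → (β → Set V) → Prop),
      Def C (α' ⊕ κ) β Q →
      Def C α' β fun {V} G v S => ∃ f : κ → V, Q G (Sum.elim v f) S := by
    intro κ hκ
    induction κ using Finite.induction_empty_option with
    | of_equiv e ih =>
      intro α' Q hQ
      refine Def.congr (ih α' _ (hQ.rename (Sum.map id e.symm) id)) ?_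
      intro V G v S
      constructor
      · rintro ⟨f, hf⟩
        refine ⟨fun j => f (e.symm j), ?_⟩
        have h1 : (fun i => Sum.elim v f (Sum.map id e.symm i)) =
            Sum.elim v (fun j => f (e.symm j)) := by
          funext i
          cases i <;> rfl
        rw [← h1]
        exact hf
      · rintro ⟨f, hf⟩
        refine ⟨fun j => f (e j), ?_⟩
        have h1 : (fun i => Sum.elim v (fun j => f (e j)) (Sum.map id e.symm i)) =
            Sum.elim v f := by
          funext i
          cases i with
          | inl a => rfl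
          | inr a => exact congrArg f (e.apply_symm_apply a)
        change Q G (fun i => Sum.elim v (fun j => f (e j)) (Sum.map id e.symm i)) (fun X => S X)
        rw [h1]
        exact hf
    | h_empty =>
      intro α' Q hQ
      refine Def.congr (hQ.rename (Sum.elim id PEmpty.elim) id) ?_
      intro V G v S
      have h1 : ∀ f : PEmpty → V, (fun i => v (Sum.elim id PEmpty.elim i)) = Sum.elim v f := by
        intro f
        funext i
        cases i with
        | inl a => rfl
        | inr a => exact a.elim
      constructor
      · intro hf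
        refine ⟨PEmpty.elim, ?_⟩
        rw [← h1 PEmpty.elim]
        exact hf
      · rintro ⟨f, hf⟩
        rw [← h1 f] at hf
        exact hf
    | h_option ih =>
      intro α' Q hQ
      refine Def.congr (Def.ex (ih (Option α') _ (hQ.rename DefApi_shift id))) ?_
      intro V G v S
      constructor
      · rintro ⟨x, f, hf⟩
        refine ⟨ext x f, ?_⟩
        have h1 : (fun i => Sum.elim (ext x v) f (DefApi_shift i)) =
            Sum.elim v (ext x f) := by
          funext i
          rcases i with a | (_ | a) <;> rfl
        rw [← h1]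
        exact hf
      · rintro ⟨f, hf⟩
        refine ⟨f none, fun i => f (some i), ?_⟩
        have h1 : (fun i => Sum.elim (ext (f none) v) (fun i => f (some i)) (DefApi_shift i)) =
            Sum.elim v f := by
          funext i
          rcases i with a | (_ | a) <;> rfl
        change Q G (fun i => Sum.elim (ext (f none) v) (fun i => f (some i)) (DefApi_shift i))
          (fun X => S X)
        rw [h1]
        exact hf
  exact key ι α R h
end

/-- closing all set variables by existential quantifiers -/
theorem Def.close {C β : Type} [Finite β]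
    {R : ∀ {V : Type}, CG C V → (Empty → V) → (β → Set V) → Prop} (h : Def C Empty β R) :
    Def C Empty Empty fun {V} G v _ => ∃ S : β → Set V, R G v S := by
  have key : ∀ (κ : Type) [Finite κ], ∀ (β' : Type)
      (Q : ∀ {V : Type}, CG C V → (Empty → V) → (β' ⊕ κ → Set V) → Prop),
      Def C Empty (β' ⊕ κ) Q →
      Def C Empty β' fun {V} G v S => ∃ f : κ → Set V, Q G v (Sum.elim S f) := by
    intro κ hκ
    induction κ using Finite.induction_empty_option with
    | of_equiv e ih =>
      intro β' Q hQ
      refine Def.congr (ih β' _ (hQ.rename id (Sum.map id e.symm))) ?_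
      intro V G v S
      constructor
      · rintro ⟨f, hf⟩
        refine ⟨fun j => f (e.symm j), ?_⟩
        have h1 : (fun i => Sum.elim S f (Sum.map id e.symm i)) =
            Sum.elim S (fun j => f (e.symm j)) := by
          funext i
          cases i <;> rfl
        rw [← h1]
        exact hf
      · rintro ⟨f, hf⟩
        refine ⟨fun j => f (e j), ?_⟩
        have h1 : (fun i => Sum.elim S (fun j => f (e j)) (Sum.map id e.symm i)) =
            Sum.elim S f := by
          funext i
          cases i with
          | inl a => rfl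
          | inr a => exact congrArg f (e.apply_symm_apply a)
        change Q G (fun X => v X) (fun i => Sum.elim S (fun j => f (e j)) (Sum.map id e.symm i))
        rw [h1]
        exact hf
    | h_empty =>
      intro β' Q hQ
      refine Def.congr (hQ.rename id (Sum.elim id PEmpty.elim)) ?_
      intro V G v S
      have h1 : ∀ f : PEmpty → Set V, (fun i => S (Sum.elim id PEmpty.elim i)) =
          Sum.elim S f := by
        intro f
        funext i
        cases i with
        | inl a => rfl
        | inr a => exact a.elim
      constructor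
      · intro hf
        refine ⟨PEmpty.elim, ?_⟩
        rw [← h1 PEmpty.elim]
        exact hf
      · rintro ⟨f, hf⟩
        rw [← h1 f] at hf
        exact hf
    | h_option ih =>
      intro β' Q hQ
      refine Def.congr (Def.exS (ih (Option β') _ (hQ.rename id DefApi_shift))) ?_
      intro V G v S
      constructor
      · rintro ⟨x, f, hf⟩
        refine ⟨ext x f, ?_⟩
        have h1 : (fun i => Sum.elim (ext x S) f (DefApi_shift i)) =
            Sum.elim S (ext x f) := by
          funext i
          rcases i with a | (_ | a) <;> rfl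
        rw [← h1]
        exact hf
      · rintro ⟨f, hf⟩
        refine ⟨f none, fun i => f (some i), ?_⟩
        have h1 : (fun i => Sum.elim (ext (f none) S) (fun i => f (some i)) (DefApi_shift i)) =
            Sum.elim S f := by
          funext i
          rcases i with a | (_ | a) <;> rfl
        change Q G (fun X => v X)
          (fun i => Sum.elim (ext (f none) S) (fun i => f (some i)) (DefApi_shift i))
        rw [h1]
        exact hf
  refine Def.congr (key β Empty _ (h.rename id (Sum.inr : β → Empty ⊕ β))) ?_
  intro V G v S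
  exact Iff.rfl

end Pool.MP_33c730_lc
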