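import Pool.Agent.Lib.MP_33c730_lc.DefNot

set_option autoImplicit false

namespace Pool.MP_33c730_lc

/-! ### DefMain: the final sentence -/
section
variable {C α : Type} {m b : ℕ}

theorem def_forest : Def C α (Par m b) fun G _ S => Forest G.gr (leS G.gr S) := by
  refine Def.congr (Def.and (Def.all (def_leS none none)) (Def.and
    (Def.all (Def.all (Def.imp (def_leS (some none) none) (Def.imp (def_leS none (some none))
      (Def.eq (some none) none))))) (Def.and
    (Def.all (Def.all (Def.all (Def.imp (def_leS (some (some none)) (some none))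
      (Def.imp (def_leS (some none) none) (def_leS (some (some none)) none)))))) (Def.and
    (Def.all (Def.all (Def.all (Def.imp (def_leS (some (some none)) none)
      (Def.imp (def_leS (some none) none) (Def.or (def_leS (some (some none)) (some none))
        (def_leS (some none) (some (some none))))))))) 
    (Def.all (Def.all (Def.imp (Def.adj (some none) none) (Def.or (def_leS (some none) none)
      (def_leS none (some none))))))))))
    ?_
  intro V G v S
  constructor
  · rintro ⟨h1, h2, h3, h4, h5⟩
    exact ⟨h1, h2, h3, h4, h5⟩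
  · intro h
    exact ⟨h.refl, h.antisymm, h.trans, h.chain, h.comp⟩

/-- atomic agreement is definable -/
private theorem DefMain_atom [Finite C] (c : α) (L : List (α × α)) :
    Def C α (Par m b) fun G v S =>
      Atom G (anc (leS G.gr S) (v c)) (dlt G.gr (leS G.gr S) (k1S S) (k2S S))
        (dlt G.gr (leS G.gr S) (k1S S) (k2S S)) (L.map fun p => (v p.1, v p.2)) := by
  refine Def.congr (Def.allList (fun p : α × α => Def.allList (fun q : α × α =>
    Def.and (Def.iff (Def.eq p.1 q.1) (Def.eq p.2 q.2))
      (Def.and (Def.iff (Def.adj p.1 q.1) (Def.adj p.2 q.2))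
        (Def.and (Def.iff (def_dlt p.1 q.1) (def_dlt p.2 q.2))
          (Def.and (Def.allFin fun c : C => Def.iff (Def.col c p.1) (Def.col c p.2))
            (Def.all (Def.imp (def_anc none (some c)) (Def.iff (Def.adj (some p.1) none)
              (Def.adj (some p.2) none)))))))) L) L) ?_
  intro V G v S
  unfold Atom
  simp only [List.forall_mem_map]
  exact Iff.rfl

theorem def_EF [Finite C] (n : ℕ) (c c' : α) (L : List (α × α)) :
    Def C α (Par m b) fun G v S =>
      EF G (anc (leS G.gr S) (v c)) (dlt G.gr (leS G.gr S) (k1S S) (k2S S))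
        (dlt G.gr (leS G.gr S) (k1S S) (k2S S)) (kp (leS G.gr S) (KS S) (v c))
        (kp (leS G.gr S) (KS S) (v c')) n (L.map fun p => (v p.1, v p.2)) := by
  induction n generalizing α with
  | zero => exact DefMain_atom c L
  | succ n ih =>
    refine Def.congr (Def.and (DefMain_atom c L) (Def.and
      (Def.all (Def.imp (def_kp none (some c)) (Def.ex (Def.and (def_kp none (some (some c')))
        (ih (some (some c)) (some (some c'))
          ((some none, none) :: L.map fun p => (some (some p.1), some (some p.2))))))))
      (Def.all (Def.imp (def_kp none (some c')) (Def.ex (Def.and (def_kp none (some (some c)))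
        (ih (some (some c)) (some (some c'))
          ((none, some none) :: L.map fun p => (some (some p.1), some (some p.2)))))))))) ?_
    intro V G v S
    simp only [List.map_cons, List.map_map]
    exact Iff.rfl

theorem def_legit [Finite C] (q : ℕ) : Def C α (Par m b)
    fun G _ S => Legit G (leS G.gr S) (KS S) (k1S S) (k2S S) q := by
  refine Def.congr (Def.and
    (Def.all (Def.imp (def_KS none) (Def.all (Def.imp (def_KS none)
      (Def.imp (Def.not (Def.eq (some none) none)) (Def.imp (def_sib (some none) none)
        (Def.imp (def_nbEq (some none) none) (Def.imp (def_k1eq (some none) none)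
          (Def.not (def_k2eq (some none) none)))))))))) (Def.and
    (Def.all (Def.all (Def.imp (def_sib (some none) none) (Def.imp (def_nbEq (some none) none)
      (Def.imp (def_k1eq (some none) none) (def_EF q (some none) none []))))))
    (Def.all (Def.imp (Def.not (def_KS none)) (Def.exTup (ι := Fin (2 ^ q))
      (Def.and (Def.allFin fun i : Fin (2 ^ q) => Def.allFin fun j : Fin (2 ^ q) =>
        Def.imp (Def.eq (.inr i) (.inr j)) (Def.const (i = j)))
        (Def.allFin fun i : Fin (2 ^ q) => Def.and (def_KS (.inr i))
          (Def.and (def_sib (.inl none) (.inr i)) (Def.and (def_nbEq (.inl none) (.inr i))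
            (def_k1eq (.inl none) (.inr i))))))))))) ?_
  intro V G v S
  constructor
  · rintro ⟨h1, h2, h3⟩
    refine ⟨h1, h2, ?_⟩
    intro c hc
    obtain ⟨f, hf, hf'⟩ := h3 c hc
    exact ⟨f, fun i j hij => hf i j hij, hf'⟩
  · intro h
    refine ⟨h.inj, h.same, ?_⟩
    intro c hc
    obtain ⟨f, hf, hf'⟩ := h.drop c hc
    exact ⟨f, fun i j hij => hf hij, hf'⟩

theorem def_satOn (φ : FO C α) : Def C α (Par m b) fun G v S =>
    φ.SatOn G (kpAll (leS G.gr S) (KS S)) (dlt G.gr (leS G.gr S) (k1S S) (k2S S)) v := by
  induction φ with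
  | eq i j => exact Def.congr (Def.eq i j) (fun _ _ _ => Iff.rfl)
  | adj i j => exact Def.congr (Def.adj i j) (fun _ _ _ => Iff.rfl)
  | lt i j => exact Def.congr (def_dlt i j) (fun _ _ _ => Iff.rfl)
  | col c i => exact Def.congr (Def.col c i) (fun _ _ _ => Iff.rfl)
  | neg f ih => exact Def.congr (Def.not ih) (fun _ _ _ => Iff.rfl)
  | and f g ih1 ih2 => exact Def.congr (Def.and ih1 ih2) (fun _ _ _ => Iff.rfl)
  | ex f ih =>
    exact Def.congr (Def.ex (Def.and (def_kpAll none) ih)) (fun _ _ _ => Iff.rfl)
end

theorem def_main (C : Type) [Finite C] (m b q : ℕ) (φ : FO C Empty) :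
    ∃ ψ : MSO C Empty Empty, ∀ (V : Type) (G : CG C V),
      ψ.Sat G Empty.elim Empty.elim ↔ ∃ S : Par m b → Set V,
        Forest G.gr (leS G.gr S) ∧ Legit G (leS G.gr S) (KS S) (k1S S) (k2S S) q ∧
        φ.SatOn G (kpAll (leS G.gr S) (KS S)) (dlt G.gr (leS G.gr S) (k1S S) (k2S S))
          Empty.elim := by
  obtain ⟨ψ, hψ⟩ := Def.close (Def.and (def_forest (C := C) (α := Empty) (m := m) (b := b))
    (Def.and (def_legit q) (def_satOn φ)))
  refine ⟨ψ, fun V G => (hψ V G Empty.elim Empty.elim).trans ?_⟩
  exact Iff.rfl

end Pool.MP_33c730_lc
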