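import Pool.Agent.Lib.MP_33c730_lc.DefApi
import Pool.Agent.Lib.MP_33c730_lc.Coding

set_option autoImplicit false

namespace Pool.MP_33c730_lc

/-! ### DefNot: the notions for trees are MSO definable -/

private theorem DefNot_uq {C α β : Type} (X : β) (i : α) :
    Def C α β fun G v S => uq G.gr (S X) (v i) :=
  Def.congr (Def.all (Def.all (Def.imp (Def.adj (some (some i)) (some none))
    (Def.imp (Def.adj (some (some i)) none) (Def.imp (Def.mem (some none) X)
      (Def.imp (Def.mem none X) (Def.eq (some none) none)))))))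
    (fun _ _ _ => Iff.rfl)

private theorem DefNot_up {C α β : Type} {m : ℕ} (cs os : Fin m → β) (x y : α) :
    Def C α β fun G v S => upR G.gr (fun j => S (cs j)) (fun j => S (os j)) (v x) (v y) :=
  Def.congr (Def.and (Def.adj x y) (Def.exFin fun j => Def.and (Def.mem y (cs j))
    (Def.or (Def.and (DefNot_uq (cs j) x) (Def.mem x (os j)))
      (Def.and (Def.not (DefNot_uq (cs j) x)) (Def.exFin fun i => Def.and (Def.mem x (cs i))
        (Def.not (Def.mem y (os i))))))))
    (fun _ _ _ => Iff.rfl)

private theorem DefNot_le {C α β : Type} {m : ℕ} (cs os : Fin m → β) (a x : α) :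
    Def C α β fun G v S => leR G.gr (fun j => S (cs j)) (fun j => S (os j)) (v a) (v x) :=
  Def.congr (Def.allS (Def.imp (Def.mem x none) (Def.imp
    (Def.all (Def.all (Def.imp (Def.mem (some none) none)
      (Def.imp (DefNot_up (fun j => some (cs j)) (fun j => some (os j)) (some none) none)
        (Def.mem none none)))))
    (Def.mem a none))))
    (fun _ _ _ => Iff.rfl)

private theorem DefNot_idx {C α β : Type} {b : ℕ} (t : Fin b → β) (i j : α) :
    Def C α β fun _ v S => idx (fun l => S (t l)) (v i) < idx (fun l => S (t l)) (v j) :=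
  Def.congr (Def.exFin fun l => Def.and (Def.mem i (t l)) (Def.allFin fun l' =>
    Def.imp (Def.const (l' ≤ l)) (Def.not (Def.mem j (t l')))))
    (fun _ _ _ => (idx_lt _ _ _).symm)

section
variable {C α : Type} {m b : ℕ}

theorem def_leS (i j : α) : Def C α (Par m b) fun G v S => leS G.gr S (v i) (v j) :=
  Def.congr (DefNot_le (fun l => .inl (.inl l)) (fun l => .inl (.inr l)) i j)
    (fun _ _ _ => Iff.rfl)

theorem def_KS (i : α) : Def C α (Par m b) fun _ v S => v i ∈ KS S :=
  Def.congr (Def.mem i (.inr (.inl ()))) (fun _ _ _ => Iff.rfl)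

theorem def_anc (i j : α) :
    Def C α (Par m b) fun G v S => v i ∈ anc (leS G.gr S) (v j) :=
  Def.congr (Def.and (def_leS i j) (Def.not (Def.eq i j))) (fun _ _ _ => Iff.rfl)

theorem def_nb (i j : α) :
    Def C α (Par m b) fun G v S => v i ∈ nb G.gr (leS G.gr S) (v j) :=
  Def.congr (Def.and (Def.and (def_leS i j) (Def.not (Def.eq i j)))
    (Def.ex (Def.and (def_leS (some j) none) (Def.adj (some i) none))))
    (fun _ _ _ => Iff.rfl)

theorem def_sib (i j : α) :
    Def C α (Par m b) fun G v S => sib (leS G.gr S) (v i) (v j) :=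
  Def.congr (Def.all (Def.iff
    (Def.and (def_leS none (some i)) (Def.not (Def.eq none (some i))))
    (Def.and (def_leS none (some j)) (Def.not (Def.eq none (some j))))))
    (fun _ _ _ => Iff.rfl)

theorem def_kp (i j : α) :
    Def C α (Par m b) fun G v S => v i ∈ kp (leS G.gr S) (KS S) (v j) :=
  Def.congr (Def.and (def_leS j i) (Def.all (Def.imp (def_leS (some j) none)
    (Def.imp (Def.not (Def.eq none (some j))) (Def.imp (def_leS none (some i))
      (def_KS none))))))
    (fun _ _ _ => Iff.rfl)

theorem def_kpAll (i : α) :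
    Def C α (Par m b) fun G v S => v i ∈ kpAll (leS G.gr S) (KS S) :=
  Def.congr (Def.all (Def.imp (def_leS none (some i)) (def_KS none)))
    (fun _ _ _ => Iff.rfl)

theorem def_nbEq (i j : α) :
    Def C α (Par m b) fun G v S => nbEq G.gr (leS G.gr S) (v i) (v j) :=
  Def.congr (Def.all (Def.iff (def_nb none (some i)) (def_nb none (some j))))
    (fun _ _ _ => Iff.rfl)

theorem def_nbLt (i j : α) :
    Def C α (Par m b) fun G v S => nbLt G.gr (leS G.gr S) (v i) (v j) :=
  Def.congr (Def.ex (Def.and (def_nb none (some i)) (Def.and (Def.not (def_nb none (some j)))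
    (Def.all (Def.imp (def_leS none (some none)) (Def.imp (Def.not (Def.eq none (some none)))
      (Def.iff (def_nb none (some (some i))) (def_nb none (some (some j))))))))))
    (fun _ _ _ => Iff.rfl)

theorem def_k1lt (i j : α) : Def C α (Par m b) fun _ v S => k1S S (v i) < k1S S (v j) :=
  Def.congr (DefNot_idx (fun l => .inr (.inr (.inl l))) i j) (fun _ _ _ => Iff.rfl)

theorem def_k1eq (i j : α) : Def C α (Par m b) fun _ v S => k1S S (v i) = k1S S (v j) := by
  refine Def.congr (Def.and (Def.not (def_k1lt i j)) (Def.not (def_k1lt j i))) ?_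
  intro V G v S
  constructor
  · rintro ⟨h1, h2⟩
    exact le_antisymm (not_lt.mp h2) (not_lt.mp h1)
  · intro h
    exact ⟨fun h' => absurd h (ne_of_lt h'), fun h' => absurd h.symm (ne_of_lt h')⟩

theorem def_k2lt (i j : α) : Def C α (Par m b) fun _ v S => k2S S (v i) < k2S S (v j) :=
  Def.congr (DefNot_idx (fun l => .inr (.inr (.inr l))) i j) (fun _ _ _ => Iff.rfl)

theorem def_k2eq (i j : α) : Def C α (Par m b) fun _ v S => k2S S (v i) = k2S S (v j) := by
  refine Def.congr (Def.and (Def.not (def_k2lt i j)) (Def.not (def_k2lt j i))) ?_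
  intro V G v S
  constructor
  · rintro ⟨h1, h2⟩
    exact le_antisymm (not_lt.mp h2) (not_lt.mp h1)
  · intro h
    exact ⟨fun h' => absurd h (ne_of_lt h'), fun h' => absurd h.symm (ne_of_lt h')⟩

theorem def_slt (i j : α) : Def C α (Par m b)
    fun G v S => slt G.gr (leS G.gr S) (k1S S) (k2S S) (v i) (v j) :=
  Def.congr (Def.or (def_nbLt i j) (Def.and (def_nbEq i j)
    (Def.or (def_k1lt i j) (Def.and (def_k1eq i j) (def_k2lt i j)))))
    (fun _ _ _ => Iff.rfl)

theorem def_dlt (i j : α) : Def C α (Par m b)
    fun G v S => dlt G.gr (leS G.gr S) (k1S S) (k2S S) (v i) (v j) :=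
  Def.congr (Def.or (Def.and (def_leS i j) (Def.not (Def.eq i j)))
    (Def.ex (Def.ex (Def.and (def_sib (some none) none)
      (Def.and (def_leS (some none) (some (some i)))
        (Def.and (def_leS none (some (some j))) (def_slt (some none) none)))))))
    (fun _ _ _ => Iff.rfl)

end

end Pool.MP_33c730_lc
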