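import Mathlib

set_option autoImplicit false

namespace Pool.MP_33c730_lc

/-! ### Degen: degeneracy orders and greedy colourings -/

open Classical in
private theorem degen_vertex {V : Type} [Finite V] (G : SimpleGraph V) (c : ℕ)
    (h : ∀ W : Finset V, Set.ncard {p : V × V | p.1 ∈ W ∧ p.2 ∈ W ∧ G.Adj p.1 p.2} ≤ c * W.card)
    (W : Finset V) (hW : W.Nonempty) :
    ∃ x ∈ W, (W.filter (fun y => G.Adj x y)).card ≤ c := by
  by_contra hcon
  push Not at hcon
  have h1 : Set.ncard {p : V × V | p.1 ∈ W ∧ p.2 ∈ W ∧ G.Adj p.1 p.2} =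
      ∑ x ∈ W, (W.filter (fun y => G.Adj x y)).card := by
    have h2 : {p : V × V | p.1 ∈ W ∧ p.2 ∈ W ∧ G.Adj p.1 p.2} =
        (((W ×ˢ W).filter (fun p => G.Adj p.1 p.2) : Finset (V × V)) : Set (V × V)) := by
      ext p
      simp [and_assoc]
    rw [h2, Set.ncard_coe_finset, Finset.card_filter, Finset.sum_product]
    refine Finset.sum_congr rfl fun x _ => ?_
    rw [Finset.card_filter]
  have h3 : ∑ x ∈ W, (c + 1) ≤ ∑ x ∈ W, (W.filter (fun y => G.Adj x y)).card :=
    Finset.sum_le_sum fun x hx => hcon x hx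
  rw [← h1, Finset.sum_const, smul_eq_mul] at h3
  have h4 := h3.trans (h W)
  have h5 : 0 < W.card := hW.card_pos
  nlinarith

open Classical in
private theorem degen_aux {V : Type} [Finite V] (G : SimpleGraph V) (c : ℕ)
    (h : ∀ W : Finset V, Set.ncard {p : V × V | p.1 ∈ W ∧ p.2 ∈ W ∧ G.Adj p.1 p.2} ≤ c * W.card)
    (k : ℕ) : ∀ W : Finset V, W.card = k → ∃ f : V → ℕ, Set.InjOn f W ∧ (∀ x ∈ W, f x < k) ∧
      ∀ x ∈ W, Set.ncard {y | y ∈ W ∧ G.Adj x y ∧ f y < f x} ≤ c := by
  induction k with
  | zero =>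
    intro W hW
    rw [Finset.card_eq_zero] at hW
    subst hW
    refine ⟨fun _ => 0, ?_, ?_, ?_⟩
    · intro x hx
      simp at hx
    · intro x hx
      simp at hx
    · intro x hx
      simp at hx
  | succ k ih =>
    intro W hW
    have hne : W.Nonempty := by
      rw [← Finset.card_pos]
      omega
    obtain ⟨x₀, hx₀, hdeg⟩ := degen_vertex G c h W hne
    obtain ⟨f, hinj, hlt, hf⟩ := ih (W.erase x₀) (by rw [Finset.card_erase_of_mem hx₀]; omega)
    have hup : ∀ x, x ≠ x₀ → Function.update f x₀ k x = f x := fun x hx =>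
      Function.update_of_ne hx _ _
    have hup0 : Function.update f x₀ k x₀ = k := Function.update_self _ _ _
    refine ⟨Function.update f x₀ k, ?_, ?_, ?_⟩
    · intro x hx y hy hxy
      by_cases h1 : x = x₀
      · by_cases h2 : y = x₀
        · rw [h1, h2]
        · exfalso
          rw [h1, hup0, hup y h2] at hxy
          have := hlt y (Finset.mem_erase.mpr ⟨h2, hy⟩)
          omega
      · by_cases h2 : y = x₀
        · exfalso
          rw [h2, hup0, hup x h1] at hxy
          have := hlt x (Finset.mem_erase.mpr ⟨h1, hx⟩)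
          omega
        · rw [hup x h1, hup y h2] at hxy
          exact hinj (Finset.mem_coe.mpr (Finset.mem_erase.mpr ⟨h1, hx⟩))
            (Finset.mem_coe.mpr (Finset.mem_erase.mpr ⟨h2, hy⟩)) hxy
    · intro x hx
      by_cases h1 : x = x₀
      · rw [h1, hup0]
        omega
      · rw [hup x h1]
        have := hlt x (Finset.mem_erase.mpr ⟨h1, hx⟩)
        omega
    · intro x hx
      by_cases h1 : x = x₀
      · refine le_trans ?_ hdeg
        rw [← Set.ncard_coe_finset]
        refine Set.ncard_le_ncard ?_ (Set.toFinite _)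
        rintro y ⟨hy, hadj, -⟩
        rw [h1] at hadj
        simpa using ⟨hy, hadj⟩
      · refine le_trans ?_ (hf x (Finset.mem_erase.mpr ⟨h1, hx⟩))
        refine Set.ncard_le_ncard ?_ (Set.toFinite _)
        rintro y ⟨hy, hadj, hlt'⟩
        rw [hup x h1] at hlt'
        have h2 : y ≠ x₀ := by
          intro h2
          rw [h2, hup0] at hlt'
          have := hlt x (Finset.mem_erase.mpr ⟨h1, hx⟩)
          omega
        rw [hup y h2] at hlt'
        exact ⟨Finset.mem_erase.mpr ⟨h2, hy⟩, hadj, hlt'⟩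

/-- few edges in every set give an ordering with few smaller neighbours. -/
theorem degen_order {V : Type} [Finite V] (G : SimpleGraph V) (c : ℕ)
    (h : ∀ W : Finset V, Set.ncard {p : V × V | p.1 ∈ W ∧ p.2 ∈ W ∧ G.Adj p.1 p.2} ≤ c * W.card) :
    ∃ f : V → ℕ, Function.Injective f ∧ ∀ x, Set.ncard {y | G.Adj x y ∧ f y < f x} ≤ c := by
  classical
  have := Fintype.ofFinite V
  obtain ⟨f, hinj, -, hf⟩ := degen_aux G c h _ Finset.univ rfl
  refine ⟨f, fun x y hxy => hinj (by simp) (by simp) hxy, fun x => ?_⟩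
  have h1 := hf x (Finset.mem_univ x)
  simpa using h1

theorem greedy_col {V : Type} [Finite V] (G : SimpleGraph V) (c : ℕ) (f : V → ℕ)
    (hf : Function.Injective f) (h : ∀ x, Set.ncard {y | G.Adj x y ∧ f y < f x} ≤ c) :
    ∃ χ : V → Fin (c + 1), ∀ x y, G.Adj x y → χ x ≠ χ y := by
  classical
  have key : ∀ k : ℕ, ∃ χ : V → Fin (c + 1), ∀ x y, f x < k → f y < k → G.Adj x y → χ x ≠ χ y := by
    intro k
    induction k with
    | zero => exact ⟨fun _ => 0, fun x y hx => absurd hx (Nat.not_lt_zero _)⟩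
    | succ k ih =>
      obtain ⟨χ, hχ⟩ := ih
      by_cases hex : ∃ x₀, f x₀ = k
      · obtain ⟨x₀, hx₀⟩ := hex
        have hcard : (χ '' {y | G.Adj x₀ y ∧ f y < f x₀}).ncard < Nat.card (Fin (c + 1)) := by
          rw [Nat.card_fin]
          exact Nat.lt_succ_of_le ((Set.ncard_image_le (Set.toFinite _)).trans (h x₀))
        have hne : (χ '' {y | G.Adj x₀ y ∧ f y < f x₀}) ≠ Set.univ := by
          intro h1
          rw [h1, Set.ncard_univ] at hcard
          exact lt_irrefl _ hcard
        obtain ⟨col, hcol⟩ := (Set.ne_univ_iff_exists_notMem _).mp hne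
        have hup : ∀ x, x ≠ x₀ → Function.update χ x₀ col x = χ x := fun x hx =>
          Function.update_of_ne hx _ _
        have hup0 : Function.update χ x₀ col x₀ = col := Function.update_self _ _ _
        have hk : ∀ x, x ≠ x₀ → f x < k + 1 → f x < k := by
          intro x hx hlt
          rcases Nat.lt_succ_iff_lt_or_eq.mp hlt with h2 | h2
          · exact h2
          · exact absurd (hf (h2.trans hx₀.symm)) hx
        refine ⟨Function.update χ x₀ col, fun x y hx hy hxy => ?_⟩
        by_cases h1 : x = x₀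
        · have h2 : y ≠ x₀ := fun h2 => hxy.ne (h1.trans h2.symm)
          rw [h1, hup0, hup y h2]
          rintro rfl
          apply hcol
          refine ⟨y, ⟨h1 ▸ hxy, ?_⟩, rfl⟩
          rw [hx₀]
          exact hk y h2 hy
        · by_cases h2 : y = x₀
          · rw [h2, hup0, hup x h1]
            rintro rfl
            apply hcol
            refine ⟨x, ⟨h2 ▸ hxy.symm, ?_⟩, rfl⟩
            rw [hx₀]
            exact hk x h1 hx
          · rw [hup x h1, hup y h2]
            exact hχ x y (hk x h1 hx) (hk y h2 hy) hxy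
      · push Not at hex
        refine ⟨χ, fun x y hx hy hxy => hχ x y ?_ ?_ hxy⟩
        · have := hex x
          omega
        · have := hex y
          omega
  obtain ⟨K, hK⟩ := (Set.finite_range f).bddAbove
  obtain ⟨χ, hχ⟩ := key (K + 1)
  exact ⟨χ, fun x y hxy => hχ x y (Nat.lt_succ_of_le (hK ⟨x, rfl⟩))
    (Nat.lt_succ_of_le (hK ⟨y, rfl⟩)) hxy⟩

end Pool.MP_33c730_lc
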