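import Pool.Agent.Lib.MP_33c730_lc.Notions

set_option autoImplicit false

namespace Pool.MP_33c730_lc

/-! ### Dfs: normal spanning forests exist

A normal forest order on a set `T` of vertices such that the neighbourhoods in `T` of the components of
the rest are chains can be enlarged by one vertex. -/

/-- connected outside `T` -/
private def dfsConn {V : Type} (G : SimpleGraph V) (T : Finset V) : V → V → Prop :=
  Relation.ReflTransGen fun u w => G.Adj u w ∧ u ∉ T ∧ w ∉ T

private theorem dfsConn_symm {V : Type} {G : SimpleGraph V} {T : Finset V} {x y : V}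
    (h : dfsConn G T x y) : dfsConn G T y x := by
  induction h with
  | refl => exact Relation.ReflTransGen.refl
  | tail _ h ih => exact Relation.ReflTransGen.head ⟨h.1.symm, h.2.2, h.2.1⟩ ih

private theorem dfsConn_mono {V : Type} {G : SimpleGraph V} {T T' : Finset V} (hT : T ⊆ T')
    {x y : V} (h : dfsConn G T' x y) : dfsConn G T x y := by
  induction h with
  | refl => exact Relation.ReflTransGen.refl
  | tail _ h ih => exact ih.tail ⟨h.1, fun h1 => h.2.1 (hT h1), fun h1 => h.2.2 (hT h1)⟩

/-- partial normal forests -/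
private structure DfsInv {V : Type} (G : SimpleGraph V) (T : Finset V) (le : V → V → Prop) : Prop where
  supp : ∀ x y, le x y → x = y ∨ (x ∈ T ∧ y ∈ T)
  refl : ∀ x, le x x
  antisymm : ∀ x y, le x y → le y x → x = y
  trans : ∀ x y z, le x y → le y z → le x z
  chain : ∀ a b x, le a x → le b x → le a b ∨ le b a
  comp : ∀ x y, x ∈ T → y ∈ T → G.Adj x y → le x y ∨ le y x
  parent : ∀ v a, le a v → a ≠ v → ∃ p, le p v ∧ p ≠ v ∧ G.Adj v p ∧ ∀ b, le b v → b ≠ v → le b p
  star : ∀ x y a b, x ∉ T → y ∉ T → dfsConn G T x y → a ∈ T → b ∈ T → G.Adj x a → G.Adj y b →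
    le a b ∨ le b a

/-- a finite nonempty chain has a greatest element -/
private theorem dfs_greatest {V : Type} (le : V → V → Prop) (hr : ∀ x, le x x)
    (ht : ∀ x y z, le x y → le y z → le x z) (A : Finset V) (hA : A.Nonempty)
    (hc : ∀ a ∈ A, ∀ b ∈ A, le a b ∨ le b a) : ∃ a ∈ A, ∀ b ∈ A, le b a := by
  classical
  induction A using Finset.induction_on with
  | empty => exact absurd hA Finset.not_nonempty_empty
  | insert x A hx ih =>
    by_cases hA' : A.Nonempty
    · obtain ⟨a, ha, hmax⟩ := ih hA' fun a ha b hb =>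
        hc a (Finset.mem_insert_of_mem ha) b (Finset.mem_insert_of_mem hb)
      rcases hc x (Finset.mem_insert_self x A) a (Finset.mem_insert_of_mem ha) with h | h
      · refine ⟨a, Finset.mem_insert_of_mem ha, fun b hb => ?_⟩
        rcases Finset.mem_insert.mp hb with h1 | h1
        · rw [h1]
          exact h
        · exact hmax b h1
      · refine ⟨x, Finset.mem_insert_self x A, fun b hb => ?_⟩
        rcases Finset.mem_insert.mp hb with h1 | h1
        · rw [h1]
          exact hr x
        · exact ht _ _ _ (hmax b h1) h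
    · rw [Finset.not_nonempty_iff_eq_empty] at hA'
      subst hA'
      refine ⟨x, Finset.mem_insert_self x _, fun b hb => ?_⟩
      rcases Finset.mem_insert.mp hb with h1 | h1
      · rw [h1]
        exact hr x
      · exact absurd h1 (Finset.notMem_empty b)

open Classical in
private theorem dfs_step {V : Type} (G : SimpleGraph V) (T : Finset V) (le : V → V → Prop)
    (I : DfsInv G T le) (x₀ : V) (hx₀ : x₀ ∉ T) :
    ∃ v le', v ∉ T ∧ DfsInv G (insert v T) le' := by
  by_cases hA : (T.filter (fun a => ∃ y, y ∉ T ∧ dfsConn G T x₀ y ∧ G.Adj y a)).Nonempty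
  · obtain ⟨a, ha, hmax⟩ := dfs_greatest le I.refl I.trans _ hA (by
      intro a ha b hb
      obtain ⟨haT, y, hy, hcy, hya⟩ := Finset.mem_filter.mp ha
      obtain ⟨hbT, z, hz, hcz, hzb⟩ := Finset.mem_filter.mp hb
      exact I.star y z a b hy hz ((dfsConn_symm hcy).trans hcz) haT hbT hya hzb)
    obtain ⟨haT, v, hv, hcv, hva⟩ := Finset.mem_filter.mp ha
    have hmax' : ∀ b ∈ T, (∃ y, y ∉ T ∧ dfsConn G T x₀ y ∧ G.Adj y b) → le b a := fun b hb h =>
      hmax b (Finset.mem_filter.mpr ⟨hb, h⟩)
    have hlev : ∀ y, le v y → v = y := by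
      intro y h
      rcases I.supp v y h with h1 | h1
      · exact h1
      · exact absurd h1.1 hv
    have hlev' : ∀ y, le y v → y = v := by
      intro y h
      rcases I.supp y v h with h1 | h1
      · exact h1
      · exact absurd h1.2 hv
    have hav : a ≠ v := fun h => hv (h ▸ haT)
    have hleT : ∀ x, le x a → x ∈ T := by
      intro x h
      rcases I.supp x a h with h1 | h1
      · rw [h1]; exact haT
      · exact h1.1
    refine ⟨v, fun x y => le x y ∨ (y = v ∧ le x a), hv, ?_⟩
    constructor
    · -- supp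
      rintro x y (h | ⟨h1, h2⟩)
      · rcases I.supp x y h with h1 | h1
        · exact Or.inl h1
        · exact Or.inr ⟨Finset.mem_insert_of_mem h1.1, Finset.mem_insert_of_mem h1.2⟩
      · rw [h1]
        exact Or.inr ⟨Finset.mem_insert_of_mem (hleT x h2), Finset.mem_insert_self v T⟩
    · exact fun x => Or.inl (I.refl x)
    · -- antisymm
      rintro x y (h | ⟨h1, h2⟩) (h' | ⟨h1', h2'⟩)
      · exact I.antisymm x y h h'
      · rw [h1'] at h ⊢
        exact hlev y h
      · rw [h1] at h' ⊢
        exact (hlev x h').symm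
      · rw [h1, h1']
    · -- trans
      rintro x y z (h | ⟨h1, h2⟩) (h' | ⟨h1', h2'⟩)
      · exact Or.inl (I.trans x y z h h')
      · exact Or.inr ⟨h1', I.trans x y a h h2'⟩
      · rw [h1] at h'
        exact Or.inr ⟨(hlev z h').symm, h2⟩
      · exfalso
        rw [h1] at h2'
        exact hav (hlev a h2').symm
    · -- chain
      rintro x y z (h | ⟨h1, h2⟩) (h' | ⟨h1', h2'⟩)
      · exact (I.chain x y z h h').imp Or.inl Or.inl
      · rw [h1'] at h
        rw [hlev' x h]
        exact Or.inr (Or.inr ⟨rfl, h2'⟩)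
      · rw [h1] at h'
        rw [hlev' y h']
        exact Or.inl (Or.inr ⟨rfl, h2⟩)
      · exact (I.chain x y a h2 h2').imp Or.inl Or.inl
    · -- comp
      intro x y hx hy hxy
      rcases Finset.mem_insert.mp hx with h1 | h1
      · rcases Finset.mem_insert.mp hy with h2 | h2
        · exact absurd (h1.trans h2.symm) hxy.ne
        · rw [h1] at hxy
          exact Or.inr (Or.inr ⟨h1, hmax' y h2 ⟨v, hv, hcv, hxy⟩⟩)
      · rcases Finset.mem_insert.mp hy with h2 | h2
        · rw [h2] at hxy
          exact Or.inl (Or.inr ⟨h2, hmax' x h1 ⟨v, hv, hcv, hxy.symm⟩⟩)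
        · exact (I.comp x y h1 h2 hxy).imp Or.inl Or.inl
    · -- parent
      rintro w b (h | ⟨h1, h2⟩) hbw
      · have hwT : w ∈ T := by
          rcases I.supp b w h with h1 | h1
          · exact absurd h1 hbw
          · exact h1.2
        obtain ⟨p, hp1, hp2, hp3, hp4⟩ := I.parent w b h hbw
        refine ⟨p, Or.inl hp1, hp2, hp3, ?_⟩
        rintro c (hc | ⟨hc1, _⟩) hcw
        · exact Or.inl (hp4 c hc hcw)
        · exact absurd (hc1 ▸ hwT) hv
      · refine ⟨a, Or.inr ⟨h1, I.refl a⟩, h1 ▸ hav, h1 ▸ hva, ?_⟩
        rintro c (hc | ⟨_, hc2⟩) hcw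
        · rw [h1] at hc hcw
          exact absurd (hlev' c hc) hcw
        · exact Or.inl hc2
    · -- star
      intro x y c d hx hy hcon hc hd hxc hyd
      have hxT : x ∉ T := fun h => hx (Finset.mem_insert_of_mem h)
      have hyT : y ∉ T := fun h => hy (Finset.mem_insert_of_mem h)
      have hcon' : dfsConn G T x y := dfsConn_mono (Finset.subset_insert v T) hcon
      rcases Finset.mem_insert.mp hc with h1 | h1
      · rcases Finset.mem_insert.mp hd with h2 | h2
        · rw [h1, h2]
          exact Or.inl (Or.inl (I.refl v))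
        · refine Or.inr (Or.inr ⟨h1, hmax' d h2 ⟨y, hyT, ?_, hyd⟩⟩)
          rw [h1] at hxc
          exact (hcv.tail ⟨hxc.symm, hv, hxT⟩).trans hcon'
      · rcases Finset.mem_insert.mp hd with h2 | h2
        · refine Or.inl (Or.inr ⟨h2, hmax' c h1 ⟨x, hxT, ?_, hxc⟩⟩)
          rw [h2] at hyd
          exact (hcv.tail ⟨hyd.symm, hv, hyT⟩).trans (dfsConn_symm hcon')
        · exact (I.star x y c d hxT hyT hcon' h1 h2 hxc hyd).imp Or.inl Or.inl
  · have hno : ∀ b ∈ T, ∀ y, y ∉ T → dfsConn G T x₀ y → ¬ G.Adj y b := by
      intro b hb y hy hc h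
      exact hA ⟨b, Finset.mem_filter.mpr ⟨hb, y, hy, hc, h⟩⟩
    refine ⟨x₀, le, hx₀, ?_⟩
    constructor
    · intro x y h
      rcases I.supp x y h with h1 | h1
      · exact Or.inl h1
      · exact Or.inr ⟨Finset.mem_insert_of_mem h1.1, Finset.mem_insert_of_mem h1.2⟩
    · exact I.refl
    · exact I.antisymm
    · exact I.trans
    · exact I.chain
    · intro x y hx hy hxy
      rcases Finset.mem_insert.mp hx with h1 | h1
      · rcases Finset.mem_insert.mp hy with h2 | h2
        · exact absurd (h1.trans h2.symm) hxy.ne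
        · rw [h1] at hxy
          exact absurd hxy (hno y h2 x₀ hx₀ Relation.ReflTransGen.refl)
      · rcases Finset.mem_insert.mp hy with h2 | h2
        · rw [h2] at hxy
          exact absurd hxy.symm (hno x h1 x₀ hx₀ Relation.ReflTransGen.refl)
        · exact I.comp x y h1 h2 hxy
    · exact I.parent
    · intro x y c d hx hy hcon hc hd hxc hyd
      have hxT : x ∉ T := fun h => hx (Finset.mem_insert_of_mem h)
      have hyT : y ∉ T := fun h => hy (Finset.mem_insert_of_mem h)
      have hcon' : dfsConn G T x y := dfsConn_mono (Finset.subset_insert x₀ T) hcon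
      rcases Finset.mem_insert.mp hc with h1 | h1
      · rcases Finset.mem_insert.mp hd with h2 | h2
        · rw [h1, h2]
          exact Or.inl (I.refl x₀)
        · exfalso
          rw [h1] at hxc
          exact hno d h2 y hyT ((Relation.ReflTransGen.single ⟨hxc.symm, hx₀, hxT⟩).trans hcon') hyd
      · rcases Finset.mem_insert.mp hd with h2 | h2
        · exfalso
          rw [h2] at hyd
          exact hno c h1 x hxT ((Relation.ReflTransGen.single ⟨hyd.symm, hx₀, hyT⟩).trans
            (dfsConn_symm hcon')) hxc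
        · exact I.star x y c d hxT hyT hcon' h1 h2 hxc hyd

theorem exists_normal (V : Type) [Finite V] (G : SimpleGraph V) :
    ∃ le : V → V → Prop, Normal G le := by
  classical
  have := Fintype.ofFinite V
  have key : ∀ k : ℕ, k ≤ Fintype.card V → ∃ (T : Finset V) (le : V → V → Prop),
      T.card = k ∧ DfsInv G T le := by
    intro k
    induction k with
    | zero =>
      intro _
      refine ⟨∅, Eq, rfl, ?_⟩
      constructor
      · exact fun x y h => Or.inl h
      · exact fun x => rfl
      · exact fun x y h _ => h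
      · exact fun x y z h h' => h.trans h'
      · exact fun a b x h h' => Or.inl (h.trans h'.symm)
      · exact fun x y hx => absurd hx (Finset.notMem_empty x)
      · exact fun v a h h' => absurd h h'
      · exact fun x y a b _ _ _ ha => absurd ha (Finset.notMem_empty a)
    | succ k ih =>
      intro hk
      obtain ⟨T, le, hT, I⟩ := ih (by omega)
      have hne : ∃ x₀, x₀ ∉ T := by
        by_contra h
        push Not at h
        have h1 : T = Finset.univ := Finset.eq_univ_iff_forall.mpr h
        rw [h1, Finset.card_univ] at hT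
        omega
      obtain ⟨x₀, hx₀⟩ := hne
      obtain ⟨v, le', hv, I'⟩ := dfs_step G T le I x₀ hx₀
      refine ⟨insert v T, le', ?_, ?_⟩
      · rw [Finset.card_insert_of_notMem hv, hT]
      · convert I'
  obtain ⟨T, le, hT, I⟩ := key (Fintype.card V) le_rfl
  have hTu : T = Finset.univ := (Finset.card_eq_iff_eq_univ T).mp hT
  subst hTu
  exact ⟨le, { refl := I.refl, antisymm := I.antisymm, trans := I.trans, chain := I.chain,
               comp := fun x y h => I.comp x y (Finset.mem_univ x) (Finset.mem_univ y) h,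
               parent := I.parent }⟩

end Pool.MP_33c730_lc
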