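import Pool.Agent.Lib.MP_33c730_lc.EFAlg

set_option autoImplicit false

namespace Pool.MP_33c730_lc

variable {C V : Type}

/-! ### Pump: ordered sums of equivalent blocks -/
/-- the blocks in the list come in this order and are not adjacent. -/
def Blocks (G : CG C V) (r : V → V → Prop) (Ws : List (Set V)) : Prop :=
  Ws.Pairwise fun A B => ∀ x ∈ A, ∀ y ∈ B, x ≠ y ∧ ¬ G.gr.Adj x y ∧ r x y ∧ ¬ r y x

/-- union of the sets in a list -/
def uni (Ws : List (Set V)) : Set V := {x | ∃ A ∈ Ws, x ∈ A}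

theorem uni_append (L₁ L₂ : List (Set V)) : uni (L₁ ++ L₂) = uni L₁ ∪ uni L₂ := by
  ext x
  constructor
  · rintro ⟨A, hA, hx⟩
    rcases List.mem_append.1 hA with h | h
    · exact Or.inl ⟨A, h, hx⟩
    · exact Or.inr ⟨A, h, hx⟩
  · rintro (⟨A, hA, hx⟩ | ⟨A, hA, hx⟩)
    · exact ⟨A, List.mem_append.2 (Or.inl hA), hx⟩
    · exact ⟨A, List.mem_append.2 (Or.inr hA), hx⟩

theorem uni_cons (A : Set V) (L : List (Set V)) : uni (A :: L) = A ∪ uni L := by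
  ext x
  constructor
  · rintro ⟨A', hA, hx⟩
    rcases List.mem_cons.1 hA with h | h
    · exact Or.inl (h ▸ hx)
    · exact Or.inr ⟨A', h, hx⟩
  · rintro (hx | ⟨A', hA, hx⟩)
    · exact ⟨A, List.mem_cons_self, hx⟩
    · exact ⟨A', List.mem_cons_of_mem _ hA, hx⟩

theorem pump_idx {p m m' i : ℕ} (h : m = m' ∨ (2 * p + 1 ≤ m ∧ 2 * p + 1 ≤ m')) (hi : i < m) :
    ∃ j, j < m' ∧ (i = j ∨ (p ≤ i ∧ p ≤ j)) ∧
      (m - 1 - i = m' - 1 - j ∨ (p ≤ m - 1 - i ∧ p ≤ m' - 1 - j)) := by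
  rcases h with h | ⟨h, h'⟩
  · exact ⟨i, by omega, by omega, by omega⟩
  · by_cases h1 : i < p
    · exact ⟨i, by omega, by omega, by omega⟩
    · by_cases h2 : m - 1 - i < p
      · exact ⟨m' - 1 - (m - 1 - i), by omega, by omega, by omega⟩
      · exact ⟨p, by omega, by omega, by omega⟩

theorem pump_forth {G : CG C V} {B : Set V} {r r' : V → V → Prop} {n : ℕ}
    (IH : ∀ (Ws Ws' : List (Set V)), Blocks G r Ws → Blocks G r' Ws' →
      (∀ A ∈ Ws, ∀ A' ∈ Ws', EF G B r r' A A' n []) →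
      (Ws.length = Ws'.length ∨ (2 ^ n - 1 ≤ Ws.length ∧ 2 ^ n - 1 ≤ Ws'.length)) →
      EF G B r r' (uni Ws) (uni Ws') n [])
    (Ws Ws' : List (Set V)) (hB : Blocks G r Ws) (hB' : Blocks G r' Ws')
    (hE : ∀ A ∈ Ws, ∀ A' ∈ Ws', EF G B r r' A A' (n + 1) [])
    (hl : Ws.length = Ws'.length ∨ (2 ^ (n + 1) - 1 ≤ Ws.length ∧ 2 ^ (n + 1) - 1 ≤ Ws'.length)) :
    ∀ x ∈ uni Ws, ∃ x' ∈ uni Ws', EF G B r r' (uni Ws) (uni Ws') n [(x, x')] := by
  rintro x ⟨A, hA, hx⟩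
  obtain ⟨L₁, L₂, rfl⟩ := List.append_of_mem hA
  have hp : 2 ^ (n + 1) - 1 = 2 * (2 ^ n - 1) + 1 := by
    have : 0 < 2 ^ n := by positivity
    rw [pow_succ]; omega
  rw [hp] at hl
  obtain ⟨j, hj, h1, h2⟩ := pump_idx hl (i := L₁.length) (by simp)
  obtain ⟨L₁', A', L₂', rfl, hj'⟩ : ∃ L₁' A' L₂', Ws' = L₁' ++ A' :: L₂' ∧ L₁'.length = j := by
    refine ⟨Ws'.take j, Ws'[j], Ws'.drop (j + 1), ?_, ?_⟩
    · rw [List.getElem_cons_drop, List.take_append_drop]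
    · rw [List.length_take]
      omega
  simp only [List.length_append, List.length_cons] at h2
  subst hj'
  have hA' : A' ∈ L₁' ++ A' :: L₂' := by simp
  obtain ⟨-, hf, -⟩ := hE A hA A' hA'
  obtain ⟨x', hx', hxx⟩ := hf x hx
  refine ⟨x', ⟨A', hA', hx'⟩, ?_⟩
  obtain ⟨b1, b2, b3⟩ := List.pairwise_append.1 hB
  obtain ⟨b1', b2', b3'⟩ := List.pairwise_append.1 hB'
  obtain ⟨b4, b5⟩ := List.pairwise_cons.1 b2
  obtain ⟨b4', b5'⟩ := List.pairwise_cons.1 b2'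
  have e1 : EF G B r r' (uni L₁) (uni L₁') n [] := by
    refine IH L₁ L₁' b1 b1' (fun D hD D' hD' => ?_) (by omega)
    exact (hE D (by simp [hD]) D' (by simp [hD'])).mono (Nat.le_succ n) (List.Subset.refl _)
  have e2 : EF G B r r' (uni L₂) (uni L₂') n [] := by
    refine IH L₂ L₂' b5 b5' (fun D hD D' hD' => ?_) (by omega)
    exact (hE D (by simp [hD]) D' (by simp [hD'])).mono (Nat.le_succ n) (List.Subset.refl _)
  have e3 : EF G B r r' (A ∪ uni L₂) (A' ∪ uni L₂') n [(x, x')] := by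
    refine EF.sum ?_ ?_ hxx e2 ?_ ?_ ?_
    · rintro y hy z ⟨D, hD, hz⟩
      exact b4 D hD y hy z hz
    · rintro y hy z ⟨D, hD, hz⟩
      exact b4' D hD y hy z hz
    · intro p hp
      rw [List.mem_singleton] at hp
      subst hp
      exact ⟨hx, hx'⟩
    · intro p hp
      simp at hp
    · intro p hp
      exact Or.inl hp
  rw [uni_append, uni_append, uni_cons, uni_cons]
  refine EF.sum ?_ ?_ e1 e3 ?_ ?_ ?_
  · rintro y ⟨D, hD, hy⟩ z (hz | ⟨D', hD', hz⟩)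
    · exact b3 D hD A (by simp) y hy z hz
    · exact b3 D hD D' (by simp [hD']) y hy z hz
  · rintro y ⟨D, hD, hy⟩ z (hz | ⟨D', hD', hz⟩)
    · exact b3' D hD A' (by simp) y hy z hz
    · exact b3' D hD D' (by simp [hD']) y hy z hz
  · intro p hp
    simp at hp
  · intro p hp
    rw [List.mem_singleton] at hp
    subst hp
    exact ⟨Or.inl hx, Or.inl hx'⟩
  · intro p hp
    exact Or.inr hp

theorem pump_all {G : CG C V} {B : Set V} (n : ℕ) : ∀ (r r' : V → V → Prop)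
    (Ws Ws' : List (Set V)), Blocks G r Ws → Blocks G r' Ws' →
    (∀ A ∈ Ws, ∀ A' ∈ Ws', EF G B r r' A A' n []) →
    (Ws.length = Ws'.length ∨ (2 ^ n - 1 ≤ Ws.length ∧ 2 ^ n - 1 ≤ Ws'.length)) →
    EF G B r r' (uni Ws) (uni Ws') n [] := by
  induction n with
  | zero =>
    intro r r' Ws Ws' _ _ _ _ p hp
    simp at hp
  | succ n ih =>
    intro r r' Ws Ws' hB hB' hE hl
    refine ⟨fun p hp => by simp at hp, pump_forth (ih r r') Ws Ws' hB hB' hE hl, ?_⟩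
    intro x' hx'
    obtain ⟨x, hx, h⟩ := pump_forth (ih r' r) Ws' Ws hB' hB
      (fun A' hA' A hA => (hE A hA A' hA').symm)
      (by rcases hl with h | ⟨h, h'⟩
          · exact Or.inl h.symm
          · exact Or.inr ⟨h', h⟩) x' hx'
    exact ⟨x, hx, h.symm⟩

theorem EF.pump {G : CG C V} {B : Set V} {r r' : V → V → Prop} (n : ℕ) :
    ∀ (Ws Ws' : List (Set V)), Blocks G r Ws → Blocks G r' Ws' →
    (∀ A ∈ Ws, ∀ A' ∈ Ws', EF G B r r' A A' n []) →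
    (Ws.length = Ws'.length ∨ (2 ^ n - 1 ≤ Ws.length ∧ 2 ^ n - 1 ≤ Ws'.length)) →
    EF G B r r' (uni Ws) (uni Ws') n [] := pump_all n r r'

end Pool.MP_33c730_lc
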