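import Pool.Agent.Lib.MP_33c730_lc.Pump
import Pool.Agent.Lib.MP_33c730_lc.Tree

set_option autoImplicit false

namespace Pool.MP_33c730_lc

variable {C V : Type}

/-! ### Sound: the reduced tree is EF equivalent to the whole graph for a suitable order -/

/-- strict total order on a set -/
private def TotOn (W : Set V) (r : V → V → Prop) : Prop :=
  (∀ x ∈ W, ¬ r x x) ∧ (∀ x ∈ W, ∀ y ∈ W, ∀ z ∈ W, r x y → r y z → r x z) ∧
    ∀ x ∈ W, ∀ y ∈ W, x ≠ y → r x y ∨ r y x

/-- glueing orders -/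
private def glue (W₁ W₂ : Set V) (r₁ r₂ : V → V → Prop) (x y : V) : Prop :=
  (x ∈ W₁ ∧ y ∈ W₁ ∧ r₁ x y) ∨ (x ∈ W₁ ∧ y ∈ W₂) ∨ (x ∈ W₂ ∧ y ∈ W₂ ∧ r₂ x y)

private theorem glue_left {W₁ W₂ : Set V} {r₁ r₂ : V → V → Prop}
    (hd : ∀ x ∈ W₁, x ∉ W₂) : ∀ x ∈ W₁, ∀ y ∈ W₁, (r₁ x y ↔ glue W₁ W₂ r₁ r₂ x y) := by
  intro x hx y hy
  have h1 := hd x hx
  have h2 := hd y hy
  simp only [glue]
  tauto

private theorem glue_right {W₁ W₂ : Set V} {r₁ r₂ : V → V → Prop}
    (hd : ∀ x ∈ W₁, x ∉ W₂) : ∀ x ∈ W₂, ∀ y ∈ W₂, (r₂ x y ↔ glue W₁ W₂ r₁ r₂ x y) := by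
  intro x hx y hy
  have h1 : x ∉ W₁ := fun h => hd x h hx
  simp only [glue]
  tauto

private theorem glue_lt {W₁ W₂ : Set V} {r₁ r₂ : V → V → Prop}
    (hd : ∀ x ∈ W₁, x ∉ W₂) : ∀ x ∈ W₁, ∀ y ∈ W₂, glue W₁ W₂ r₁ r₂ x y ∧
      ¬ glue W₁ W₂ r₁ r₂ y x := by
  intro x hx y hy
  have h1 : y ∉ W₁ := fun h => hd y h hy
  have h2 := hd x hx
  simp only [glue]
  tauto

private theorem TotOn.glue {W₁ W₂ : Set V} {r₁ r₂ : V → V → Prop} (h₁ : TotOn W₁ r₁)
    (h₂ : TotOn W₂ r₂) (hd : ∀ x ∈ W₁, x ∉ W₂) : TotOn (W₁ ∪ W₂) (glue W₁ W₂ r₁ r₂) := by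
  have gl := glue_left (r₁ := r₁) (r₂ := r₂) hd
  have gr := glue_right (r₁ := r₁) (r₂ := r₂) hd
  have gt := glue_lt (r₁ := r₁) (r₂ := r₂) hd
  refine ⟨?_, ?_, ?_⟩
  · rintro x (hx | hx)
    · rw [← gl x hx x hx]; exact h₁.1 x hx
    · rw [← gr x hx x hx]; exact h₂.1 x hx
  · rintro x (hx | hx) y (hy | hy) z (hz | hz) hxy hyz
    · rw [← gl x hx y hy] at hxy
      rw [← gl y hy z hz] at hyz
      rw [← gl x hx z hz]
      exact h₁.2.1 x hx y hy z hz hxy hyz
    · exact (gt x hx z hz).1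
    · exact absurd hyz (gt z hz y hy).2
    · exact (gt x hx z hz).1
    · exact absurd hxy (gt y hy x hx).2
    · exact absurd hxy (gt y hy x hx).2
    · exact absurd hyz (gt z hz y hy).2
    · rw [← gr x hx y hy] at hxy
      rw [← gr y hy z hz] at hyz
      rw [← gr x hx z hz]
      exact h₂.2.1 x hx y hy z hz hxy hyz
  · rintro x (hx | hx) y (hy | hy) hne
    · rw [← gl x hx y hy, ← gl y hy x hx]
      exact h₁.2.2 x hx y hy hne
    · exact Or.inl (gt x hx y hy).1
    · exact Or.inr (gt y hy x hx).1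
    · rw [← gr x hx y hy, ← gr y hy x hx]
      exact h₂.2.2 x hx y hy hne

/-- union of a family over a set -/
private def U (S : Set V) (f : V → Set V) : Set V := {x | ∃ c ∈ S, x ∈ f c}

private theorem uni_map (l : List V) (f : V → Set V) (S : Set V) (h : ∀ x, x ∈ l ↔ x ∈ S) :
    uni (l.map f) = U S f := by
  ext x
  simp only [uni, U, List.mem_map, Set.mem_ofPred_eq]
  constructor
  · rintro ⟨A, ⟨c, hc, rfl⟩, hx⟩
    exact ⟨c, (h c).1 hc, hx⟩
  · rintro ⟨c, hc, hx⟩
    exact ⟨f c, ⟨c, (h c).2 hc, rfl⟩, hx⟩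

private theorem EF_empty (G : CG C V) (B : Set V) (r r' : V → V → Prop) (n : ℕ) :
    EF G B r r' ∅ ∅ n [] := by
  cases n with
  | zero => intro p hp; simp at hp
  | succ n => exact ⟨fun p hp => by simp at hp, fun x hx => by simp at hx, fun x hx => by simp at hx⟩

/-- blocks in a list -/
private theorem list_glue (G : CG C V) (f : V → Set V) (rc : V → V → V → Prop) :
    ∀ l : List V, l.Pairwise (fun c c' => ∀ x ∈ f c, ∀ y ∈ f c', x ≠ y ∧ ¬ G.gr.Adj x y) →
    (∀ c ∈ l, TotOn (f c) (rc c)) →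
    ∃ r : V → V → Prop, TotOn (uni (l.map f)) r ∧ Blocks G r (l.map f) ∧
      ∀ c ∈ l, ∀ x ∈ f c, ∀ y ∈ f c, (rc c x y ↔ r x y) := by
  intro l
  induction l with
  | nil =>
    intro _ _
    refine ⟨fun _ _ => False, ⟨?_, ?_, ?_⟩, ?_, ?_⟩
    · intro x hx; simp [uni] at hx
    · intro x hx; simp [uni] at hx
    · intro x hx; simp [uni] at hx
    · simp [Blocks]
    · intro c hc; simp at hc
  | cons c l ih =>
    intro hp hT
    rw [List.pairwise_cons] at hp
    obtain ⟨r, h1, h2, h3⟩ := ih hp.2 (fun c hc => hT c (List.mem_cons_of_mem _ hc))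
    have hd : ∀ x ∈ f c, x ∉ uni (l.map f) := by
      rintro x hx ⟨A, hA, hxA⟩
      obtain ⟨c', hc', rfl⟩ := List.mem_map.1 hA
      exact (hp.1 c' hc' x hx x hxA).1 rfl
    have hu : uni ((c :: l).map f) = f c ∪ uni (l.map f) := by
      ext x
      simp [uni]
    have hr := glue_right (r₁ := rc c) (r₂ := r) hd
    have hl := glue_left (r₁ := rc c) (r₂ := r) hd
    have hlt := glue_lt (r₁ := rc c) (r₂ := r) hd
    have hin : ∀ c' ∈ l, ∀ x ∈ f c', x ∈ uni (l.map f) := fun c' hc' x hx =>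
      ⟨f c', List.mem_map.2 ⟨c', hc', rfl⟩, hx⟩
    refine ⟨glue (f c) (uni (l.map f)) (rc c) r, ?_, ?_, ?_⟩
    · rw [hu]
      exact (hT c List.mem_cons_self).glue h1 hd
    · rw [List.map_cons]
      refine List.pairwise_cons.2 ⟨?_, ?_⟩
      · intro A hA x hx y hy
        obtain ⟨c', hc', rfl⟩ := List.mem_map.1 hA
        obtain ⟨e1, e2⟩ := hp.1 c' hc' x hx y hy
        obtain ⟨e3, e4⟩ := hlt x hx y (hin c' hc' y hy)
        exact ⟨e1, e2, e3, e4⟩
      · refine List.Pairwise.imp_of_mem ?_ h2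
        intro A A' hA hA' h x hx y hy
        obtain ⟨e1, e2, e3, e4⟩ := h x hx y hy
        have hx' : x ∈ uni (l.map f) := ⟨A, hA, hx⟩
        have hy' : y ∈ uni (l.map f) := ⟨A', hA', hy⟩
        exact ⟨e1, e2, (hr x hx' y hy').1 e3, fun h => e4 ((hr y hy' x hx').2 h)⟩
    · intro c' hc' x hx y hy
      rcases List.mem_cons.1 hc' with rfl | hc'
      · exact hl x hx y hy
      · rw [h3 c' hc' x hx y hy]
        exact hr x (hin c' hc' x hx) y (hin c' hc' y hy)

/-- sorting a finite set by an injective function -/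
private theorem sorted_list (k : V → ℕ) (s : Finset V)
    (hk : ∀ x ∈ s, ∀ y ∈ s, x ≠ y → k x ≠ k y) :
    ∃ l : List V, (∀ x, x ∈ l ↔ x ∈ s) ∧ l.Pairwise (fun a b => k a < k b) := by
  classical
  induction s using Finset.induction_on_max_value k with
  | empty => exact ⟨[], by simp, List.Pairwise.nil⟩
  | insert a s ha hmax ih =>
    obtain ⟨l, h1, h2⟩ := ih (fun x hx y hy => hk x (Finset.mem_insert_of_mem hx) y
      (Finset.mem_insert_of_mem hy))
    refine ⟨l ++ [a], ?_, ?_⟩
    · intro x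
      rw [List.mem_append, h1, List.mem_singleton, Finset.mem_insert]
      tauto
    · rw [List.pairwise_append]
      refine ⟨h2, List.pairwise_singleton _ _, ?_⟩
      intro x hx y hy
      rw [List.mem_singleton] at hy
      subst hy
      have hx' := (h1 x).1 hx
      have hne : x ≠ y := fun h => ha (h ▸ hx')
      exact lt_of_le_of_ne (hmax x hx') (hk x (Finset.mem_insert_of_mem hx') y
        (Finset.mem_insert_self _ _) hne)

private theorem exists_max (T : V → V → Prop) (s : Finset V) (hs : s.Nonempty)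
    (htot : ∀ x ∈ s, ∀ y ∈ s, T x y ∨ T y x)
    (htr : ∀ x ∈ s, ∀ y ∈ s, ∀ z ∈ s, T x y → T y z → T x z) : ∃ c ∈ s, ∀ x ∈ s, T x c := by
  classical
  induction s using Finset.induction_on with
  | empty => simp at hs
  | insert a s ha ih =>
    rcases s.eq_empty_or_nonempty with rfl | hne
    · refine ⟨a, by simp, ?_⟩
      intro x hx
      have : x = a := by simpa using hx
      subst this
      rcases htot x hx x hx with h | h <;> exact h
    · obtain ⟨c, hc, hmax⟩ := ih hne
        (fun x hx y hy => htot x (Finset.mem_insert_of_mem hx) y (Finset.mem_insert_of_mem hy))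
        (fun x hx y hy z hz => htr x (Finset.mem_insert_of_mem hx) y (Finset.mem_insert_of_mem hy) z
          (Finset.mem_insert_of_mem hz))
      have hc' := Finset.mem_insert_of_mem (a := c) (b := a) hc
      have ha' := Finset.mem_insert_self a s
      rcases htot a ha' c hc' with h | h
      · refine ⟨c, hc', ?_⟩
        intro x hx
        rcases Finset.mem_insert.1 hx with rfl | hx
        · exact h
        · exact hmax x hx
      · refine ⟨a, ha', ?_⟩
        intro x hx
        rcases Finset.mem_insert.1 hx with rfl | hx'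
        · rcases htot x hx x hx with h | h <;> exact h
        · exact htr x hx c hc' a ha' (hmax x hx') h

/-! #### tree lemmas -/

private theorem exists_least [Finite V] {G : SimpleGraph V} {le : V → V → Prop} (hF : Forest G le)
    (x : V) (P : V → Prop) (hne : ∃ w, le w x ∧ P w) :
    ∃ c, le c x ∧ P c ∧ ∀ w, le w x → P w → le c w := by
  obtain ⟨c, hc, hmin⟩ := (Set.toFinite {w | le w x ∧ P w}).exists_minimalFor
    (fun w => (anc le w).ncard) _ hne
  refine ⟨c, hc.1, hc.2, ?_⟩
  intro w hw hPw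
  rcases hF.chain c w x hc.1 hw with h | h
  · exact h
  · by_cases hcw : w = c
    · subst hcw; exact hF.refl w
    · exfalso
      have h1 : anc le w ⊂ anc le c := by
        constructor
        · rintro a ⟨ha, hne'⟩
          refine ⟨hF.trans a w c ha h, ?_⟩
          rintro rfl
          exact hne' (hF.antisymm _ _ ha h)
        · intro hsub
          exact (hsub ⟨h, hcw⟩ : w ∈ anc le w).2 rfl
      have h2 := Set.ncard_lt_ncard h1 (Set.toFinite _)
      have h3 := hmin ⟨hw, hPw⟩ h2.le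
      simp only at h3
      omega

/-- children -/
private def child (le : V → V → Prop) (v c : V) : Prop := anc le c = insert v (anc le v)

private theorem child_le {le : V → V → Prop} {v c : V} (h : child le v c) : le v c ∧ v ≠ c := by
  have : v ∈ anc le c := by rw [h]; exact Set.mem_insert _ _
  exact this

private theorem exists_child [Finite V] {G : SimpleGraph V} {le : V → V → Prop} (hF : Forest G le)
    {v x : V} (h : le v x) (hne : x ≠ v) : ∃ c, child le v c ∧ le c x := by
  obtain ⟨c, hcx, ⟨hvc, hcv⟩, hmin⟩ := exists_least hF x (fun w => le v w ∧ w ≠ v)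
    ⟨x, hF.refl x, h, hne⟩
  refine ⟨c, ?_, hcx⟩
  ext a
  simp only [anc, Set.mem_insert_iff, Set.mem_ofPred_eq]
  constructor
  · rintro ⟨hac, hne'⟩
    by_cases hav : a = v
    · exact Or.inl hav
    · right
      refine ⟨?_, hav⟩
      rcases hF.chain a v c hac hvc with h1 | h1
      · exact h1
      · exact absurd (hF.antisymm _ _ hac (hmin a (hF.trans a c x hac hcx) ⟨h1, hav⟩)) hne'
  · rintro (rfl | ⟨hav, hne'⟩)
    · exact ⟨hvc, hcv.symm⟩
    · refine ⟨hF.trans a v c hav hvc, ?_⟩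
      rintro rfl
      exact hcv (hF.antisymm _ _ hav hvc)

private theorem exists_root [Finite V] {G : SimpleGraph V} {le : V → V → Prop} (hF : Forest G le)
    (x : V) : ∃ c, anc le c = ∅ ∧ le c x := by
  obtain ⟨c, hcx, -, hmin⟩ := exists_least hF x (fun _ => True) ⟨x, hF.refl x, trivial⟩
  refine ⟨c, ?_, hcx⟩
  ext a
  simp only [anc, Set.mem_ofPred_eq, Set.mem_empty_iff_false, iff_false, not_and, not_not]
  intro hac
  exact hF.antisymm _ _ hac (hmin a (hF.trans a c x hac hcx) trivial)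

private theorem sib_iff {le : V → V → Prop} {c c' : V} : sib le c c' ↔ anc le c = anc le c' := by
  constructor
  · intro h
    ext a
    exact h a
  · intro h a
    have := Set.ext_iff.1 h a
    exact this

private theorem kp_sub {le : V → V → Prop} {K : Set V} {c : V} : kp le K c ⊆ sub le c :=
  fun _ hx => hx.1

private theorem sub_eq [Finite V] {G : SimpleGraph V} {le : V → V → Prop} (hF : Forest G le)
    (v : V) : sub le v = insert v (U {c | child le v c} (sub le)) := by
  ext x
  simp only [sub, U, Set.mem_insert_iff, Set.mem_ofPred_eq]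
  constructor
  · intro h
    by_cases hne : x = v
    · exact Or.inl hne
    · right
      exact exists_child hF h hne
  · rintro (rfl | ⟨c, hc, hcx⟩)
    · exact hF.refl x
    · exact hF.trans _ _ _ (child_le hc).1 hcx

private theorem kp_eq [Finite V] {G : SimpleGraph V} {le : V → V → Prop} (hF : Forest G le)
    (K : Set V) (v : V) :
    kp le K v = insert v (U ({c | child le v c} ∩ K) (kp le K)) := by
  ext x
  simp only [kp, U, Set.mem_insert_iff, Set.mem_ofPred_eq, Set.mem_inter_iff]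
  constructor
  · rintro ⟨h, hk⟩
    by_cases hne : x = v
    · exact Or.inl hne
    · right
      obtain ⟨c, hc, hcx⟩ := exists_child hF h hne
      have h1 := child_le hc
      refine ⟨c, ⟨hc, hk c h1.1 h1.2.symm hcx⟩, hcx, ?_⟩
      intro w hcw hne' hwx
      refine hk w (hF.trans _ _ _ h1.1 hcw) ?_ hwx
      rintro rfl
      exact h1.2 (hF.antisymm _ _ h1.1 hcw)
  · rintro (rfl | ⟨c, ⟨hc, hcK⟩, hcx, hk⟩)
    · exact ⟨hF.refl x, fun w h1 h2 h3 => absurd (hF.antisymm _ _ h3 h1) h2⟩
    · have h1 := child_le hc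
      refine ⟨hF.trans _ _ _ h1.1 hcx, ?_⟩
      intro w hvw hwv hwx
      rcases hF.chain c w x hcx hwx with h2 | h2
      · by_cases h3 : w = c
        · subst h3; exact hcK
        · exact hk w h2 h3 hwx
      · by_cases h3 : w = c
        · subst h3; exact hcK
        · have : w ∈ anc le c := ⟨h2, h3⟩
          rw [hc] at this
          rcases this with h4 | h4
          · exact absurd h4 hwv
          · exact absurd (hF.antisymm _ _ h4.1 hvw) h4.2

private theorem kpAll_eq [Finite V] {G : SimpleGraph V} {le : V → V → Prop} (hF : Forest G le)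
    (K : Set V) : kpAll le K = U ({c | anc le c = ∅} ∩ K) (kp le K) := by
  ext x
  simp only [kp, kpAll, U, Set.mem_ofPred_eq, Set.mem_inter_iff]
  constructor
  · intro hk
    obtain ⟨c, hc, hcx⟩ := exists_root hF x
    exact ⟨c, ⟨hc, hk c hcx⟩, hcx, fun w _ _ h => hk w h⟩
  · rintro ⟨c, ⟨hc, hcK⟩, hcx, hk⟩ w hwx
    by_cases h3 : w = c
    · subst h3; exact hcK
    · rcases hF.chain c w x hcx hwx with h2 | h2
      · exact hk w h2 h3 hwx
      · have : w ∈ anc le c := ⟨h2, h3⟩
        rw [hc] at this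
        exact absurd this (by simp)

/-- the claim for one subtree -/
private def PC (G : CG C V) (le : V → V → Prop) (K : Set V) (k1 k2 : V → ℕ) (q : ℕ) (c : V) :
    Prop :=
  ∃ r, TotOn (sub le c) r ∧ EF G (anc le c) r (dlt G.gr le k1 k2) (sub le c) (kp le K c) q []

private theorem EF.trans0 {G : CG C V} {B : Set V} {r r' r'' : V → V → Prop} {W W' W'' : Set V}
    {n : ℕ} (h : EF G B r r' W W' n []) (h' : EF G B r' r'' W' W'' n []) :
    EF G B r r'' W W'' n [] := by
  have := EF.trans (G := G) (B := B) (r := r) (r' := r') (r'' := r'') (W := W) (W' := W')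
    (W'' := W'') (n := n) [] (by simpa using h) (by simpa using h')
  simpa using this

private theorem EF.congr0 {G : CG C V} {B : Set V} {r r' s s' : V → V → Prop} {W W' : Set V} {n : ℕ}
    (h : EF G B r r' W W' n [])
    (hr : ∀ x ∈ W, ∀ y ∈ W, (r x y ↔ s x y)) (hr' : ∀ x ∈ W', ∀ y ∈ W', (r' x y ↔ s' x y)) :
    EF G B s s' W W' n [] :=
  h.congr (fun p hp => by simp at hp) hr hr'

private theorem class_lemma [Finite V] {G : CG C V} {le : V → V → Prop} {K : Set V} {k1 k2 : V → ℕ}
    {q : ℕ} (hF : Forest G.gr le) (hL : Legit G le K k1 k2 q) (c₀ : V) (γ : Finset V)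
    (hγ : ∀ c, c ∈ γ ↔ sib le c₀ c ∧ nbEq G.gr le c₀ c ∧ k1 c₀ = k1 c)
    (hP : ∀ c ∈ γ, PC G le K k1 k2 q c) :
    ∃ r, TotOn (U (γ : Set V) (sub le)) r ∧
      EF G (anc le c₀) r (dlt G.gr le k1 k2) (U (γ : Set V) (sub le))
        (U ((γ : Set V) ∩ K) (kp le K)) q [] := by
  classical
  have hsib : ∀ c ∈ γ, ∀ c' ∈ γ, sib le c c' := fun c hc c' hc' =>
    sib_trans (sib_symm ((hγ c).1 hc).1) ((hγ c').1 hc').1
  have hnb : ∀ c ∈ γ, ∀ c' ∈ γ, nbEq G.gr le c c' := fun c hc c' hc' a =>
    (((hγ c).1 hc).2.1 a).symm.trans (((hγ c').1 hc').2.1 a)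
  have hk1 : ∀ c ∈ γ, ∀ c' ∈ γ, k1 c = k1 c' := fun c hc c' hc' =>
    ((hγ c).1 hc).2.2.symm.trans ((hγ c').1 hc').2.2
  choose! rc hrc1 hrc2 using hP
  -- left side
  have hl1 : ∀ x, x ∈ γ.toList ↔ x ∈ (γ : Set V) := by intro x; simp
  have hpw : γ.toList.Pairwise
      (fun c c' => ∀ x ∈ sub le c, ∀ y ∈ sub le c', x ≠ y ∧ ¬ G.gr.Adj x y) := by
    refine List.Pairwise.imp_of_mem ?_ γ.nodup_toList
    intro c c' hc hc' hne x hx y hy
    have := sib_sub hF (hsib c (by simpa using hc) c' (by simpa using hc')) hne hx hy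
    exact ⟨this.1, this.2.1⟩
  obtain ⟨r, hr1, hr2, hr3⟩ := list_glue G (sub le) rc γ.toList hpw
    (fun c hc => hrc1 c (by simpa using hc))
  rw [uni_map _ _ _ hl1] at hr1
  refine ⟨r, hr1, ?_⟩
  -- right side
  obtain ⟨l', hl', hs'⟩ := sorted_list k2 (γ.filter (· ∈ K)) (by
    intro x hx y hy hne
    rw [Finset.mem_filter] at hx hy
    exact hL.inj x hx.2 y hy.2 hne (hsib x hx.1 y hy.1) (hnb x hx.1 y hy.1) (hk1 x hx.1 y hy.1))
  have hl'' : ∀ x, x ∈ l' ↔ x ∈ ((γ : Set V) ∩ K) := by
    intro x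
    rw [hl', Finset.mem_filter]
    simp
  have hblocks' : Blocks G (dlt G.gr le k1 k2) (l'.map (kp le K)) := by
    refine List.pairwise_map.2 ?_
    refine List.Pairwise.imp_of_mem ?_ hs'
    intro c c' hc hc' hlt x hx y hy
    have hcγ := ((hl'' c).1 hc).1
    have hcγ' := ((hl'' c').1 hc').1
    have hcγ : c ∈ γ := hcγ
    have hcγ' : c' ∈ γ := hcγ'
    have hne : c ≠ c' := by rintro rfl; exact lt_irrefl _ hlt
    have h1 := sib_sub hF (hsib c hcγ c' hcγ') hne (kp_sub hx) (kp_sub hy)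
    have hs : slt G.gr le k1 k2 c c' := Or.inr ⟨hnb c hcγ c' hcγ', Or.inr ⟨hk1 c hcγ c' hcγ', hlt⟩⟩
    have hns : ¬ slt G.gr le k1 k2 c' c := by
      rintro (h | ⟨-, h | h⟩)
      · exact nbLt_irrefl c' c (hnb c' hcγ' c hcγ) h
      · rw [hk1 c' hcγ' c hcγ] at h; exact lt_irrefl _ h
      · exact lt_asymm hlt h.2
    have h2 := dlt_sib hF (hsib c hcγ c' hcγ') hs hns (kp_sub hx) (kp_sub hy)
    exact ⟨h1.1, h1.2.1, h2.1, h2.2⟩
  rw [← uni_map _ _ _ hl1, ← uni_map _ _ _ hl'']
  refine EF.pump q _ _ hr2 hblocks' ?_ ?_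
  · intro A hA A' hA'
    obtain ⟨c, hc, rfl⟩ := List.mem_map.1 hA
    obtain ⟨c', hc', rfl⟩ := List.mem_map.1 hA'
    have hcγ : c ∈ γ := by simpa using hc
    have hcγ' : c' ∈ γ := ((hl'' c').1 hc').1
    have e : anc le c = anc le c₀ := sib_iff.1 (sib_symm ((hγ c).1 hcγ).1)
    have h1 := EF.congr0 (hrc2 c hcγ) (hr3 c hc) (fun x _ y _ => Iff.rfl)
    have h2 := hL.same c c' (hsib c hcγ c' hcγ') (hnb c hcγ c' hcγ') (hk1 c hcγ c' hcγ')
    rw [e] at h1 h2
    exact h1.trans0 h2
  · rw [List.length_map, List.length_map, Finset.length_toList]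
    have hlen : l'.length = (γ.filter (· ∈ K)).card := by
      have hnd : l'.Nodup := by
        refine List.Pairwise.imp ?_ hs'
        intro a b hab
        rintro rfl
        exact lt_irrefl _ hab
      rw [← List.toFinset_card_of_nodup hnd]
      congr 1
      ext x
      rw [List.mem_toFinset, hl']
    rw [hlen]
    by_cases hall : ∀ c ∈ γ, c ∈ K
    · left
      rw [Finset.filter_true_of_mem hall]
    · right
      push Not at hall
      obtain ⟨c, hc, hcK⟩ := hall
      obtain ⟨f, hf, hf'⟩ := hL.drop c hcK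
      have h1 : 2 ^ q ≤ (γ.filter (· ∈ K)).card := by
        have h2 : (Finset.univ.image f).card = 2 ^ q := by
          rw [Finset.card_image_of_injective _ hf]; simp
        rw [← h2]
        apply Finset.card_le_card
        intro x hx
        obtain ⟨i, -, rfl⟩ := Finset.mem_image.1 hx
        obtain ⟨g1, g2, g3, g4⟩ := hf' i
        rw [Finset.mem_filter, hγ]
        have hc' := (hγ c).1 hc
        exact ⟨⟨sib_trans hc'.1 g2, fun a => (hc'.2.1 a).trans (g3 a), hc'.2.2.trans g4⟩, g1⟩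
      have h3 := Finset.card_le_card (Finset.filter_subset (· ∈ K) γ)
      omega

private theorem group_lemma [Finite V] {G : CG C V} {le : V → V → Prop} {K : Set V} {k1 k2 : V → ℕ}
    {q : ℕ} (hF : Forest G.gr le) (hL : Legit G le K k1 k2 q) (B : Set V) :
    ∀ (n : ℕ) (S : Finset V), S.card = n → (∀ c ∈ S, anc le c = B) →
    (∀ c ∈ S, ∀ c', sib le c c' → nbEq G.gr le c c' → k1 c = k1 c' → c' ∈ S) →
    (∀ c ∈ S, PC G le K k1 k2 q c) →
    ∃ r, TotOn (U (S : Set V) (sub le)) r ∧
      EF G B r (dlt G.gr le k1 k2) (U (S : Set V) (sub le)) (U ((S : Set V) ∩ K) (kp le K)) q [] := by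
  classical
  intro n
  induction n using Nat.strong_induction_on with
  | _ n ih =>
    intro S hSn hB hcl hP
    rcases S.eq_empty_or_nonempty with rfl | hne
    · refine ⟨fun _ _ => False, ⟨?_, ?_, ?_⟩, ?_⟩
      · intro x hx; simp [U] at hx
      · intro x hx; simp [U] at hx
      · intro x hx; simp [U] at hx
      · have e1 : U ((∅ : Finset V) : Set V) (sub le) = ∅ := by ext x; simp [U]
        have e2 : U (((∅ : Finset V) : Set V) ∩ K) (kp le K) = ∅ := by ext x; simp [U]
        rw [e1, e2]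
        exact EF_empty G B _ _ q
    · have hsib : ∀ c ∈ S, ∀ c' ∈ S, sib le c c' := fun c hc c' hc' =>
        sib_iff.2 ((hB c hc).trans (hB c' hc').symm)
      let T : V → V → Prop := fun x y => nbLt G.gr le x y ∨ (nbEq G.gr le x y ∧ k1 x ≤ k1 y)
      have hsymm : ∀ x y, nbEq G.gr le x y → nbEq G.gr le y x := fun x y h a => (h a).symm
      obtain ⟨c₀, hc₀, hmax⟩ := exists_max T S hne (by
          intro x hx y hy
          rcases nbLt_total hF (hsib x hx y hy) with h | h | h
          · exact Or.inl (Or.inl h)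
          · rcases le_total (k1 x) (k1 y) with h' | h'
            · exact Or.inl (Or.inr ⟨h, h'⟩)
            · exact Or.inr (Or.inr ⟨hsymm _ _ h, h'⟩)
          · exact Or.inr (Or.inl h)) (by
          intro x hx y hy z hz hxy hyz
          rcases hxy with h | h
          · rcases hyz with h' | h'
            · exact Or.inl (nbLt_trans hF (hsib x hx y hy) (hsib y hy z hz) h h')
            · exact Or.inl (nbLt_congr_right h'.1 h)
          · rcases hyz with h' | h'
            · exact Or.inl (nbLt_congr_left (hsymm _ _ h.1) h')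
            · exact Or.inr ⟨fun a => (h.1 a).trans (h'.1 a), h.2.trans h'.2⟩)
      let γ : Finset V := S.filter fun c => nbEq G.gr le c₀ c ∧ k1 c₀ = k1 c
      have hγ : ∀ c, c ∈ γ ↔ sib le c₀ c ∧ nbEq G.gr le c₀ c ∧ k1 c₀ = k1 c := by
        intro c
        simp only [γ, Finset.mem_filter]
        constructor
        · rintro ⟨h1, h2⟩
          exact ⟨hsib c₀ hc₀ c h1, h2⟩
        · rintro ⟨h1, h2⟩
          exact ⟨hcl c₀ hc₀ c h1 h2.1 h2.2, h2⟩
      have hγS : γ ⊆ S := Finset.filter_subset _ _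
      have hc₀γ : c₀ ∈ γ := (hγ c₀).2 ⟨sib_refl c₀, fun a => Iff.rfl, rfl⟩
      obtain ⟨r₂, hr₂, hE₂⟩ := class_lemma hF hL c₀ γ hγ (fun c hc => hP c (hγS hc))
      rw [hB c₀ hc₀] at hE₂
      let S' : Finset V := S \ γ
      have hS'card : S'.card < n := by
        rw [← hSn]
        apply Finset.card_lt_card
        rw [Finset.ssubset_iff_subset_ne]
        refine ⟨Finset.sdiff_subset, ?_⟩
        intro h
        have : c₀ ∈ S' := by rw [h]; exact hc₀
        exact (Finset.mem_sdiff.1 this).2 hc₀γ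
      obtain ⟨r₁, hr₁, hE₁⟩ := ih S'.card hS'card S' rfl
        (fun c hc => hB c (Finset.mem_sdiff.1 hc).1)
        (by
          intro c hc c' h1 h2 h3
          obtain ⟨hcS, hcγ⟩ := Finset.mem_sdiff.1 hc
          refine Finset.mem_sdiff.2 ⟨hcl c hcS c' h1 h2 h3, ?_⟩
          intro hc'γ
          apply hcγ
          obtain ⟨g1, g2, g3⟩ := (hγ c').1 hc'γ
          exact (hγ c).2 ⟨sib_trans g1 (sib_symm h1), fun a => (g2 a).trans (h2 a).symm,
            g3.trans h3.symm⟩)
        (fun c hc => hP c (Finset.mem_sdiff.1 hc).1)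
      have hlt : ∀ c ∈ S', ∀ c' ∈ γ, c ≠ c' ∧ slt G.gr le k1 k2 c c' ∧ ¬ slt G.gr le k1 k2 c' c := by
        intro c hc c' hc'
        obtain ⟨hcS, hcγ⟩ := Finset.mem_sdiff.1 hc
        obtain ⟨g1, g2, g3⟩ := (hγ c').1 hc'
        have hne' : c ≠ c' := by rintro rfl; exact hcγ hc'
        have key : nbLt G.gr le c c' ∨ (nbEq G.gr le c c' ∧ k1 c < k1 c') := by
          rcases hmax c hcS with h | h
          · exact Or.inl (nbLt_congr_right g2 h)
          · right
            refine ⟨fun a => (h.1 a).trans (g2 a), ?_⟩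
            rw [← g3]
            refine lt_of_le_of_ne h.2 ?_
            intro hk
            exact hcγ ((hγ c).2 ⟨hsib c₀ hc₀ c hcS, hsymm _ _ h.1, hk.symm⟩)
        refine ⟨hne', ?_, ?_⟩
        · rcases key with h | h
          · exact Or.inl h
          · exact Or.inr ⟨h.1, Or.inl h.2⟩
        · have hsc := hsib c hcS c' (hγS hc')
          rintro (h | ⟨h, h'⟩)
          · rcases key with h1 | h1
            · exact nbLt_asymm hF hsc h1 h
            · exact nbLt_irrefl c' c (hsymm _ _ h1.1) h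
          · rcases key with h1 | h1
            · exact nbLt_irrefl c c' (hsymm _ _ h) h1
            · rcases h' with h' | h'
              · omega
              · omega
      have hSun : (S : Set V) = (S' : Set V) ∪ (γ : Set V) := by
        rw [← Finset.coe_union, Finset.sdiff_union_of_subset hγS]
      have hU1 : U (S : Set V) (sub le) = U (S' : Set V) (sub le) ∪ U (γ : Set V) (sub le) := by
        ext x
        simp only [U, hSun, Set.mem_union, Set.mem_ofPred_eq]
        constructor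
        · rintro ⟨c, hc | hc, hx⟩
          · exact Or.inl ⟨c, hc, hx⟩
          · exact Or.inr ⟨c, hc, hx⟩
        · rintro (⟨c, hc, hx⟩ | ⟨c, hc, hx⟩)
          · exact ⟨c, Or.inl hc, hx⟩
          · exact ⟨c, Or.inr hc, hx⟩
      have hU2 : U ((S : Set V) ∩ K) (kp le K)
          = U ((S' : Set V) ∩ K) (kp le K) ∪ U ((γ : Set V) ∩ K) (kp le K) := by
        ext x
        simp only [U, hSun, Set.mem_union, Set.mem_inter_iff, Set.mem_ofPred_eq]
        constructor
        · rintro ⟨c, ⟨hc | hc, hcK⟩, hx⟩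
          · exact Or.inl ⟨c, ⟨hc, hcK⟩, hx⟩
          · exact Or.inr ⟨c, ⟨hc, hcK⟩, hx⟩
        · rintro (⟨c, ⟨hc, hcK⟩, hx⟩ | ⟨c, ⟨hc, hcK⟩, hx⟩)
          · exact ⟨c, ⟨Or.inl hc, hcK⟩, hx⟩
          · exact ⟨c, ⟨Or.inr hc, hcK⟩, hx⟩
      have hcross : ∀ x ∈ U (S' : Set V) (sub le), ∀ y ∈ U (γ : Set V) (sub le),
          x ≠ y ∧ ¬ G.gr.Adj x y := by
        rintro x ⟨c, hc, hx⟩ y ⟨c', hc', hy⟩
        have hc : c ∈ S' := hc
        have hc' : c' ∈ γ := hc'
        have := sib_sub hF (hsib c (Finset.mem_sdiff.1 hc).1 c' (hγS hc')) (hlt c hc c' hc').1 hx hy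
        exact ⟨this.1, this.2.1⟩
      have hd : ∀ x ∈ U (S' : Set V) (sub le), x ∉ U (γ : Set V) (sub le) := fun x hx hx' =>
        (hcross x hx x hx').1 rfl
      refine ⟨glue (U (S' : Set V) (sub le)) (U (γ : Set V) (sub le)) r₁ r₂, ?_, ?_⟩
      · rw [hU1]
        exact hr₁.glue hr₂ hd
      · rw [hU1, hU2]
        have g1 := EF.congr0 hE₁ (glue_left (r₁ := r₁) (r₂ := r₂) hd)
          (fun x _ y _ => (Iff.rfl : dlt G.gr le k1 k2 x y ↔ dlt G.gr le k1 k2 x y))
        have g2 := EF.congr0 hE₂ (glue_right (r₁ := r₁) (r₂ := r₂) hd)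
          (fun x _ y _ => (Iff.rfl : dlt G.gr le k1 k2 x y ↔ dlt G.gr le k1 k2 x y))
        refine EF.sum (L₁ := []) (L₂ := []) ?_ ?_ g1 g2 (fun p hp => by simp at hp)
          (fun p hp => by simp at hp) (fun p hp => by simp at hp)
        · intro x hx y hy
          obtain ⟨e1, e2⟩ := hcross x hx y hy
          obtain ⟨e3, e4⟩ := glue_lt (r₁ := r₁) (r₂ := r₂) hd x hx y hy
          exact ⟨e1, e2, e3, e4⟩
        · rintro x ⟨c, ⟨hc, hcK⟩, hx⟩ y ⟨c', ⟨hc', hcK'⟩, hy⟩
          have hc : c ∈ S' := hc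
          have hc' : c' ∈ γ := hc'
          obtain ⟨e1, e2, e3⟩ := hlt c hc c' hc'
          have hsc := hsib c (Finset.mem_sdiff.1 hc).1 c' (hγS hc')
          have h1 := sib_sub hF hsc e1 (kp_sub hx) (kp_sub hy)
          have h2 := dlt_sib hF hsc e2 e3 (kp_sub hx) (kp_sub hy)
          exact ⟨h1.1, h1.2.1, h2.1, h2.2⟩

private theorem TotOn.insert {W : Set V} {r : V → V → Prop} (h : TotOn W r) (v : V) (hv : v ∉ W) :
    TotOn (insert v W) (MP_33c730_lc.glue {v} W (fun _ _ => False) r) := by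
  have h1 : TotOn ({v} : Set V) (fun _ _ => False) := by
    refine ⟨fun x _ h => h, fun x _ y _ z _ h _ => h, ?_⟩
    intro x hx y hy hne
    rw [Set.mem_singleton_iff] at hx hy
    exact absurd (hx.trans hy.symm) hne
  have h2 := h1.glue h (by
    intro x hx
    rw [Set.mem_singleton_iff] at hx
    rw [hx]; exact hv)
  rwa [Set.singleton_union] at h2

private theorem all_PC [Finite V] {G : CG C V} {le : V → V → Prop} {K : Set V} {k1 k2 : V → ℕ}
    {q : ℕ} (hF : Forest G.gr le) (hL : Legit G le K k1 k2 q) :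
    ∀ (n : ℕ) (v : V), (sub le v).ncard = n → PC G le K k1 k2 q v := by
  classical
  intro n
  induction n using Nat.strong_induction_on with
  | _ n ih =>
    intro v hv
    have := Fintype.ofFinite V
    let S : Finset V := Finset.univ.filter fun c => child le v c
    have hS : ∀ c, c ∈ S ↔ child le v c := by intro c; simp [S]
    obtain ⟨r, hr, hE⟩ := group_lemma hF hL (insert v (anc le v)) S.card S rfl
      (fun c hc => (hS c).1 hc)
      (by
        intro c hc c' h1 _ _
        rw [hS] at hc ⊢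
        have e := sib_iff.1 h1
        unfold child at hc ⊢
        rw [← e]; exact hc)
      (by
        intro c hc
        have hc' := child_le ((hS c).1 hc)
        refine ih _ ?_ c rfl
        rw [← hv]
        refine Set.ncard_lt_ncard ?_ (Set.toFinite _)
        constructor
        · intro x hx
          exact hF.trans _ _ _ hc'.1 hx
        · intro hsub
          have : le c v := hsub (hF.refl v : v ∈ sub le v)
          exact hc'.2 (hF.antisymm _ _ hc'.1 this))
    have hcoe : (S : Set V) = {c | child le v c} := by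
      ext c
      exact hS c
    rw [hcoe] at hr hE
    have hsubW : ∀ x ∈ U {c | child le v c} (sub le), le v x ∧ x ≠ v := by
      rintro x ⟨c, hc, hx⟩
      have h1 := child_le hc
      refine ⟨hF.trans _ _ _ h1.1 hx, ?_⟩
      rintro rfl
      exact h1.2 (hF.antisymm _ _ h1.1 hx)
    have hvW : v ∉ U {c | child le v c} (sub le) := fun h => (hsubW v h).2 rfl
    refine ⟨glue {v} (U {c | child le v c} (sub le)) (fun _ _ => False) r, ?_, ?_⟩
    · rw [sub_eq hF v]
      exact hr.insert v hvW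
    · rw [sub_eq hF v, kp_eq hF K v]
      have hd : ∀ x ∈ ({v} : Set V), x ∉ U {c | child le v c} (sub le) := by
        intro x hx
        rw [Set.mem_singleton_iff] at hx
        rw [hx]; exact hvW
      have g2 := EF.congr0 hE (glue_right (r₁ := fun _ _ => False) (r₂ := r) hd)
          (fun x _ y _ => (Iff.rfl : dlt G.gr le k1 k2 x y ↔ dlt G.gr le k1 k2 x y))
      have g3 := EF.absorb v g2 ?_ ?_ ?_ ?_ (fun p hp => by simp at hp)
      · exact g3.mono le_rfl (fun p hp => by simp at hp)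
      · intro x hx
        obtain ⟨e3, e4⟩ := glue_lt (r₁ := fun _ _ => False) (r₂ := r) hd v rfl x hx
        exact ⟨(hsubW x hx).2, e3, e4⟩
      · rintro x ⟨c, ⟨hc, hcK⟩, hx⟩
        have hxv := hsubW x ⟨c, hc, kp_sub hx⟩
        have := dlt_anc (k1 := k1) (k2 := k2) hF hxv.1 hxv.2
        exact ⟨hxv.2, this.1, this.2⟩
      · intro h
        rcases h with h | h | h
        · exact h.2.2
        · exact hvW h.2
        · exact hvW h.1
      · exact dlt_irrefl hF v

theorem sound [Finite V] (G : CG C V) (le : V → V → Prop) (K : Set V) (k1 k2 : V → ℕ) (q : ℕ)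
    (hF : Forest G.gr le) (hL : Legit G le K k1 k2 q) :
    ∃ r : V → V → Prop, IsStrictTotalOrder V r ∧
      EF G ∅ r (dlt G.gr le k1 k2) Set.univ (kpAll le K) q [] := by
  classical
  have := Fintype.ofFinite V
  let S : Finset V := Finset.univ.filter fun c => anc le c = ∅
  have hS : ∀ c, c ∈ S ↔ anc le c = ∅ := by intro c; simp [S]
  obtain ⟨r, hr, hE⟩ := group_lemma hF hL ∅ S.card S rfl (fun c hc => (hS c).1 hc)
    (by
      intro c hc c' h1 _ _
      rw [hS] at hc ⊢
      rw [← sib_iff.1 h1]; exact hc)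
    (fun c _ => all_PC hF hL _ c rfl)
  have hcoe : (S : Set V) = {c | anc le c = ∅} := by
    ext c
    exact hS c
  rw [hcoe] at hr hE
  have huniv : U {c | anc le c = ∅} (sub le) = Set.univ := by
    ext x
    simp only [Set.mem_univ, iff_true]
    obtain ⟨c, hc, hx⟩ := exists_root hF x
    exact ⟨c, hc, hx⟩
  rw [huniv] at hr hE
  rw [← kpAll_eq hF K] at hE
  refine ⟨r, ?_, hE⟩
  have h1 : Std.Trichotomous r := ⟨fun a b h1 h2 => by
    by_contra hne
    rcases hr.2.2 a trivial b trivial hne with h | h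
    · exact h1 h
    · exact h2 h⟩
  have h2 : Std.Irrefl r := ⟨fun a => hr.1 a trivial⟩
  have h3 : IsTrans V r := ⟨fun a b c => hr.2.1 a trivial b trivial c trivial⟩
  exact { }

end Pool.MP_33c730_lc
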