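import Pool.Agent.Lib.MP_33c730_lc.Defs

set_option autoImplicit false

namespace Pool.MP_33c730_lc

/-! ### EdgeBound: hub-free graphs are sparse -/

section EdgeBound

open Finset

open Classical in
/-- the number of neighbours of `x` in `R` -/
private noncomputable def eb_deg {V : Type} (G : SimpleGraph V) (R : Finset V) (x : V) : ℕ :=
  ∑ y ∈ R, if G.Adj x y then 1 else 0

/-- the number of ordered adjacent pairs in `R` -/
private noncomputable def eb_e {V : Type} (G : SimpleGraph V) (R : Finset V) : ℕ :=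
  ∑ x ∈ R, eb_deg G R x

open Classical in
private theorem eb_deg_card {V : Type} (G : SimpleGraph V) (R : Finset V) (x : V) :
    eb_deg G R x = (R.filter (G.Adj x)).card := by
  rw [eb_deg, Finset.card_filter]

private theorem eb_deg_insert {V : Type} [DecidableEq V] (G : SimpleGraph V) (R : Finset V)
    (x y : V) (h : x ∉ R) :
    eb_deg G (insert x R) y = eb_deg G R y + eb_deg G {x} y := by
  classical
  rw [eb_deg, Finset.sum_insert h, add_comm, eb_deg, eb_deg, Finset.sum_singleton]

private theorem eb_deg_self {V : Type} (G : SimpleGraph V) (x : V) : eb_deg G {x} x = 0 := by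
  simp [eb_deg]

private theorem eb_e_insert {V : Type} [DecidableEq V] (G : SimpleGraph V) (R : Finset V)
    (x : V) (h : x ∉ R) : eb_e G (insert x R) = eb_e G R + 2 * eb_deg G R x := by
  classical
  rw [eb_e, Finset.sum_insert h, eb_deg_insert G R x x h, eb_deg_self]
  simp only [eb_deg_insert G R x _ h]
  rw [Finset.sum_add_distrib]
  have h1 : ∑ y ∈ R, eb_deg G {x} y = eb_deg G R x := by
    rw [eb_deg]
    refine Finset.sum_congr rfl fun y _ => ?_
    rw [eb_deg, Finset.sum_singleton]
    simp only [G.adj_comm]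
  rw [h1, eb_e]
  ring

private theorem eb_conn_single {V : Type} (G : SimpleGraph V) (x : V) :
    (G.induce ({x} : Set V)).Connected := by
  have : Nonempty ({x} : Set V) := ⟨⟨x, rfl⟩⟩
  exact ⟨SimpleGraph.Preconnected.of_subsingleton⟩

private theorem eb_step {V : Type} [DecidableEq V] (G : SimpleGraph V) (r : ℕ) (hr : 1 ≤ r) :
    ∀ (k : ℕ) (U R : Finset V), R.card = k →
      (∀ R' ⊆ R, R'.Nonempty → eb_e G R' < 2 * r * R'.card) →
      Disjoint U R → (G.induce (U : Set V)).Connected → ∀ N : Finset V,
      (∀ y, y ∈ N ↔ y ∈ R ∧ ∃ u ∈ U, G.Adj u y) →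
      2 * r * (R.card + 1) ≤ eb_e G R + 2 * N.card →
      ∃ (U' H : Finset V), (G.induce (U' : Set V)).Connected ∧ U' ⊆ U ∪ R ∧ H ⊆ R ∧ H.Nonempty ∧
        Disjoint U' H ∧ ∀ x ∈ H, (∃ u ∈ U', G.Adj u x) ∧ r ≤ eb_deg G H x := by
  classical
  intro k
  induction k with
  | zero =>
    intro U R hR _ _ _ N hN hc
    have h0 : R = ∅ := Finset.card_eq_zero.mp hR
    subst h0
    have h1 : N = ∅ := by
      ext y
      rw [hN]
      simp
    subst h1
    simp [eb_e] at hc
    omega
  | succ k ih =>
    intro U R hR hmin hUR hU N hN hc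
    have hRne : R.Nonempty := by
      rw [← Finset.card_pos]
      omega
    have hNR : N ⊆ R := fun y hy => ((hN y).mp hy).1
    have hNne : N.Nonempty := by
      by_contra h
      rw [Finset.not_nonempty_iff_eq_empty] at h
      subst h
      have h1 := hmin R (Finset.Subset.refl _) hRne
      rw [Finset.card_empty] at hc
      nlinarith
    by_cases hall : ∀ x ∈ N, r ≤ eb_deg G N x
    · refine ⟨U, N, hU, Finset.subset_union_left, hNR, hNne, ?_, ?_⟩
      · exact Finset.disjoint_of_subset_right hNR hUR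
      · intro x hx
        exact ⟨((hN x).mp hx).2, hall x hx⟩
    · push Not at hall
      obtain ⟨x, hxN, hxr⟩ := hall
      obtain ⟨hxR, u, huU, hux⟩ := (hN x).mp hxN
      have hxU : x ∉ U := fun h => Finset.disjoint_left.mp hUR h hxR
      have hxR' : x ∉ R.erase x := Finset.notMem_erase x R
      have hins : insert x (R.erase x) = R := Finset.insert_erase hxR
      have hcard : (R.erase x).card = k := by
        rw [Finset.card_erase_of_mem hxR, hR]
        rfl
      have he : eb_e G R = eb_e G (R.erase x) + 2 * eb_deg G (R.erase x) x := by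
        conv_lhs => rw [← hins]
        exact eb_e_insert G _ x hxR'
      have hdR : eb_deg G (R.erase x) x = ((R.erase x).filter (G.Adj x)).card := eb_deg_card G _ x
      have hdN : eb_deg G N x = (N.filter (G.Adj x)).card := eb_deg_card G _ x
      have hdN2 : N.filter (G.Adj x) = ((R.erase x).filter (G.Adj x)) ∩ (N.erase x) := by
        ext y
        simp only [Finset.mem_filter, Finset.mem_inter, Finset.mem_erase]
        constructor
        · rintro ⟨h1, h2⟩
          exact ⟨⟨⟨h2.ne', hNR h1⟩, h2⟩, h2.ne', h1⟩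
        · rintro ⟨⟨_, h2⟩, _, h1⟩
          exact ⟨h1, h2⟩
      have hN' : ∀ y, y ∈ ((R.erase x).filter (G.Adj x)) ∪ (N.erase x) ↔
          y ∈ R.erase x ∧ ∃ u ∈ insert x U, G.Adj u y := by
        intro y
        simp only [Finset.mem_union, Finset.mem_filter, Finset.mem_erase, Finset.mem_insert]
        constructor
        · rintro (⟨h1, h2⟩ | ⟨h1, h2⟩)
          · exact ⟨h1, x, Or.inl rfl, h2⟩
          · obtain ⟨h3, v, hv, hvy⟩ := (hN y).mp h2
            exact ⟨⟨h1, h3⟩, v, Or.inr hv, hvy⟩
        · rintro ⟨h1, v, (rfl | hv), hvy⟩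
          · exact Or.inl ⟨h1, hvy⟩
          · exact Or.inr ⟨h1.1, (hN y).mpr ⟨h1.2, v, hv, hvy⟩⟩
      have hcu := Finset.card_union_add_card_inter ((R.erase x).filter (G.Adj x)) (N.erase x)
      have hNc : (N.erase x).card + 1 = N.card := Finset.card_erase_add_one hxN
      have hRc : (R.erase x).card + 1 = R.card := Finset.card_erase_add_one hxR
      rw [← hdN2, ← hdN, ← hdR] at hcu
      have hconn : (G.induce ((insert x U : Finset V) : Set V)).Connected := by
        have h1 : ((insert x U : Finset V) : Set V) = (U : Set V) ∪ {x} := by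
          rw [Finset.coe_insert, Set.insert_eq, Set.union_comm]
        rw [h1]
        exact SimpleGraph.connected_induce_union hU.preconnected
          (eb_conn_single G x).preconnected huU (Set.mem_singleton x) hux
      obtain ⟨U', H, h1, h2, h3, h4, h5, h6⟩ := ih (insert x U) (R.erase x) hcard
        (fun R' hR' => hmin R' (hR'.trans (Finset.erase_subset _ _)))
        (by
          rw [Finset.disjoint_insert_left]
          exact ⟨hxR', Finset.disjoint_of_subset_right (Finset.erase_subset _ _) hUR⟩)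
        hconn _ hN' (by
          rw [hRc]
          rw [he, ← hRc] at hc
          rw [← hRc]
          nlinarith)
      refine ⟨U', H, h1, ?_, h3.trans (Finset.erase_subset _ _), h4, h5, h6⟩
      intro y hy
      have := h2 hy
      simp only [Finset.mem_union, Finset.mem_insert, Finset.mem_erase] at this ⊢
      rcases this with (rfl | h) | h
      · exact Or.inr hxR
      · exact Or.inl h
      · exact Or.inr h.2

private theorem eb_min {V : Type} [DecidableEq V] (G : SimpleGraph V) (r : ℕ) (hr : 1 ≤ r) :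
    ∀ W : Finset V, W.Nonempty → 2 * r * W.card ≤ eb_e G W →
      ∃ (U H : Finset V), (G.induce (U : Set V)).Connected ∧ U ⊆ W ∧ H ⊆ W ∧ H.Nonempty ∧
        Disjoint U H ∧ ∀ x ∈ H, (∃ u ∈ U, G.Adj u x) ∧ r ≤ eb_deg G H x := by
  classical
  intro W
  induction W using Finset.strongInduction with
  | H W ih =>
    intro hW hc
    by_cases hsub : ∃ W' ⊂ W, W'.Nonempty ∧ 2 * r * W'.card ≤ eb_e G W'
    · obtain ⟨W', hW', hne, hc'⟩ := hsub
      obtain ⟨U, H, h1, h2, h3, h4, h5, h6⟩ := ih W' hW' hne hc'
      exact ⟨U, H, h1, h2.trans hW'.subset, h3.trans hW'.subset, h4, h5, h6⟩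
    · push Not at hsub
      obtain ⟨x, hx⟩ := hW
      have hxR' : x ∉ W.erase x := Finset.notMem_erase x W
      have hins : insert x (W.erase x) = W := Finset.insert_erase hx
      have he : eb_e G W = eb_e G (W.erase x) + 2 * eb_deg G (W.erase x) x := by
        conv_lhs => rw [← hins]
        exact eb_e_insert G _ x hxR'
      have hRc : (W.erase x).card + 1 = W.card := Finset.card_erase_add_one hx
      obtain ⟨U', H, h1, h2, h3, h4, h5, h6⟩ := eb_step G r hr (W.erase x).card {x} (W.erase x) rfl
        (fun R' hR' hne => hsub R' (lt_of_le_of_lt hR' (Finset.erase_ssubset hx)) hne)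
        (Finset.disjoint_singleton_left.mpr hxR')
        (by rw [Finset.coe_singleton]; exact eb_conn_single G x)
        ((W.erase x).filter (G.Adj x))
        (fun y => by simp)
        (by rw [← eb_deg_card, hRc, ← he]; exact hc)
      refine ⟨U', H, h1, ?_, h3.trans (Finset.erase_subset _ _), h4, h5, h6⟩
      rwa [← Finset.insert_eq, hins] at h2

private theorem eb_iter {V : Type} [DecidableEq V] (G : SimpleGraph V) (s : ℕ) (hs : 1 ≤ s) :
    ∀ (k : ℕ) (W : Finset V), W.Nonempty → 2 ^ k * s * W.card ≤ eb_e G W →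
      ∃ (H : Finset V) (D : Fin k → Set V), H ⊆ W ∧ H.Nonempty ∧ s * H.card ≤ eb_e G H ∧
        (∀ j, (G.induce (D j)).Connected) ∧ (∀ j, D j ⊆ W) ∧ (∀ i j, i ≠ j → Disjoint (D i) (D j)) ∧
        (∀ x ∈ H, ∀ j, x ∉ D j) ∧ ∀ x ∈ H, ∀ j, ∃ y ∈ D j, G.Adj x y := by
  intro k
  induction k with
  | zero =>
    intro W hW hc
    exact ⟨W, Fin.elim0, Finset.Subset.refl _, hW, by simpa using hc, fun j => j.elim0,
      fun j => j.elim0, fun j => j.elim0, fun _ _ j => j.elim0, fun _ _ j => j.elim0⟩
  | succ k ih =>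
    intro W hW hc
    obtain ⟨U, H₁, h1, h2, h3, h4, h5, h6⟩ := eb_min G (2 ^ k * s)
      (Nat.one_le_iff_ne_zero.mpr (by positivity)) W hW (by
        calc 2 * (2 ^ k * s) * W.card = 2 ^ (k + 1) * s * W.card := by ring
          _ ≤ _ := hc)
    have hH₁ : 2 ^ k * s * H₁.card ≤ eb_e G H₁ := by
      rw [eb_e, mul_comm, ← smul_eq_mul, ← Finset.sum_const]
      exact Finset.sum_le_sum fun x hx => (h6 x hx).2
    obtain ⟨H, D, g1, g2, g3, g4, g5, g6, g7, g8⟩ := ih H₁ h4 hH₁
    have hUH : ∀ x ∈ H₁, x ∉ (U : Set V) := fun x hx hxU =>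
      Finset.disjoint_left.mp h5 (Finset.mem_coe.mp hxU) hx
    refine ⟨H, Fin.cons (U : Set V) D, g1.trans h3, g2, g3, ?_, ?_, ?_, ?_, ?_⟩
    · intro j
      refine Fin.cases ?_ (fun j => ?_) j
      · rw [Fin.cons_zero]
        exact h1
      · rw [Fin.cons_succ]
        exact g4 j
    · intro j
      refine Fin.cases ?_ (fun j => ?_) j
      · rw [Fin.cons_zero]
        exact_mod_cast h2
      · rw [Fin.cons_succ]
        exact (g5 j).trans (by exact_mod_cast h3)
    · have hd : ∀ j, Disjoint (U : Set V) (D j) := fun j => by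
        rw [Set.disjoint_right]
        intro x hx
        exact hUH x (g5 j hx)
      intro i j
      refine Fin.cases ?_ (fun i => ?_) i
      · refine Fin.cases ?_ (fun j => ?_) j
        · intro h
          exact absurd rfl h
        · intro _
          rw [Fin.cons_zero, Fin.cons_succ]
          exact hd j
      · refine Fin.cases ?_ (fun j => ?_) j
        · intro _
          rw [Fin.cons_zero, Fin.cons_succ]
          exact (hd i).symm
        · intro h
          rw [Fin.cons_succ, Fin.cons_succ]
          exact g6 i j fun h' => h (by rw [h'])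
    · intro x hx j
      refine Fin.cases ?_ (fun j => ?_) j
      · rw [Fin.cons_zero]
        exact hUH x (g1 hx)
      · rw [Fin.cons_succ]
        exact g7 x hx j
    · intro x hx j
      refine Fin.cases ?_ (fun j => ?_) j
      · rw [Fin.cons_zero]
        obtain ⟨u, hu, hux⟩ := (h6 x (g1 hx)).1
        exact ⟨u, hu, hux.symm⟩
      · rw [Fin.cons_succ]
        exact g8 x hx j

/-- Mader type lemma. -/
theorem edge_bound (h : ℕ) : ∃ c : ℕ, ∀ (V : Type) [Finite V] (G : SimpleGraph V), HubFree h G →
    ∀ W : Finset V, Set.ncard {p : V × V | p.1 ∈ W ∧ p.2 ∈ W ∧ G.Adj p.1 p.2} ≤ c * W.card := by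
  classical
  refine ⟨2 ^ h * (h + 1), fun V _ G hG W => ?_⟩
  have h1 : Set.ncard {p : V × V | p.1 ∈ W ∧ p.2 ∈ W ∧ G.Adj p.1 p.2} = eb_e G W := by
    have h2 : {p : V × V | p.1 ∈ W ∧ p.2 ∈ W ∧ G.Adj p.1 p.2} =
        (((W ×ˢ W).filter fun p => G.Adj p.1 p.2 : Finset (V × V)) : Set (V × V)) := by
      ext p
      simp [and_assoc]
    rw [h2, Set.ncard_coe_finset, Finset.card_filter, Finset.sum_product]
    rfl
  rw [h1]
  by_contra hcon
  push Not at hcon
  have hW : W.Nonempty := by
    by_contra hW
    rw [Finset.not_nonempty_iff_eq_empty] at hW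
    subst hW
    simp [eb_e] at hcon
  obtain ⟨H, D, -, g2, g3, g4, -, g6, g7, g8⟩ := eb_iter G (h + 1) (Nat.le_add_left 1 h) h W hW
    hcon.le
  have hcard : h ≤ H.card := by
    by_contra hlt
    push Not at hlt
    have h3 : eb_e G H ≤ H.card * H.card := by
      rw [eb_e, ← smul_eq_mul, ← Finset.sum_const]
      refine Finset.sum_le_sum fun x _ => ?_
      rw [eb_deg_card]
      exact Finset.card_filter_le _ _
    have h4 : 0 < H.card := Finset.card_pos.mpr g2
    nlinarith
  obtain ⟨H', hH', hc'⟩ := Finset.exists_subset_card_eq hcard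
  let a : Fin h → V := fun i => (H'.equivFinOfCardEq hc').symm i
  refine hG ⟨a, D, ?_, g4, g6, ?_, ?_⟩
  · intro i j hij
    exact (H'.equivFinOfCardEq hc').symm.injective (Subtype.ext hij)
  · intro i j
    exact g7 _ (hH' ((H'.equivFinOfCardEq hc').symm i).2) j
  · intro i j
    exact g8 _ (hH' ((H'.equivFinOfCardEq hc').symm i).2) j

end EdgeBound

end Pool.MP_33c730_lc
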