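import Pool.Agent.Lib.MP_33c730_lc.Notions

set_option autoImplicit false

namespace Pool.MP_33c730_lc

/-! ### FinIndex: finitely many EF classes over a small set of attachments -/
/-- atomic data of an `n`-tuple -/
abbrev FIAt (C : Type) (h n : ℕ) : Type :=
  (Fin n → Fin n → Prop × Prop × Prop) × ((Fin n → C → Prop) × (Fin n → Fin h → Prop))

/-- types of rank `q` of `n`-tuples -/
def FIT (C : Type) (h : ℕ) : ℕ → ℕ → Type
  | 0, n => FIAt C h n
  | q + 1, n => FIAt C h n × Set (FIT C h q (n + 1))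

theorem fit_finite (C : Type) [Finite C] (h q : ℕ) : ∀ n, Finite (FIT C h q n) := by
  induction q with
  | zero =>
    intro n
    show Finite (FIAt C h n)
    infer_instance
  | succ q ih =>
    intro n
    have := ih (n + 1)
    show Finite (FIAt C h n × Set (FIT C h q (n + 1)))
    infer_instance

/-- atomic data -/
def fiAt {C V : Type} {h : ℕ} (G : CG C V) (A : Finset V) (num : V → Fin h) (r : V → V → Prop)
    {n : ℕ} (xs : Fin n → V) : FIAt C h n :=
  (fun i j => (xs i = xs j, G.gr.Adj (xs i) (xs j), r (xs i) (xs j)),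
    (fun i c => G.col c (xs i), fun i k => ∃ a ∈ A, num a = k ∧ G.gr.Adj (xs i) a))

/-- the type of a tuple -/
def fiCode {C V : Type} {h : ℕ} (G : CG C V) (A : Finset V) (num : V → Fin h) (W : Set V)
    (r : V → V → Prop) : (q : ℕ) → (n : ℕ) → (Fin n → V) → FIT C h q n
  | 0, _, xs => fiAt G A num r xs
  | q + 1, n, xs => (fiAt G A num r xs,
      {t | ∃ x ∈ W, t = fiCode G A num W r q (n + 1) (Fin.cons x xs)})

theorem fiAt_atom {C V : Type} {h : ℕ} {G : CG C V} {A : Finset V} {num : V → Fin h}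
    (hnum : Set.InjOn num A) {B : Set V} {W W' : Set V} {r r' : V → V → Prop}
    (hW : ∀ x ∈ W, ∀ b ∈ B, G.gr.Adj x b → b ∈ A) (hW' : ∀ x ∈ W', ∀ b ∈ B, G.gr.Adj x b → b ∈ A)
    {n : ℕ} {xs xs' : Fin n → V} (hx : ∀ i, xs i ∈ W) (hx' : ∀ i, xs' i ∈ W')
    (he : fiAt G A num r xs = fiAt G A num r' xs') :
    Atom G B r r' (List.ofFn fun i => (xs i, xs' i)) := by
  intro p hp q hq
  obtain ⟨i, rfl⟩ := (List.mem_ofFn' _ _).1 hp
  obtain ⟨j, rfl⟩ := (List.mem_ofFn' _ _).1 hq
  have h1 := congrFun (congrFun (congrArg Prod.fst he) i) j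
  have h2 := congrFun (congrArg (fun t => t.2.1) he) i
  have h3 := congrFun (congrArg (fun t => t.2.2) he) i
  have h4 : (xs i = xs j) = (xs' i = xs' j) := congrArg Prod.fst h1
  have h5 : G.gr.Adj (xs i) (xs j) = G.gr.Adj (xs' i) (xs' j) := congrArg (fun t => t.2.1) h1
  have h6 : r (xs i) (xs j) = r' (xs' i) (xs' j) := congrArg (fun t => t.2.2) h1
  refine ⟨iff_of_eq h4, iff_of_eq h5, iff_of_eq h6, fun c => iff_of_eq (congrFun h2 c), ?_⟩
  intro a ha
  by_cases hA : a ∈ A
  · have h7 : (∃ a' ∈ A, num a' = num a ∧ G.gr.Adj (xs i) a') =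
        (∃ a' ∈ A, num a' = num a ∧ G.gr.Adj (xs' i) a') := congrFun h3 (num a)
    constructor
    · intro h8
      have : ∃ a' ∈ A, num a' = num a ∧ G.gr.Adj (xs i) a' := ⟨a, hA, rfl, h8⟩
      rw [h7] at this
      obtain ⟨a', ha', e, h9⟩ := this
      rwa [hnum ha' hA e] at h9
    · intro h8
      have : ∃ a' ∈ A, num a' = num a ∧ G.gr.Adj (xs' i) a' := ⟨a, hA, rfl, h8⟩
      rw [← h7] at this
      obtain ⟨a', ha', e, h9⟩ := this
      rwa [hnum ha' hA e] at h9
  · exact ⟨fun h8 => absurd (hW _ (hx i) a ha h8) hA, fun h8 => absurd (hW' _ (hx' i) a ha h8) hA⟩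

theorem fiCode_EF {C V : Type} {h : ℕ} {G : CG C V} {A : Finset V} {num : V → Fin h}
    (hnum : Set.InjOn num A) {B : Set V} {W W' : Set V} {r r' : V → V → Prop}
    (hW : ∀ x ∈ W, ∀ b ∈ B, G.gr.Adj x b → b ∈ A) (hW' : ∀ x ∈ W', ∀ b ∈ B, G.gr.Adj x b → b ∈ A)
    (q : ℕ) : ∀ (n : ℕ) (xs xs' : Fin n → V), (∀ i, xs i ∈ W) → (∀ i, xs' i ∈ W') →
    fiCode G A num W r q n xs = fiCode G A num W' r' q n xs' →
    EF G B r r' W W' q (List.ofFn fun i => (xs i, xs' i)) := by
  induction q with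
  | zero =>
    intro n xs xs' hx hx' he
    exact fiAt_atom hnum hW hW' hx hx' he
  | succ q ih =>
    intro n xs xs' hx hx' he
    have e1 : fiAt G A num r xs = fiAt G A num r' xs' := congrArg Prod.fst he
    have e2 : {t | ∃ x ∈ W, t = fiCode G A num W r q (n + 1) (Fin.cons x xs)} =
        {t | ∃ x ∈ W', t = fiCode G A num W' r' q (n + 1) (Fin.cons x xs')} :=
      congrArg Prod.snd he
    have key : ∀ x ∈ W, ∀ x' ∈ W', fiCode G A num W r q (n + 1) (Fin.cons x xs) =
        fiCode G A num W' r' q (n + 1) (Fin.cons x' xs') →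
        EF G B r r' W W' q ((x, x') :: List.ofFn fun i => (xs i, xs' i)) := by
      intro x hxW x' hxW' e
      have := ih (n + 1) (Fin.cons x xs) (Fin.cons x' xs')
        (fun i => by
          refine Fin.cases ?_ (fun i => ?_) i
          · exact hxW
          · exact hx i)
        (fun i => by
          refine Fin.cases ?_ (fun i => ?_) i
          · exact hxW'
          · exact hx' i) e
      rw [List.ofFn_succ] at this
      exact this
    refine ⟨fiAt_atom hnum hW hW' hx hx' e1, ?_, ?_⟩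
    · intro x hxW
      have : fiCode G A num W r q (n + 1) (Fin.cons x xs) ∈
          {t | ∃ x ∈ W, t = fiCode G A num W r q (n + 1) (Fin.cons x xs)} := ⟨x, hxW, rfl⟩
      rw [e2] at this
      obtain ⟨x', hxW', e⟩ := this
      exact ⟨x', hxW', key x hxW x' hxW' e⟩
    · intro x' hxW'
      have : fiCode G A num W' r' q (n + 1) (Fin.cons x' xs') ∈
          {t | ∃ x ∈ W', t = fiCode G A num W' r' q (n + 1) (Fin.cons x xs')} := ⟨x', hxW', rfl⟩
      rw [← e2] at this
      obtain ⟨x, hxW, e⟩ := this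
      exact ⟨x, hxW, key x hxW x' hxW' e.symm⟩

theorem fin_index (C : Type) [Finite C] (q h : ℕ) : ∃ N : ℕ, ∀ (V : Type) (G : CG C V)
    (A : Finset V) (B : Set V), A.card < h → ∀ (ι : Type) (W : ι → Set V) (r : ι → V → V → Prop),
    (∀ i, ∀ x ∈ W i, ∀ b ∈ B, G.gr.Adj x b → b ∈ A) →
    ∃ f : ι → Fin N, ∀ i j, f i = f j → EF G B (r i) (r j) (W i) (W j) q [] := by
  classical
  have := fit_finite C h q 0
  refine ⟨Nat.card (FIT C h q 0), ?_⟩
  intro V G A B hA ι W r hW
  have hh : 0 < h := by omega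
  let num : V → Fin h := fun v =>
    if hv : v ∈ A then Fin.castLE hA.le (A.equivFin ⟨v, hv⟩) else ⟨0, hh⟩
  have hnum : Set.InjOn num A := by
    intro a ha b hb hab
    have ha' : a ∈ A := ha
    have hb' : b ∈ A := hb
    simp only [num, dif_pos ha', dif_pos hb'] at hab
    have h1 := Fin.castLE_injective hA.le hab
    have h2 := A.equivFin.injective h1
    exact congrArg Subtype.val h2
  refine ⟨fun i => Finite.equivFin (FIT C h q 0) (fiCode G A num (W i) (r i) q 0 Fin.elim0), ?_⟩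
  intro i j hij
  have e := (Finite.equivFin (FIT C h q 0)).injective hij
  have := fiCode_EF hnum (hW i) (hW j) q 0 Fin.elim0 Fin.elim0 (fun i => i.elim0)
    (fun i => i.elim0) e
  simpa using this

end Pool.MP_33c730_lc
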