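import Pool.Agent.Lib.MP_33c730_lc.Defs

set_option autoImplicit false

namespace Pool.MP_33c730_lc

/-! ### Hub: excluding a topological minor gives hub-freeness -/

open Classical in
private theorem hub_path {V : Type} (G : SimpleGraph V) (D : Set V)
    (hD : (G.induce D).Connected) (a b : V) (ha : ∃ x ∈ D, G.Adj a x) (hb : ∃ x ∈ D, G.Adj b x) :
    ∃ p : G.Path a b, ∀ x ∈ p.1.support, x = a ∨ x = b ∨ x ∈ D := by
  obtain ⟨u, hu, hau⟩ := ha
  obtain ⟨w, hw, hbw⟩ := hb
  obtain ⟨q⟩ := hD.preconnected ⟨u, hu⟩ ⟨w, hw⟩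
  let q' : G.Walk u w := q.map (SimpleGraph.Embedding.induce D).toHom
  have hq' : ∀ x ∈ q'.support, x ∈ D := by
    intro x hx
    have h1 : q'.support = q.support.map (SimpleGraph.Embedding.induce D).toHom :=
      SimpleGraph.Walk.support_map (SimpleGraph.Embedding.induce D).toHom q
    rw [h1, List.mem_map] at hx
    obtain ⟨y, _, rfl⟩ := hx
    exact y.2
  let W : G.Walk a b := SimpleGraph.Walk.cons hau (q'.append (SimpleGraph.Walk.cons hbw.symm SimpleGraph.Walk.nil))
  refine ⟨W.toPath, fun x hx => ?_⟩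
  have h1 : x ∈ W.support := SimpleGraph.Walk.support_toPath_subset_support W hx
  simp only [W, SimpleGraph.Walk.support_cons, List.mem_cons, SimpleGraph.Walk.mem_support_append_iff,
    SimpleGraph.Walk.support_nil, List.not_mem_nil, or_false] at h1
  rcases h1 with h1 | h1 | h1 | h1
  · exact Or.inl h1
  · exact Or.inr (Or.inr (hq' x h1))
  · rw [h1]
    exact Or.inr (Or.inr hw)
  · exact Or.inr (Or.inl h1)

theorem hubFree_of_not_containsTopK (s : ℕ) {V : Type} (G : SimpleGraph V)
    (h : ¬ ContainsTopK s G) : HubFree (s * s + 1) G := by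
  rintro ⟨a, D, hinj, hconn, hdisj, haD, hadj⟩
  apply h
  have hs : ∀ i : Fin s, i.1 < s * s + 1 := fun i => by
    have h1 := i.2
    have h2 : s ≤ s * s := Nat.le_mul_self s
    omega
  have hidx : ∀ i j : Fin s, i.1 * s + j.1 < s * s + 1 := fun i j => by
    have h1 := i.2
    have h2 := j.2
    nlinarith
  let e : Fin s → Fin (s * s + 1) := fun i => ⟨i.1, hs i⟩
  let t : Fin s → Fin s → Fin (s * s + 1) := fun i j => ⟨i.1 * s + j.1, hidx i j⟩
  have ht : ∀ i j k l, t i j = t k l → i = k ∧ j = l := by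
    intro i j k l hij
    have h1 : i.1 * s + j.1 = k.1 * s + l.1 := congrArg Fin.val hij
    have hj := j.2
    have hl := l.2
    have h2 : i.1 = k.1 := by
      have h3 : (i.1 * s + j.1) / s = (k.1 * s + l.1) / s := by rw [h1]
      have hs0 : 0 < s := by omega
      rw [Nat.mul_comm i.1 s, Nat.mul_comm k.1 s, Nat.mul_add_div hs0, Nat.mul_add_div hs0,
        Nat.div_eq_of_lt hj, Nat.div_eq_of_lt hl] at h3
      omega
    refine ⟨Fin.ext h2, Fin.ext ?_⟩
    rw [h2] at h1
    omega
  have hp : ∀ i j : Fin s, ∃ p : G.Path (a (e i)) (a (e j)), ∀ x ∈ p.1.support,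
      x = a (e i) ∨ x = a (e j) ∨ x ∈ D (t i j) := fun i j =>
    hub_path G (D (t i j)) (hconn _) _ _ (hadj _ _) (hadj _ _)
  choose p hpx using hp
  have he : ∀ i j, e i = e j → i = j := by
    intro i j hij
    have h1 : (e i).1 = (e j).1 := congrArg Fin.val hij
    exact Fin.ext h1
  refine ⟨fun i => a (e i), fun i j _ => p i j, ?_, ?_, ?_⟩
  · intro i j hij
    exact he i j (hinj hij)
  · intro i j hij k hk
    rcases hpx i j _ hk with h1 | h1 | h1
    · exact Or.inl (he _ _ (hinj h1))
    · exact Or.inr (he _ _ (hinj h1))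
    · exact absurd h1 (haD _ _)
  · intro i j hij k l hkl hne x hx hx'
    rcases hpx i j x hx with h1 | h1 | h1
    · exact ⟨i, h1⟩
    · exact ⟨j, h1⟩
    · rcases hpx k l x hx' with h2 | h2 | h2
      · exact ⟨k, h2⟩
      · exact ⟨l, h2⟩
      · exfalso
        have h3 : t i j ≠ t k l := by
          intro h4
          obtain ⟨h5, h6⟩ := ht _ _ _ _ h4
          exact hne (by rw [h5, h6])
        exact Set.disjoint_left.mp (hdisj _ _ h3) h1 h2

end Pool.MP_33c730_lc
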