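import Pool.Agent.Lib.MP_33c730_lc.Notions

set_option autoImplicit false

namespace Pool.MP_33c730_lc

variable {C V : Type}

/-! ### Logic: EF equivalence preserves first-order formulas -/

private theorem logic_atom {G : CG C V} {B : Set V} {r r' : V → V → Prop} {W W' : Set V} {n : ℕ}
    {L : List (V × V)} (h : EF G B r r' W W' n L) : Atom G B r r' L := by
  cases n with
  | zero => exact h
  | succ n => exact h.1

theorem EF_sat (G : CG C V) (B : Set V) (r r' : V → V → Prop) (W W' : Set V) :
    ∀ {α : Type} (φ : FO C α) (n : ℕ) (L : List (V × V)) (v v' : α → V), φ.rank ≤ n →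
    EF G B r r' W W' n L → (∀ i, (v i, v' i) ∈ L) → (φ.SatOn G W r v ↔ φ.SatOn G W' r' v') := by
  intro α φ
  induction φ with
  | eq i j =>
    intro n L v v' _ hE hL
    exact (logic_atom hE _ (hL i) _ (hL j)).1
  | adj i j =>
    intro n L v v' _ hE hL
    exact (logic_atom hE _ (hL i) _ (hL j)).2.1
  | lt i j =>
    intro n L v v' _ hE hL
    exact (logic_atom hE _ (hL i) _ (hL j)).2.2.1
  | col c i =>
    intro n L v v' _ hE hL
    exact (logic_atom hE _ (hL i) _ (hL i)).2.2.2.1 c
  | neg f ih =>
    intro n L v v' hn hE hL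
    exact not_congr (ih n L v v' hn hE hL)
  | and f g ihf ihg =>
    intro n L v v' hn hE hL
    exact and_congr (ihf n L v v' ((le_max_left _ _).trans hn) hE hL)
      (ihg n L v v' ((le_max_right _ _).trans hn) hE hL)
  | ex f ih =>
    intro n L v v' hn hE hL
    have hn' : f.rank + 1 ≤ n := hn
    obtain ⟨k, rfl⟩ : ∃ k, n = k + 1 := ⟨n - 1, by omega⟩
    have hk : f.rank ≤ k := by omega
    obtain ⟨_, h1, h2⟩ := hE
    constructor
    · rintro ⟨x, hx, hs⟩
      obtain ⟨x', hx', hE'⟩ := h1 x hx
      refine ⟨x', hx', (ih k _ (ext x v) (ext x' v') hk hE' ?_).mp hs⟩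
      intro i
      cases i with
      | none => exact List.mem_cons_self
      | some i => exact List.mem_cons_of_mem _ (hL i)
    · rintro ⟨x', hx', hs⟩
      obtain ⟨x, hx, hE'⟩ := h2 x' hx'
      refine ⟨x, hx, (ih k _ (ext x v) (ext x' v') hk hE' ?_).mpr hs⟩
      intro i
      cases i with
      | none => exact List.mem_cons_self
      | some i => exact List.mem_cons_of_mem _ (hL i)

theorem satOn_univ (G : CG C V) (r : V → V → Prop) {α : Type} (φ : FO C α) (v : α → V) :
    φ.SatOn G Set.univ r v ↔ φ.Sat G r v := by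
  induction φ with
  | eq i j => exact Iff.rfl
  | adj i j => exact Iff.rfl
  | lt i j => exact Iff.rfl
  | col c i => exact Iff.rfl
  | neg f ih => exact not_congr (ih v)
  | and f g ihf ihg => exact and_congr (ihf v) (ihg v)
  | ex f ih =>
    constructor
    · rintro ⟨x, _, hs⟩
      exact ⟨x, (ih _).mp hs⟩
    · rintro ⟨x, hs⟩
      exact ⟨x, Set.mem_univ x, (ih _).mpr hs⟩

end Pool.MP_33c730_lc
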