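import Pool.Agent.Lib.MP_33c730_lc.CodeDefs
import Pool.Agent.Lib.MP_33c730_lc.EdgeBound
import Pool.Agent.Lib.MP_33c730_lc.Degen

set_option autoImplicit false

namespace Pool.MP_33c730_lc

/-! ### StarCol: hub-free graphs have star colourings with boundedly many colours -/
/-- the augmented graph: edges, common upper neighbours (fraternal), transitive pairs, for the
orientation towards smaller values of `f`. -/
def augm {V : Type} (G : SimpleGraph V) (f : V → ℕ) : SimpleGraph V where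
  Adj x y := x ≠ y ∧ (G.Adj x y ∨
    (∃ z, G.Adj z x ∧ G.Adj z y ∧ f x < f z ∧ f y < f z) ∨
    (∃ z, G.Adj x z ∧ G.Adj z y ∧ f z < f x ∧ f y < f z) ∨
    (∃ z, G.Adj y z ∧ G.Adj z x ∧ f z < f y ∧ f x < f z))
  symm := ⟨fun x y h => by
    refine ⟨h.1.symm, ?_⟩
    rcases h.2 with h | ⟨z, h1, h2, h3, h4⟩ | ⟨z, h1, h2, h3, h4⟩ | ⟨z, h1, h2, h3, h4⟩
    · exact Or.inl h.symm
    · exact Or.inr (Or.inl ⟨z, h2, h1, h4, h3⟩)
    · exact Or.inr (Or.inr (Or.inr ⟨z, h1, h2, h3, h4⟩))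
    · exact Or.inr (Or.inr (Or.inl ⟨z, h1, h2, h3, h4⟩))⟩
  loopless := ⟨fun x h => h.1 rfl⟩

private theorem starb_count {α β : Type} [Finite β] (W : Finset α) (F : α → Set β) (d : ℕ)
    (hF : ∀ a ∈ W, (F a).ncard ≤ d) : Set.ncard {b | ∃ a ∈ W, b ∈ F a} ≤ d * W.card := by
  classical
  induction W using Finset.induction_on with
  | empty => simp
  | insert a W ha ih =>
    have h1 : {b | ∃ a' ∈ insert a W, b ∈ F a'} ⊆ F a ∪ {b | ∃ a' ∈ W, b ∈ F a'} := by
      rintro b ⟨a', ha', hb⟩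
      rcases Finset.mem_insert.1 ha' with rfl | h
      · exact Or.inl hb
      · exact Or.inr ⟨a', h, hb⟩
    have h2 := Set.ncard_le_ncard h1 (Set.toFinite _)
    have h3 := Set.ncard_union_le (F a) {b | ∃ a' ∈ W, b ∈ F a'}
    have h4 := ih fun a' ha' => hF a' (Finset.mem_insert_of_mem ha')
    have h5 := hF a (Finset.mem_insert_self a W)
    rw [Finset.card_insert_of_notMem ha, Nat.mul_succ]
    omega

/-- the smaller neighbours -/
private def dn {V : Type} (G : SimpleGraph V) (f : V → ℕ) (x : V) : Set V :=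
  {y | G.Adj x y ∧ f y < f x}

private theorem starb_edges {V : Type} [Finite V] (G : SimpleGraph V) (f : V → ℕ) (d : ℕ)
    (hd : ∀ x, (dn G f x).ncard ≤ d) (W : Finset V) (s : V → V → V × V) :
    Set.ncard {p : V × V | ∃ a ∈ W, p ∈ (s a) '' (dn G f a)} ≤ d * W.card :=
  starb_count W (fun a => (s a) '' (dn G f a)) d fun a _ =>
    (Set.ncard_image_le (Set.toFinite _)).trans (hd a)

private theorem starb_trans {V : Type} [Finite V] (G : SimpleGraph V) (f : V → ℕ) (d : ℕ)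
    (hd : ∀ x, (dn G f x).ncard ≤ d) (W : Finset V) (s : V → V → V × V) :
    Set.ncard {p : V × V | ∃ a ∈ W, p ∈ {p | ∃ z ∈ dn G f a, p ∈ (s a) '' (dn G f z)}} ≤
      d * d * W.card := by
  classical
  apply starb_count
  intro a _
  have h1 := starb_count (Set.toFinite (dn G f a)).toFinset (fun z => (s a) '' (dn G f z)) d
    fun z _ => (Set.ncard_image_le (Set.toFinite _)).trans (hd z)
  have h2 : {p : V × V | ∃ z ∈ (Set.toFinite (dn G f a)).toFinset, p ∈ (s a) '' (dn G f z)} =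
      {p | ∃ z ∈ dn G f a, p ∈ (s a) '' (dn G f z)} := by
    ext p
    constructor
    · rintro ⟨z, hz, hp⟩
      exact ⟨z, (Set.Finite.mem_toFinset _).1 hz, hp⟩
    · rintro ⟨z, hz, hp⟩
      exact ⟨z, (Set.Finite.mem_toFinset _).2 hz, hp⟩
  rw [h2] at h1
  refine h1.trans (Nat.mul_le_mul_left _ ?_)
  rw [← Set.ncard_eq_toFinset_card _ (Set.toFinite (dn G f a))]
  exact hd a

private theorem starb_frat {V : Type} [Finite V] (G : SimpleGraph V) (f : V → ℕ) (d : ℕ)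
    (hd : ∀ x, (dn G f x).ncard ≤ d) (W : Finset V) :
    Set.ncard {p : V × V | ∃ a ∈ W, p ∈ (dn G f a) ×ˢ (dn G f a)} ≤ d * d * W.card := by
  apply starb_count
  intro a _
  rw [Set.ncard_prod]
  exact Nat.mul_le_mul (hd a) (hd a)

/-- hubs are transferred along a system of distinct common neighbours -/
private theorem starb_hub {V : Type} (G H : SimpleGraph V) (W : Set V) (T : V → V → V → Prop)
    (hsymm : ∀ z x y, T z x y → T z y x)
    (hT : ∀ z x y, T z x y → G.Adj z x ∧ z ∉ W ∧ x ∈ W)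
    (hinj : ∀ z x y x' y', T z x y → T z x' y' → (x = x' ∧ y = y') ∨ (x = y' ∧ y = x'))
    (hH : ∀ x y, H.Adj x y ↔ ∃ z, T z x y) (h : ℕ) (hG : HubFree h G) : HubFree h H := by
  rintro ⟨a, D, ha, hc, hdis, haD, hadj⟩
  apply hG
  rcases Nat.eq_zero_or_pos h with h0 | hpos
  · subst h0
    exact ⟨a, D, ha, fun j => j.elim0, fun i => i.elim0, fun i => i.elim0, fun i => i.elim0⟩
  have haW : ∀ i, a i ∈ W := by
    intro i
    obtain ⟨x, -, hx⟩ := hadj i ⟨0, hpos⟩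
    obtain ⟨z, hz⟩ := (hH _ _).1 hx
    exact (hT _ _ _ hz).2.2
  have hDW : ∀ j, ∀ v ∈ D j, v ∈ W := by
    intro j v hv
    obtain ⟨x, hxD, hx⟩ := hadj ⟨0, hpos⟩ j
    obtain ⟨z, hz⟩ := (hH _ _).1 hx
    have hxW : x ∈ W := (hT _ _ _ (hsymm _ _ _ hz)).2.2
    obtain ⟨w⟩ := (hc j).preconnected ⟨v, hv⟩ ⟨x, hxD⟩
    cases w with
    | nil => exact hxW
    | cons hadj' _ =>
      have h1 := SimpleGraph.comap_adj.1 hadj'
      obtain ⟨z', hz'⟩ := (hH _ _).1 h1
      exact (hT _ _ _ hz').2.2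
  set D' : Fin h → Set V := fun j => D j ∪
    {z | ∃ x y, T z x y ∧ x ∈ D j ∧ (y ∈ D j ∨ ∃ i, y = a i)} with hD'
  refine ⟨a, D', ha, ?_, ?_, ?_, ?_⟩
  · intro j
    have hreach : ∀ u v : D j, ((H.induce (D j)).Reachable u v) →
        (G.induce (D' j)).Reachable ⟨u.1, Or.inl u.2⟩ ⟨v.1, Or.inl v.2⟩ := by
      rintro u v ⟨w⟩
      induction w with
      | nil => exact SimpleGraph.Reachable.refl _
      | @cons u v w hadj' p ih =>
        refine SimpleGraph.Reachable.trans ?_ ih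
        have h1 := SimpleGraph.comap_adj.1 hadj'
        obtain ⟨z, hz⟩ := (hH _ _).1 h1
        have hzD : z ∈ D' j := Or.inr ⟨u.1, v.1, hz, u.2, Or.inl v.2⟩
        have e1 : (G.induce (D' j)).Adj ⟨u.1, Or.inl u.2⟩ ⟨z, hzD⟩ :=
          SimpleGraph.comap_adj.2 (hT _ _ _ hz).1.symm
        have e2 : (G.induce (D' j)).Adj ⟨z, hzD⟩ ⟨v.1, Or.inl v.2⟩ :=
          SimpleGraph.comap_adj.2 (hT _ _ _ (hsymm _ _ _ hz)).1
        exact e1.reachable.trans e2.reachable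
    obtain ⟨u0⟩ := (hc j).nonempty
    have hbase : ∀ v : D' j, (G.induce (D' j)).Reachable ⟨u0.1, Or.inl u0.2⟩ v := by
      rintro ⟨v, hv | ⟨x, y, hz, hx, -⟩⟩
      · exact hreach u0 ⟨v, hv⟩ ((hc j).preconnected _ _)
      · have e1 : (G.induce (D' j)).Adj ⟨x, Or.inl hx⟩ ⟨v, Or.inr ⟨x, y, hz, hx, by assumption⟩⟩ :=
          SimpleGraph.comap_adj.2 (hT _ _ _ hz).1.symm
        exact (hreach u0 ⟨x, hx⟩ ((hc j).preconnected _ _)).trans e1.reachable
    have : Nonempty (D' j) := ⟨⟨u0.1, Or.inl u0.2⟩⟩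
    exact ⟨fun u v => (hbase u).symm.trans (hbase v)⟩
  · intro i j hij
    rw [Set.disjoint_left]
    have hd := hdis i j hij
    rw [Set.disjoint_left] at hd
    rintro v (hv | ⟨x, y, hz, hx, hy⟩) (hv' | ⟨x', y', hz', hx', hy'⟩)
    · exact hd hv hv'
    · exact (hT _ _ _ hz').2.1 (hDW i v hv)
    · exact (hT _ _ _ hz).2.1 (hDW j v hv')
    · rcases hinj v x y x' y' hz hz' with ⟨h1, -⟩ | ⟨h1, h2⟩
      · exact hd hx (h1 ▸ hx')
      · rcases hy' with hy' | ⟨k, hk⟩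
        · exact hd hx (h1 ▸ hy')
        · rw [h1, hk] at hx
          exact haD k i hx
  · rintro i j (hv | ⟨x, y, hz, -, -⟩)
    · exact haD i j hv
    · exact (hT _ _ _ hz).2.1 (haW i)
  · intro i j
    obtain ⟨x, hx, hadj'⟩ := hadj i j
    obtain ⟨z, hz⟩ := (hH _ _).1 hadj'
    exact ⟨z, Or.inr ⟨x, a i, hsymm _ _ _ hz, hx, Or.inr ⟨i, rfl⟩⟩, (hT _ _ _ hz).1.symm⟩

/-- valid triples -/
private def Val {V : Type} (G : SimpleGraph V) (f : V → ℕ) (W : Finset V) (t : V × V × V) : Prop :=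
  t.1 ∉ W ∧ t.2.1 ∈ W ∧ t.2.2 ∈ W ∧ G.Adj t.1 t.2.1 ∧ G.Adj t.1 t.2.2 ∧ f t.2.1 < f t.2.2 ∧
    f t.2.1 < f t.1 ∧ f t.2.2 < f t.1

private theorem starb_max {V : Type} [Finite V] (G : SimpleGraph V) (f : V → ℕ) (W : Finset V) :
    ∃ S : Finset (V × V × V), (∀ t ∈ S, Val G f W t) ∧
      (∀ t ∈ S, ∀ t' ∈ S, t ≠ t' → t.1 ≠ t'.1 ∧ t.2 ≠ t'.2) ∧
      ∀ t, Val G f W t → ∃ t' ∈ S, t'.1 = t.1 ∨ t'.2 = t.2 := by
  classical
  cases nonempty_fintype V
  obtain ⟨S, ⟨hS1, hS2⟩, hmax⟩ := Set.exists_max_image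
    {S : Finset (V × V × V) | (∀ t ∈ S, Val G f W t) ∧
      (∀ t ∈ S, ∀ t' ∈ S, t ≠ t' → t.1 ≠ t'.1 ∧ t.2 ≠ t'.2)} (fun S => S.card)
    (Set.toFinite _) ⟨∅, by simp⟩
  refine ⟨S, hS1, hS2, fun t ht => ?_⟩
  by_contra hcon
  push Not at hcon
  have htS : t ∉ S := fun h => (hcon t h).1 rfl
  have h1 := hmax (insert t S) ⟨by
    intro t' ht'
    rcases Finset.mem_insert.1 ht' with rfl | h
    · exact ht
    · exact hS1 t' h, by
    intro t1 ht1 t2 ht2 hne
    rcases Finset.mem_insert.1 ht1 with rfl | h1 <;> rcases Finset.mem_insert.1 ht2 with rfl | h2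
    · exact absurd rfl hne
    · exact ⟨(hcon t2 h2).1.symm, (hcon t2 h2).2.symm⟩
    · exact hcon t1 h1
    · exact hS2 t1 h1 t2 h2 hne⟩
  simp only [Finset.card_insert_of_notMem htS] at h1
  omega

/-- sparsity of the augmented graph. -/
theorem augm_bound (h d : ℕ) : ∃ c : ℕ, ∀ (V : Type) [Finite V] (G : SimpleGraph V) (f : V → ℕ),
    HubFree h G → Function.Injective f → (∀ x, Set.ncard {y | G.Adj x y ∧ f y < f x} ≤ d) →
    ∀ W : Finset V, Set.ncard {p : V × V | p.1 ∈ W ∧ p.2 ∈ W ∧ (augm G f).Adj p.1 p.2}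
      ≤ c * W.card := by
  classical
  obtain ⟨c, hc⟩ := edge_bound h
  refine ⟨2 * d + 3 * (d * d) + d * d * c + c, fun V _ G f hG hf hd W => ?_⟩
  have hd' : ∀ x, (dn G f x).ncard ≤ d := hd
  obtain ⟨S, hS1, hS2, hS3⟩ := starb_max G f W
  set T : V → V → V → Prop := fun z x y => (z, x, y) ∈ S ∨ (z, y, x) ∈ S with hT
  have hTW : ∀ z x y, T z x y → G.Adj z x ∧ z ∉ W ∧ x ∈ W ∧ x ≠ y := by
    rintro z x y (h1 | h1)
    · have := hS1 _ h1
      exact ⟨this.2.2.2.1, this.1, this.2.1, fun h2 => by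
        have h3 := this.2.2.2.2.2.1
        simp only [h2] at h3
        omega⟩
    · have := hS1 _ h1
      exact ⟨this.2.2.2.2.1, this.1, this.2.2.1, fun h2 => by
        have h3 := this.2.2.2.2.2.1
        simp only [h2] at h3
        omega⟩
  have hsymm : ∀ z x y, T z x y → T z y x := fun z x y h1 => h1.symm
  let H : SimpleGraph V :=
    { Adj := fun x y => ∃ z, T z x y
      symm := ⟨fun x y ⟨z, hz⟩ => ⟨z, hsymm _ _ _ hz⟩⟩
      loopless := ⟨fun x ⟨z, hz⟩ => (hTW _ _ _ hz).2.2.2 rfl⟩ }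
  have hinj : ∀ z x y x' y', T z x y → T z x' y' → (x = x' ∧ y = y') ∨ (x = y' ∧ y = x') := by
    have key : ∀ z p q, (z, p) ∈ S → (z, q) ∈ S → p = q := by
      intro z p q hp hq
      by_contra hne
      exact (hS2 _ hp _ hq (fun h1 => hne (Prod.mk.inj h1).2)).1 rfl
    rintro z x y x' y' (h1 | h1) (h2 | h2)
    · have := key _ _ _ h1 h2
      exact Or.inl ⟨(Prod.mk.inj this).1, (Prod.mk.inj this).2⟩
    · have := key _ _ _ h1 h2
      exact Or.inr ⟨(Prod.mk.inj this).1, (Prod.mk.inj this).2⟩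
    · have := key _ _ _ h1 h2
      exact Or.inr ⟨(Prod.mk.inj this).2, (Prod.mk.inj this).1⟩
    · have := key _ _ _ h1 h2
      exact Or.inl ⟨(Prod.mk.inj this).2, (Prod.mk.inj this).1⟩
  have hHf : HubFree h H := starb_hub G H (W : Set V) T hsymm
    (fun z x y h1 => ⟨(hTW z x y h1).1, (hTW z x y h1).2.1, (hTW z x y h1).2.2.1⟩) hinj
    (fun x y => Iff.rfl) h hG
  have hHW := hc V H hHf W
  -- the size of `S`
  have hScard : S.card ≤ c * W.card := by
    refine le_trans ?_ hHW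
    have h1 : S.card = Set.ncard ((S.image Prod.snd : Finset (V × V)) : Set (V × V)) := by
      rw [Set.ncard_coe_finset, Finset.card_image_of_injOn]
      intro t ht t' ht' hte
      by_contra hne
      exact (hS2 t ht t' ht' hne).2 hte
    rw [h1]
    apply Set.ncard_le_ncard _ (Set.toFinite _)
    intro p hp
    rw [Finset.coe_image] at hp
    obtain ⟨t, ht, rfl⟩ := hp
    have := hS1 t ht
    exact ⟨this.2.1, this.2.2.1, t.1, Or.inl ht⟩
  -- the pieces
  set P1 : Set (V × V) := {p | ∃ a ∈ W, p ∈ (fun y => (a, y)) '' (dn G f a)} with hP1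
  set P2 : Set (V × V) := {p | ∃ a ∈ W, p ∈ (fun y => (y, a)) '' (dn G f a)} with hP2
  set P3 : Set (V × V) := {p | ∃ a ∈ W, p ∈ {p | ∃ z ∈ dn G f a, p ∈ (fun y => (a, y)) '' (dn G f z)}}
    with hP3
  set P4 : Set (V × V) := {p | ∃ a ∈ W, p ∈ {p | ∃ z ∈ dn G f a, p ∈ (fun y => (y, a)) '' (dn G f z)}}
    with hP4
  set P5 : Set (V × V) := {p | ∃ a ∈ W, p ∈ (dn G f a) ×ˢ (dn G f a)} with hP5
  set P6 : Set (V × V) := {p | ∃ a ∈ S.image Prod.fst, p ∈ (dn G f a) ×ˢ (dn G f a)} with hP6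
  set P7 : Set (V × V) := {p : V × V | p.1 ∈ W ∧ p.2 ∈ W ∧ H.Adj p.1 p.2} with hP7
  have b1 : P1.ncard ≤ d * W.card := starb_edges G f d hd' W fun a y => (a, y)
  have b2 : P2.ncard ≤ d * W.card := starb_edges G f d hd' W fun a y => (y, a)
  have b3 : P3.ncard ≤ d * d * W.card := starb_trans G f d hd' W fun a y => (a, y)
  have b4 : P4.ncard ≤ d * d * W.card := starb_trans G f d hd' W fun a y => (y, a)
  have b5 : P5.ncard ≤ d * d * W.card := starb_frat G f d hd' W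
  have b6 : P6.ncard ≤ d * d * (c * W.card) := by
    refine (starb_frat G f d hd' (S.image Prod.fst)).trans ?_
    exact Nat.mul_le_mul_left _ (Finset.card_image_le.trans hScard)
  have hsub : {p : V × V | p.1 ∈ W ∧ p.2 ∈ W ∧ (augm G f).Adj p.1 p.2} ⊆
      P1 ∪ (P2 ∪ (P3 ∪ (P4 ∪ (P5 ∪ (P6 ∪ P7))))) := by
    rintro ⟨x, y⟩ ⟨hx, hy, hne, hadj⟩
    simp only at hx hy hne hadj
    rcases hadj with h1 | ⟨z, h1, h2, h3, h4⟩ | ⟨z, h1, h2, h3, h4⟩ | ⟨z, h1, h2, h3, h4⟩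
    · rcases lt_trichotomy (f x) (f y) with h2 | h2 | h2
      · exact Or.inr (Or.inl ⟨y, hy, x, ⟨h1.symm, h2⟩, rfl⟩)
      · exact absurd (hf h2) hne
      · exact Or.inl ⟨x, hx, y, ⟨h1, h2⟩, rfl⟩
    · by_cases hz : z ∈ W
      · exact Or.inr (Or.inr (Or.inr (Or.inr (Or.inl ⟨z, hz, ⟨h1, h3⟩, ⟨h2, h4⟩⟩))))
      · right; right; right; right; right
        rcases lt_trichotomy (f x) (f y) with h5 | h5 | h5
        · obtain ⟨t, ht, hte | hte⟩ := hS3 (z, x, y) ⟨hz, hx, hy, h1, h2, h5, h3, h4⟩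
          · left
            refine ⟨z, Finset.mem_image.2 ⟨t, ht, hte⟩, ⟨h1, h3⟩, ⟨h2, h4⟩⟩
          · right
            refine ⟨hx, hy, t.1, Or.inl ?_⟩
            have : (t.1, x, y) = t := by
              rw [show (x, y) = t.2 from hte.symm]
            rw [this]
            exact ht
        · exact absurd (hf h5) hne
        · obtain ⟨t, ht, hte | hte⟩ := hS3 (z, y, x) ⟨hz, hy, hx, h2, h1, h5, h4, h3⟩
          · left
            refine ⟨z, Finset.mem_image.2 ⟨t, ht, hte⟩, ⟨h1, h3⟩, ⟨h2, h4⟩⟩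
          · right
            refine ⟨hx, hy, t.1, Or.inr ?_⟩
            have : (t.1, y, x) = t := by
              rw [show (y, x) = t.2 from hte.symm]
            rw [this]
            exact ht
    · exact Or.inr (Or.inr (Or.inl ⟨x, hx, z, ⟨h1, h3⟩, y, ⟨h2, h4⟩, rfl⟩))
    · exact Or.inr (Or.inr (Or.inr (Or.inl ⟨y, hy, z, ⟨h1, h3⟩, x, ⟨h2, h4⟩, rfl⟩)))
  have c0 := Set.ncard_le_ncard hsub (Set.toFinite _)
  have c1 := Set.ncard_union_le P1 (P2 ∪ (P3 ∪ (P4 ∪ (P5 ∪ (P6 ∪ P7)))))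
  have c2 := Set.ncard_union_le P2 (P3 ∪ (P4 ∪ (P5 ∪ (P6 ∪ P7))))
  have c3 := Set.ncard_union_le P3 (P4 ∪ (P5 ∪ (P6 ∪ P7)))
  have c4 := Set.ncard_union_le P4 (P5 ∪ (P6 ∪ P7))
  have c5 := Set.ncard_union_le P5 (P6 ∪ P7)
  have c6 := Set.ncard_union_le P6 P7
  have e : (2 * d + 3 * (d * d) + d * d * c + c) * W.card = d * W.card + (d * W.card +
      (d * d * W.card + (d * d * W.card + (d * d * W.card + (d * d * (c * W.card) +
        c * W.card))))) := by ring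
  rw [e]
  omega

/-- a proper colouring of the augmented graph is a star colouring. -/
theorem augm_star {V : Type} (G : SimpleGraph V) (f : V → ℕ) (hf : Function.Injective f) {m : ℕ}
    (χ : V → Fin m) (hχ : ∀ x y, (augm G f).Adj x y → χ x ≠ χ y) : StarCol G χ := by
  -- at a vertex with two neighbours of the same colour both neighbours are larger
  have key : ∀ x y z, G.Adj x y → G.Adj x z → χ z = χ y → z ≠ y → f x < f y := by
    intro x y z hxy hxz hc hne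
    by_contra hlt
    have hfy : f y < f x := by
      rcases lt_trichotomy (f x) (f y) with h | h | h
      · exact absurd h hlt
      · exact absurd (hf h) (fun e => G.loopless.irrefl x (by rw [e] at hxy ⊢; exact hxy))
      · exact h
    have hfz : f z ≠ f x := fun e => by
      have e2 := hf e
      rw [e2] at hxz
      exact G.loopless.irrefl x hxz
    have hadj : (augm G f).Adj z y := by
      rcases lt_or_gt_of_ne hfz with h | h
      · exact ⟨hne, Or.inr (Or.inl ⟨x, hxz, hxy, h, hfy⟩)⟩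
      · exact ⟨hne, Or.inr (Or.inr (Or.inl ⟨x, hxz.symm, hxy, h, hfy⟩))⟩
    exact hχ z y hadj hc
  intro x y hxy
  by_contra hcon
  rw [not_or] at hcon
  obtain ⟨h1, h2⟩ := hcon
  push Not at h1 h2
  obtain ⟨z, hz1, hz2, hz3⟩ := h1
  obtain ⟨w, hw1, hw2, hw3⟩ := h2
  have a1 := key x y z hxy hz1 hz2 hz3
  have a2 := key y x w hxy.symm hw1 hw2 hw3
  omega

theorem star_coloring (h : ℕ) : ∃ m : ℕ, ∀ (V : Type) [Finite V] (G : SimpleGraph V),
    HubFree h G → ∃ χ : V → Fin m, StarCol G χ := by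
  obtain ⟨c1, hc1⟩ := edge_bound h
  obtain ⟨c2, hc2⟩ := augm_bound h c1
  refine ⟨c2 + 1, ?_⟩
  intro V _ G hG
  obtain ⟨f, hf, hf2⟩ := degen_order G c1 (hc1 V G hG)
  obtain ⟨g, hg, hg2⟩ := degen_order (augm G f) c2 (hc2 V G f hG hf hf2)
  obtain ⟨χ, hχ⟩ := greedy_col (augm G f) c2 g hg hg2
  exact ⟨χ, augm_star G f hf χ hχ⟩

end Pool.MP_33c730_lc
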