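import Pool.Agent.Lib.MP_33c730_lc.Logic
import Pool.Agent.Lib.MP_33c730_lc.Sound
import Pool.Agent.Lib.MP_33c730_lc.Complete
import Pool.Agent.Lib.MP_33c730_lc.Dfs
import Pool.Agent.Lib.MP_33c730_lc.StarCol
import Pool.Agent.Lib.MP_33c730_lc.DefMain
import Pool.Agent.Lib.MP_33c730_lc.Hub

set_option autoImplicit false

namespace Pool.MP_33c730_lc

/-! ### Main: assembly -/
theorem main_hub (C : Type) [Finite C] (h : ℕ) (φ : FO C Empty) (hφ : OrderInvariant φ) :
    ∃ ψ : MSO C Empty Empty, ∀ (V : Type) [Finite V] (G : CG C V), HubFree h G.gr →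
      ∀ lt : V → V → Prop, IsStrictTotalOrder V lt →
        (ψ.Sat G Empty.elim Empty.elim ↔ φ.Sat G lt Empty.elim) := by
  obtain ⟨m, hm⟩ := star_coloring h
  obtain ⟨b, hb⟩ := complete C φ.rank h
  obtain ⟨ψ, hψ⟩ := def_main C m b φ.rank φ
  have key : ∀ (V : Type) [Finite V] (G : CG C V) (le : V → V → Prop) (K : Set V) (k1 k2 : V → ℕ),
      Forest G.gr le → Legit G le K k1 k2 φ.rank → ∀ lt : V → V → Prop, IsStrictTotalOrder V lt →
      (φ.SatOn G (kpAll le K) (dlt G.gr le k1 k2) Empty.elim ↔ φ.Sat G lt Empty.elim) := by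
    intro V _ G le K k1 k2 hF hL lt hlt
    obtain ⟨r, hr, hEF⟩ := sound G le K k1 k2 φ.rank hF hL
    have h1 := EF_sat G ∅ r (dlt G.gr le k1 k2) Set.univ (kpAll le K) φ φ.rank [] Empty.elim
      Empty.elim le_rfl hEF (fun i => i.elim)
    rw [← h1, satOn_univ]
    exact hφ V G r lt hr hlt
  refine ⟨ψ, ?_⟩
  intro V _ G hG lt hlt
  rw [hψ V G]
  constructor
  · rintro ⟨S, hF, hL, hS⟩
    exact (key V G _ _ _ _ hF hL lt hlt).1 hS
  · intro hsat
    obtain ⟨χ, hχ⟩ := hm V G.gr hG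
    obtain ⟨le, hN⟩ := exists_normal V G.gr
    obtain ⟨K, k1, k2, hL, h1, h2⟩ := hb V G le hN hG
    let S : Par m b → Set V := Sum.elim
      (Sum.elim (fun j => {v | χ v = j}) (fun j => {u | ∀ y, G.gr.Adj u y → χ y = j → le y u}))
      (Sum.elim (fun _ => K)
        (Sum.elim (fun i : Fin b => {v | k1 v = i}) (fun i : Fin b => {v | k2 v = i})))
    have hle : leS G.gr S = le := by
      funext a x
      exact propext (coding hN χ hχ a x)
    have hK : KS S = K := rfl
    have hk1 : k1S S = k1 := by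
      funext v
      exact idx_coding k1 h1 v
    have hk2 : k2S S = k2 := by
      funext v
      exact idx_coding k2 h2 v
    refine ⟨S, ?_⟩
    rw [hle, hK, hk1, hk2]
    exact ⟨hN.toForest, hL, (key V G le K k1 k2 hN.toForest hL lt hlt).2 hsat⟩

/-- **Order-invariant first-order logic is contained in MSO on every class of graphs which excludes
a topological minor.** -/
theorem main_topK (C : Type) [Finite C] (s : ℕ) (φ : FO C Empty) (hφ : OrderInvariant φ) :
    ∃ ψ : MSO C Empty Empty, ∀ (V : Type) [Finite V] (G : CG C V), ¬ ContainsTopK s G.gr →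
      ∀ lt : V → V → Prop, IsStrictTotalOrder V lt →
        (ψ.Sat G Empty.elim Empty.elim ↔ φ.Sat G lt Empty.elim) := by
  obtain ⟨ψ, hψ⟩ := main_hub C (s * s + 1) φ hφ
  exact ⟨ψ, fun V _ G hG lt hlt => hψ V G (hubFree_of_not_containsTopK s G.gr hG) lt hlt⟩

end Pool.MP_33c730_lc
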